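import Pool.Agent.Lib.MP_ed987a_lc.PT.A1

section

/-!
# TASK PT A7: the perimeter of a connected set (medium)

PROOF of `perim_le`. Let `n = S.ncard`. The number of pairs `(c, c')` with `c ∈ S` and `Adj c c'` is `4 n` (the four neighbours `c + vec d` of `c`, `adj_iff`, `vec_inj`).
The number of such pairs with `c' ∈ S` is twice the number of edges of `gridG.induce S` (`SimpleGraph.sum_degrees_eq_twice_card_edges`, or the number of darts, `SimpleGraph.dart_card_eq_twice_card_edges`), which is at least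
`2 (n - 1)`, as a connected graph with `n` vertices has at least `n - 1` edges (`SimpleGraph.Connected.card_vert_le_card_edgeSet_add_one`). So `perim S ≤ 4 n - 2 (n - 1) = 2 n + 2`.
-/

set_option autoImplicit false

namespace Pool.Agent.PT

theorem ncard_pairs {S : Set V} (hS : S.Finite) :
    {e : V × V | e.1 ∈ S ∧ |e.1.1 - e.2.1| + |e.1.2 - e.2.2| = 1}.ncard = 4 * S.ncard := by
  have h1 : {e : V × V | e.1 ∈ S ∧ |e.1.1 - e.2.1| + |e.1.2 - e.2.2| = 1} =
      (fun x : V × Fin 4 => (x.1, x.1 + vec x.2)) '' (S ×ˢ (Set.univ : Set (Fin 4))) := by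
    ext ⟨c, c'⟩
    constructor
    · rintro ⟨h, h'⟩
      obtain ⟨d, rfl⟩ := (adj_iff c c').1 h'
      exact ⟨(c, d), ⟨h, Set.mem_univ _⟩, rfl⟩
    · rintro ⟨⟨a, d⟩, ⟨h, -⟩, h'⟩
      obtain ⟨rfl, rfl⟩ := Prod.mk.inj h'
      exact ⟨h, (adj_iff a (a + vec d)).2 ⟨d, rfl⟩⟩
  have h2 : Function.Injective (fun x : V × Fin 4 => (x.1, x.1 + vec x.2)) := by
    rintro ⟨a, d⟩ ⟨b, e⟩ h
    simp only [Prod.mk.injEq] at h
    obtain ⟨rfl, h⟩ := h
    rw [vec_inj (add_left_cancel h)]
  rw [h1, Set.ncard_image_of_injective _ h2, Set.ncard_prod, Set.ncard_univ, Nat.card_fin, mul_comm]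

theorem ncard_inner_pairs {S : Set V} (hS : S.Finite) (hc : (gridG.induce S).Connected) :
    2 * S.ncard ≤ {e : V × V | e.1 ∈ S ∧ e.2 ∈ S ∧ |e.1.1 - e.2.1| + |e.1.2 - e.2.2| = 1}.ncard + 2 := by
  classical
  have : Fintype S := hS.fintype
  have : DecidableRel (gridG.induce S).Adj := Classical.decRel _
  have h1 : {e : V × V | e.1 ∈ S ∧ e.2 ∈ S ∧ |e.1.1 - e.2.1| + |e.1.2 - e.2.2| = 1} =
      (fun x : (gridG.induce S).Dart => ((x.fst : V), (x.snd : V))) '' Set.univ := by
    ext ⟨c, c'⟩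
    constructor
    · rintro ⟨h, h', h3⟩
      exact ⟨⟨(⟨c, h⟩, ⟨c', h'⟩), (gridG_adj c c').2 h3⟩, Set.mem_univ _, rfl⟩
    · rintro ⟨x, -, hx⟩
      obtain ⟨rfl, rfl⟩ := Prod.mk.inj hx
      exact ⟨x.fst.2, x.snd.2, (gridG_adj _ _).1 x.adj⟩
  have h2 : Function.Injective (fun x : (gridG.induce S).Dart => ((x.fst : V), (x.snd : V))) := by
    intro x y h
    simp only [Prod.mk.injEq] at h
    exact SimpleGraph.Dart.ext _ _ (Prod.ext (Subtype.ext h.1) (Subtype.ext h.2))
  have h3 : Nat.card S ≤ Nat.card (gridG.induce S).edgeSet + 1 := hc.card_vert_le_card_edgeSet_add_one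
  have h4 := (gridG.induce S).dart_card_eq_twice_card_edges
  have h5 : Nat.card (gridG.induce S).edgeSet = (gridG.induce S).edgeFinset.card := by
    rw [Nat.card_eq_fintype_card, SimpleGraph.edgeFinset_card]
  rw [h1, Set.ncard_image_of_injective _ h2, Set.ncard_univ, Nat.card_eq_fintype_card, h4]
  have h6 : S.ncard = Nat.card S := (Nat.card_coe_set_eq S).symm
  omega

theorem perim_le {S : Set V} (hS : Poly S) : perim S ≤ 2 * S.ncard + 2 := by
  have h1 := ncard_pairs hS.fin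
  have h2 := ncard_inner_pairs hS.fin hS.con
  have hfin : {e : V × V | e.1 ∈ S ∧ |e.1.1 - e.2.1| + |e.1.2 - e.2.2| = 1}.Finite := by
    rcases S.eq_empty_or_nonempty with h | h
    · refine Set.Finite.subset Set.finite_empty ?_
      rintro e ⟨he, -⟩
      rw [h] at he
      exact he
    · refine Set.finite_of_ncard_ne_zero ?_
      rw [h1]
      have := (Set.ncard_pos hS.fin).2 h
      omega
  have h3 : {e : V × V | e.1 ∈ S ∧ |e.1.1 - e.2.1| + |e.1.2 - e.2.2| = 1} =
      {e : V × V | e.1 ∈ S ∧ e.2 ∈ S ∧ |e.1.1 - e.2.1| + |e.1.2 - e.2.2| = 1} ∪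
      {e : V × V | e.1 ∈ S ∧ e.2 ∉ S ∧ |e.1.1 - e.2.1| + |e.1.2 - e.2.2| = 1} := by
    ext e
    constructor
    · rintro ⟨h, h'⟩
      by_cases h2 : e.2 ∈ S
      · exact Or.inl ⟨h, h2, h'⟩
      · exact Or.inr ⟨h, h2, h'⟩
    · rintro (⟨h, -, h'⟩ | ⟨h, -, h'⟩)
      · exact ⟨h, h'⟩
      · exact ⟨h, h'⟩
  have h4 : Disjoint {e : V × V | e.1 ∈ S ∧ e.2 ∈ S ∧ |e.1.1 - e.2.1| + |e.1.2 - e.2.2| = 1}
      {e : V × V | e.1 ∈ S ∧ e.2 ∉ S ∧ |e.1.1 - e.2.1| + |e.1.2 - e.2.2| = 1} := by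
    rw [Set.disjoint_left]
    rintro e ⟨-, ha, -⟩ ⟨-, hb, -⟩
    exact hb ha
  rw [h3, Set.ncard_union_eq h4 (hfin.subset fun e he => ⟨he.1, he.2.2⟩)
    (hfin.subset fun e he => ⟨he.1, he.2.2⟩)] at h1
  unfold perim
  omega

end Pool.Agent.PT
end

section

/-!
# TASK PT A2: column-convex sets are connected (easy)

`colset_rch`: induction on `l` (for all `x`, `b`). A point of the first column is connected to `(x, b)` vertically (`rch_vert`, `Rch.mono`). If `l = c :: c' :: l'` and the point is in the rest `colset (x + 1) b' (c' :: l')`,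
`b' = b + c.1 - 1 - c.2`, it is connected to `(x + 1, b')` by induction; the intervals `[b, b + c.1)` and `[b', b' + c'.1)` have a common element `y = max b b'`
(`b' ≤ b + c.1 - 1`, and `b ≤ b' + c'.1 - 1` since `c.2 + 1 < c.1 + c'.1`); `(x + 1, b')` to `(x + 1, y)` vertically, to `(x, y)` by one step, to `(x, b)` vertically.
-/

set_option autoImplicit false

namespace Pool.Agent.PT

private theorem A2_pos {c : ℕ × ℕ} {l : List (ℕ × ℕ)} (h : CCok (c :: l)) : 1 ≤ c.1 := by
  rcases l with _ | ⟨c', l⟩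
  · exact h.1
  · exact h.1

theorem mem_colset_first {l : List (ℕ × ℕ)} (h : CCok l) (x b : ℤ) : (x, b) ∈ colset x b l := by
  rcases l with _ | ⟨c, l⟩
  · exact absurd h id
  · have h1 := A2_pos h
    left
    refine ⟨rfl, le_refl _, ?_⟩
    have : (1 : ℤ) ≤ c.1 := by exact_mod_cast h1
    show b < b + (c.1 : ℤ)
    omega

private theorem A2_first (c : ℕ × ℕ) (l : List (ℕ × ℕ)) (x b : ℤ) {y : ℤ} (h1 : b ≤ y)
    (h2 : y < b + c.1) : Rch (colset x b (c :: l)) (x, y) (x, b) := by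
  refine rch_vert fun z hz1 hz2 => ?_
  left
  refine ⟨rfl, ?_, ?_⟩
  · show b ≤ z
    omega
  · show z < b + (c.1 : ℤ)
    omega

theorem colset_rch {l : List (ℕ × ℕ)} (h : CCok l) (x b : ℤ) {p : V} (hp : p ∈ colset x b l) :
    Rch (colset x b l) p (x, b) := by
  induction l generalizing x b with
  | nil => exact absurd h id
  | cons c l ih =>
    rcases hp with hp | hp
    · obtain ⟨px, py⟩ := p
      obtain ⟨h1, h2, h3⟩ := hp
      simp only at h1 h2 h3
      subst h1
      exact A2_first c l px b h2 h3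
    · rcases l with _ | ⟨c', l⟩
      · exact absurd hp (Set.notMem_empty _)
      · have hc := A2_pos h
        have hl : CCok (c' :: l) := h.2.2
        have ho : c.2 + 1 < c.1 + c'.1 := h.2.1
        have hc' := A2_pos hl
        have hsub : colset (x + 1) (b + c.1 - 1 - c.2) (c' :: l) ⊆ colset x b (c :: c' :: l) :=
          fun q hq => Or.inr hq
        have r1 := (ih hl (x + 1) (b + c.1 - 1 - c.2) hp).mono hsub
        refine r1.trans ?_
        -- the common height
        obtain ⟨y, y1, y2, y3, y4⟩ : ∃ y : ℤ, b ≤ y ∧ y < b + c.1 ∧ b + c.1 - 1 - c.2 ≤ y ∧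
            y < b + c.1 - 1 - c.2 + c'.1 := by
          refine ⟨max b (b + c.1 - 1 - c.2), ?_, ?_, ?_, ?_⟩ <;> omega
        have r2 : Rch (colset x b (c :: c' :: l)) (x + 1, y) (x + 1, b + c.1 - 1 - c.2) :=
          (A2_first c' l (x + 1) _ y3 y4).mono hsub
        have r3 : Rch (colset x b (c :: c' :: l)) (x, y) (x, b) := A2_first c (c' :: l) x b y1 y2
        have m1 : (x + 1, y) ∈ colset x b (c :: c' :: l) := hsub (Or.inl ⟨rfl, y3, y4⟩)
        have m2 : (x, y) ∈ colset x b (c :: c' :: l) := Or.inl ⟨rfl, y1, y2⟩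
        have r4 : Rch (colset x b (c :: c' :: l)) (x + 1, y) (x, y) := by
          refine rch_step ?_ m1 m2
          show |x + 1 - x| + |y - y| = 1
          simp
        exact (r2.symm.trans r4).trans r3

theorem colset_con {l : List (ℕ × ℕ)} (h : CCok l) (x b : ℤ) : (gridG.induce (colset x b l)).Connected := by
  exact con_of_rch (mem_colset_first h x b) fun p hp => colset_rch h x b hp

end Pool.Agent.PT
end
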