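import Pool.Agent.Lib.MP_ed987a_lc.PT.A1

section

/-!
# TASK PT A3: the complement of a column-convex set is connected (easy)

PROOF of `cocon_of_columns`. Reference point `q = (x0, 0)`, in the complement. Let `(x, y) ∉ S`. By `hcol` the cells above (or below) `(x, y)` in the column `x` are not in `S`. Put `Y = max y B`
(in the other case `Y = min y (-B)`). Then `(x, y)` is connected to `(x, Y)` vertically, `(x, Y)` to `(x0, Y)` horizontally (no cell of `S` has `|second coordinate| ≥ B`), `(x0, Y)` to `(x0, 0)` vertically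
(no cell of `S` in the column `x0`).

`colset_column`: induction on `l`; the column `x` is `[b, b + c.1)` and the rest has first coordinates `≥ x + 1` (`colset_ge`); a column `x' > x` is a column of the rest; `x' < x`: empty.
`colset_bound`: `B` exists since the set is finite, or by induction on `l` (max of the two bounds).
`colset_cocon`: `cocon_of_columns` with `x0 = x - 1` and `colset_column`: if `y` is not in the interval `[b', b' + h')` then `y ≥ b' + h'` (all `y' ≥ y` outside) or `y < b'`.
-/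

set_option autoImplicit false

namespace Pool.Agent.PT

theorem cocon_of_columns {S : Set V} {B x0 : ℤ} (hB : ∀ p ∈ S, |p.2| < B) (hx : ∀ p ∈ S, p.1 ≠ x0)
    (hcol : ∀ x y, (x, y) ∉ S → (∀ y' ≥ y, (x, y') ∉ S) ∨ ∀ y' ≤ y, (x, y') ∉ S) :
    (gridG.induce Sᶜ).Connected := by
  have hq : ∀ y : ℤ, ((x0, y) : V) ∈ Sᶜ := fun y h => hx _ h rfl
  refine con_of_rch (q := ((x0, 0) : V)) (hq 0) fun p hp => ?_
  obtain ⟨x, y⟩ := p
  have hlast : ∀ Y : ℤ, Rch Sᶜ ((x0, Y) : V) ((x0, 0) : V) := fun Y =>
    rch_vert fun y _ _ => hq y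
  have hmid : ∀ Y : ℤ, B ≤ |Y| → Rch Sᶜ ((x, Y) : V) ((x0, Y) : V) := by
    intro Y hY
    refine rch_hor fun x1 _ _ h => ?_
    have h1 := hB _ h
    exact absurd hY (not_le.2 h1)
  rcases hcol x y hp with h | h
  · have h1 : Rch Sᶜ ((x, y) : V) ((x, max y B) : V) := by
      refine rch_vert fun y1 hy1 _ => ?_
      refine h y1 ?_
      have h2 : min y (max y B) = y := min_eq_left (le_max_left _ _)
      rw [h2] at hy1
      exact hy1
    exact (h1.trans (hmid _ ((le_max_right y B).trans (le_abs_self _)))).trans (hlast _)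
  · have h1 : Rch Sᶜ ((x, y) : V) ((x, min y (-B)) : V) := by
      refine rch_vert fun y1 _ hy1 => ?_
      refine h y1 ?_
      have h2 : max y (min y (-B)) = y := max_eq_left (min_le_left _ _)
      rw [h2] at hy1
      exact hy1
    have h3 : B ≤ |min y (-B)| := by
      have h4 : min y (-B) ≤ -B := min_le_right _ _
      have h5 := neg_abs_le (min y (-B))
      linarith
    exact (h1.trans (hmid _ h3)).trans (hlast _)

theorem colset_ge {l : List (ℕ × ℕ)} {x b : ℤ} {p : V} (hp : p ∈ colset x b l) : x ≤ p.1 := by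
  induction l generalizing x b with
  | nil => exact absurd hp (Set.notMem_empty p)
  | cons c l ih =>
    rw [colset, Set.mem_union] at hp
    rcases hp with hp | hp
    · exact le_of_eq hp.1.symm
    · have := ih hp
      omega

theorem colset_column (l : List (ℕ × ℕ)) (x b x' : ℤ) :
    ∃ (b' : ℤ) (h' : ℕ), ∀ y, (x', y) ∈ colset x b l ↔ b' ≤ y ∧ y < b' + h' := by
  induction l generalizing x b with
  | nil =>
    refine ⟨0, 0, fun y => ?_⟩
    constructor
    · intro h
      exact absurd h (Set.notMem_empty _)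
    · rintro ⟨h1, h2⟩
      exfalso
      push_cast at h2
      omega
  | cons c l ih =>
    by_cases hx : x' = x
    · refine ⟨b, c.1, fun y => ?_⟩
      rw [colset, Set.mem_union]
      constructor
      · rintro (h | h)
        · exact h.2
        · have h1 := colset_ge h
          have h2 : x + 1 ≤ x' := h1
          omega
      · intro h
        exact Or.inl ⟨hx, h⟩
    · obtain ⟨b', h', hb⟩ := ih (x + 1) (b + c.1 - 1 - c.2)
      refine ⟨b', h', fun y => ?_⟩
      rw [← hb y, colset, Set.mem_union]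
      constructor
      · rintro (h | h)
        · exact absurd h.1 hx
        · exact h
      · intro h
        exact Or.inr h

theorem colset_bound (l : List (ℕ × ℕ)) (x b : ℤ) : ∃ B : ℤ, ∀ p ∈ colset x b l, |p.2| < B := by
  induction l generalizing x b with
  | nil => exact ⟨0, fun p hp => absurd hp (Set.notMem_empty p)⟩
  | cons c l ih =>
    obtain ⟨B, hB⟩ := ih (x + 1) (b + c.1 - 1 - c.2)
    refine ⟨max B (|b| + c.1 + 1), fun p hp => ?_⟩
    rw [colset, Set.mem_union] at hp
    rcases hp with hp | hp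
    · refine lt_of_lt_of_le ?_ (le_max_right _ _)
      obtain ⟨_, h2, h3⟩ := hp
      have h4 := le_abs_self b
      have h5 := neg_abs_le b
      rw [abs_lt]
      constructor <;> omega
    · exact lt_of_lt_of_le (hB p hp) (le_max_left _ _)

theorem colset_cocon (l : List (ℕ × ℕ)) (x b : ℤ) : (gridG.induce (colset x b l)ᶜ).Connected := by
  obtain ⟨B, hB⟩ := colset_bound l x b
  refine cocon_of_columns (B := B) (x0 := x - 1) hB (fun p hp h => ?_) fun x' y hy => ?_
  · have := colset_ge hp
    omega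
  · obtain ⟨b', h', hb⟩ := colset_column l x b x'
    by_cases h1 : b' ≤ y
    · left
      intro y' hy' h2
      have h3 := (hb y').1 h2
      exact hy ((hb y).2 ⟨h1, by omega⟩)
    · right
      intro y' hy' h2
      have h3 := (hb y').1 h2
      omega

end Pool.Agent.PT
end

section

/-!
# TASK PT A8: translations; finitely many polyominoes with `n` cells (easy to medium)

`Rch_shift`: induction on `ReflTransGen` (adjacency is invariant). `poly_shift`: `shift t S` is finite; connected by `rch_of_con`, `con_of_rch`; `(shift t S)ᶜ = shift t Sᶜ`.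
`ncard_shift`: `Set.ncard_image_of_injective`.

PROOF of `exists_fst`. Along a chain of cells of `S` from `p` to `q` the first coordinate changes by at most `1` in each step (`Adj`), so it takes all values between (induction on `Rch`, for example prove
`Rch S p q → p ∈ S → ∀ k, p.1 ≤ k → k ≤ q.1 → ∃ r ∈ S, r.1 = k` by induction on the chain). Likewise `exists_snd`.
PROOF of `fin_area`. Let `S` be a normal polyomino with `n` cells, `p ∈ S` with `p.1 = 0`, `q ∈ S` and `q.1 = m`. For `k = 0, ..., m` there is `r k ∈ S` with first coordinate `k`, so `m + 1 ≤ n`. The same for the second coordinate.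
So `S` is a subset of the finite set `{0, ..., n} × {0, ..., n}` (`Set.Finite.finite_subsets`, `Set.finite_Icc` in `ℤ`).
-/

set_option autoImplicit false

namespace Pool.Agent.PT

private theorem A8_adj {p q : V} (h : Adj p q) (t : V) : Adj (p + t) (q + t) := by
  unfold Adj at *
  simpa using h

private theorem A8_fst {p q : V} (h : Adj p q) : q.1 ≤ p.1 + 1 := by
  unfold Adj at h
  have h1 := neg_abs_le (p.1 - q.1)
  have h2 := abs_nonneg (p.2 - q.2)
  omega

private theorem A8_snd {p q : V} (h : Adj p q) : q.2 ≤ p.2 + 1 := by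
  unfold Adj at h
  have h1 := neg_abs_le (p.2 - q.2)
  have h2 := abs_nonneg (p.1 - q.1)
  omega

private theorem A8_chain_fst {S : Set V} {p q : V} (h : Rch S p q) (hp : p ∈ S) (k : ℤ)
    (h1 : p.1 ≤ k) (h2 : k ≤ q.1) : ∃ r ∈ S, r.1 = k := by
  unfold Rch at h
  induction h with
  | refl => exact ⟨p, hp, le_antisymm h1 h2⟩
  | @tail b c _ hbc ih =>
    by_cases hk : k ≤ b.1
    · exact ih hk
    · refine ⟨c, hbc.2.2, ?_⟩
      have := A8_fst hbc.1
      omega

private theorem A8_chain_snd {S : Set V} {p q : V} (h : Rch S p q) (hp : p ∈ S) (k : ℤ)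
    (h1 : p.2 ≤ k) (h2 : k ≤ q.2) : ∃ r ∈ S, r.2 = k := by
  unfold Rch at h
  induction h with
  | refl => exact ⟨p, hp, le_antisymm h1 h2⟩
  | @tail b c _ hbc ih =>
    by_cases hk : k ≤ b.2
    · exact ih hk
    · refine ⟨c, hbc.2.2, ?_⟩
      have := A8_snd hbc.1
      omega

private theorem A8_shift_inj (t : V) : Function.Injective (fun p : V => p + t) := fun a b h => by
  simpa using h

private theorem A8_compl (t : V) (S : Set V) : (shift t S)ᶜ = shift t Sᶜ := by
  ext p
  unfold shift
  simp only [Set.mem_compl_iff, Set.mem_image, not_exists, not_and]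
  constructor
  · intro h
    exact ⟨p - t, fun h' => h (p - t) h' (by simp), by simp⟩
  · rintro ⟨q, hq, rfl⟩ r hr h'
    have h2 : r = q := by simpa using h'
    exact hq (h2 ▸ hr)

theorem rch_shift {S : Set V} {p q : V} (h : Rch S p q) (t : V) : Rch (shift t S) (p + t) (q + t) := by
  exact Relation.ReflTransGen.lift (p := fun a b : V => Adj a b ∧ a ∈ shift t S ∧ b ∈ shift t S) (fun x : V => x + t)
    (fun a b hab => ⟨A8_adj hab.1 t, ⟨a, hab.2.1, rfl⟩, ⟨b, hab.2.2, rfl⟩⟩) _ _ h

private theorem A8_con {S : Set V} (h : (gridG.induce S).Connected) (t : V) :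
    (gridG.induce (shift t S)).Connected := by
  obtain ⟨⟨q, hq⟩⟩ := h.nonempty
  refine con_of_rch (q := q + t) ⟨q, hq, rfl⟩ ?_
  rintro _ ⟨p, hp, rfl⟩
  exact rch_shift (rch_of_con h hp hq) t

theorem poly_shift {S : Set V} (h : Poly S) (t : V) : Poly (shift t S) := by
  refine ⟨h.fin.image _, A8_con h.con t, ?_⟩
  rw [A8_compl]
  exact A8_con h.cocon t

theorem ncard_shift (t : V) (S : Set V) : (shift t S).ncard = S.ncard := by
  exact Set.ncard_image_of_injective S (A8_shift_inj t)

theorem exists_fst {S : Set V} (hc : (gridG.induce S).Connected) {p q : V} (hp : p ∈ S) (hq : q ∈ S) {k : ℤ}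
    (h1 : p.1 ≤ k) (h2 : k ≤ q.1) : ∃ r ∈ S, r.1 = k := by
  exact A8_chain_fst (rch_of_con hc hp hq) hp k h1 h2

theorem exists_snd {S : Set V} (hc : (gridG.induce S).Connected) {p q : V} (hp : p ∈ S) (hq : q ∈ S) {k : ℤ}
    (h1 : p.2 ≤ k) (h2 : k ≤ q.2) : ∃ r ∈ S, r.2 = k := by
  exact A8_chain_snd (rch_of_con hc hp hq) hp k h1 h2

private theorem A8_cnt {S : Set V} {n : ℕ} (hf : S.Finite) (hn : S.ncard = n) (g : V → ℤ) {m : ℤ}
    (hm : 0 ≤ m) (h : ∀ k, 0 ≤ k → k ≤ m → ∃ r ∈ S, g r = k) : m ≤ n := by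
  have h1 : (Set.Icc 0 m : Set ℤ) ⊆ g '' S := by
    intro k hk
    obtain ⟨r, hr, hrk⟩ := h k hk.1 hk.2
    exact ⟨r, hr, hrk⟩
  have h2 : (Set.Icc 0 m : Set ℤ).ncard ≤ (g '' S).ncard := Set.ncard_le_ncard h1 (hf.image g)
  have h3 : (g '' S).ncard ≤ S.ncard := Set.ncard_image_le hf
  have h4 : (Set.Icc 0 m : Set ℤ).ncard = (m + 1).toNat := by
    have e : (Set.Icc 0 m : Set ℤ) = ((Finset.Icc 0 m : Finset ℤ) : Set ℤ) := by
      simp
    rw [e, Set.ncard_coe_finset, Int.card_Icc]
    simp
  omega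

theorem fin_area (n : ℕ) : {S : Set V | (Poly S ∧ S.ncard = n) ∧ Normal S}.Finite := by
  refine Set.Finite.subset (Set.Finite.finite_subsets
    ((Set.finite_Icc (0 : ℤ) n).prod (Set.finite_Icc (0 : ℤ) n))) ?_
  rintro S ⟨⟨hP, hn⟩, hN⟩
  obtain ⟨h0, ⟨p1, hp1, e1⟩, ⟨p2, hp2, e2⟩⟩ := hN
  intro q hq
  have hq0 := h0 q hq
  refine ⟨⟨hq0.1, ?_⟩, ⟨hq0.2, ?_⟩⟩
  · refine A8_cnt hP.fin hn Prod.fst hq0.1 (fun k hk1 hk2 => ?_)
    exact exists_fst hP.con hp1 hq (by rw [e1]; exact hk1) hk2
  · refine A8_cnt hP.fin hn Prod.snd hq0.2 (fun k hk1 hk2 => ?_)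
    exact exists_snd hP.con hp2 hq (by rw [e2]; exact hk1) hk2

end Pool.Agent.PT
end
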