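import Pool.Agent.Lib.MP_ed987a_lc.PT.Bas

section

/-!
# TASK Nt: translations

(`le_ncard_normal`) for `a ∈ X` choose `t a` with `Normal (shift (t a) (F a))` (`exists_normal`); the map
`a ↦ shift (t a) (F a)` from `X` to `{S | Good S ∧ Normal S}` is injective: if `shift (t a) (F a) = shift (t b) (F b)` then
`shift (t a - t b) (F a) = F b`. (`Set.ncard_le_ncard_of_injOn`.)
(`perim_shift`) the bijection `(c, c') ↦ (c + t, c' + t)`. (`Poly.shift`) the translation is an isomorphism of the graph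
`gridG`; or use a path argument. (`exists_normal`) `t = (- min x, - min y)`, the minima over the finite set.
-/

set_option autoImplicit false

namespace Pool.Agent.PT

theorem mem_shift {t : V} {S : Set V} {p : V} : p ∈ shift t S ↔ p - t ∈ S := by
  constructor
  · rintro ⟨q, hq, rfl⟩
    simpa using hq
  · intro h
    exact ⟨p - t, h, by simp⟩

theorem shift_shift (t u : V) (S : Set V) : shift t (shift u S) = shift (u + t) S := by
  ext p
  rw [mem_shift, mem_shift, mem_shift, sub_sub, add_comm t u]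

theorem shift_zero (S : Set V) : shift 0 S = S := by
  ext p
  rw [mem_shift, sub_zero]

theorem BE_shift (t : V) (S : Set V) (p : V) (d : Fin 4) : BE (shift t S) p d ↔ BE S (p - t) d := by
  unfold BE
  rw [mem_shift, mem_shift]
  have h : ∀ c : V, p + c - t = p - t + c := fun c => by abel
  rw [h, h]

private theorem Nt_adj (p q t : V) : gridG.Adj (p + t) (q + t) ↔ gridG.Adj p q := by
  rw [gridG_adj, gridG_adj]
  unfold Adj
  have h1 : (p + t).1 - (q + t).1 = p.1 - q.1 := by simp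
  have h2 : (p + t).2 - (q + t).2 = p.2 - q.2 := by simp
  rw [h1, h2]

private theorem Nt_conn {S : Set V} (t : V) (h : (gridG.induce S).Connected) :
    (gridG.induce (shift t S)).Connected := by
  let e : (gridG.induce S) ≃g (gridG.induce (shift t S)) :=
    { toFun := fun p => ⟨p.1 + t, ⟨p.1, p.2, rfl⟩⟩
      invFun := fun p => ⟨p.1 - t, mem_shift.1 p.2⟩
      left_inv := fun p => Subtype.ext (by simp)
      right_inv := fun p => Subtype.ext (by simp)
      map_rel_iff' := by
        intro p q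
        exact Nt_adj p.1 q.1 t }
  exact e.connected_iff.1 h

private theorem Nt_compl (t : V) (S : Set V) : (shift t S)ᶜ = shift t Sᶜ := by
  ext p
  rw [Set.mem_compl_iff, mem_shift, mem_shift, Set.mem_compl_iff]

theorem Poly.shift {S : Set V} (h : Poly S) (t : V) : Poly (shift t S) := by
  refine ⟨h.fin.image _, Nt_conn t h.con, ?_⟩
  rw [Nt_compl]
  exact Nt_conn t h.cocon

theorem perim_shift (t : V) (S : Set V) : perim (shift t S) = perim S := by
  unfold perim
  have h : {e : V × V | e.1 ∈ shift t S ∧ e.2 ∉ shift t S ∧ |e.1.1 - e.2.1| + |e.1.2 - e.2.2| = 1} =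
      (fun e : V × V => (e.1 + t, e.2 + t)) ''
        {e : V × V | e.1 ∈ S ∧ e.2 ∉ S ∧ |e.1.1 - e.2.1| + |e.1.2 - e.2.2| = 1} := by
    ext e
    simp only [Set.mem_ofPred_eq, Set.mem_image, mem_shift]
    constructor
    · rintro ⟨h1, h2, h3⟩
      refine ⟨(e.1 - t, e.2 - t), ⟨h1, h2, ?_⟩, by simp⟩
      simpa using h3
    · rintro ⟨f, ⟨h1, h2, h3⟩, rfl⟩
      refine ⟨by simpa using h1, by simpa using h2, by simpa using h3⟩
  rw [h]
  apply Set.ncard_image_of_injective
  rintro ⟨a, b⟩ ⟨c, d⟩ h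
  simpa using h

theorem shift_ncard (t : V) (S : Set V) : (shift t S).ncard = S.ncard :=
  Set.ncard_image_of_injective _ (add_left_injective t)

theorem TilesTrans.shift {S : Set V} (h : TilesTrans S) (t : V) : TilesTrans (shift t S) := by
  obtain ⟨T, hT, hu⟩ := h
  refine ⟨T, fun s hs => ?_, hu⟩
  obtain ⟨u, v, rfl⟩ := hT s hs
  refine ⟨u - t.1, v - t.2, ?_⟩
  unfold Pool.Agent.PT.shift
  rw [Set.image_image]
  apply Set.image_congr
  intro p _
  ext <;> simp

theorem TilesTrans.tiles {S : Set V} (h : TilesTrans S) : Tiles S := by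
  obtain ⟨T, hT, hu⟩ := h
  refine ⟨T, fun s hs => ?_, hu⟩
  obtain ⟨u, v, rfl⟩ := hT s hs
  refine ⟨1, 0, 0, 1, u, v, Or.inl ⟨rfl, rfl, by norm_num, by norm_num⟩, ?_⟩
  apply Set.image_congr
  intro p _
  ext <;> simp

theorem exists_normal {S : Set V} (hf : S.Finite) (hne : S.Nonempty) : ∃ t, Normal (shift t S) := by
  obtain ⟨a, ha, ha'⟩ := Set.exists_min_image S (fun p => p.1) hf hne
  obtain ⟨b, hb, hb'⟩ := Set.exists_min_image S (fun p => p.2) hf hne
  refine ⟨(-a.1, -b.2), ?_, ⟨a + (-a.1, -b.2), ⟨a, ha, rfl⟩, by simp⟩, ⟨b + (-a.1, -b.2), ⟨b, hb, rfl⟩, by simp⟩⟩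
  rintro p ⟨q, hq, rfl⟩
  have h1 := ha' q hq
  have h2 := hb' q hq
  simp only [Prod.fst_add, Prod.snd_add]
  constructor <;> linarith

theorem normal_shift {S : Set V} {t : V} (h : Normal S) (h' : Normal (shift t S)) : t = 0 := by
  obtain ⟨h1, ⟨p, hp, hp0⟩, ⟨q, hq, hq0⟩⟩ := h
  obtain ⟨h1', ⟨p', hp', hp0'⟩, ⟨q', hq', hq0'⟩⟩ := h'
  have e1 := (h1' (p + t) ⟨p, hp, rfl⟩).1
  have e2 := (h1' (q + t) ⟨q, hq, rfl⟩).2
  have e3 := (h1 (p' - t) (mem_shift.1 hp')).1
  have e4 := (h1 (q' - t) (mem_shift.1 hq')).2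
  simp only [Prod.fst_add, Prod.snd_add, Prod.fst_sub, Prod.snd_sub] at e1 e2 e3 e4
  ext
  · simp only [Prod.fst_zero]
    linarith
  · simp only [Prod.snd_zero]
    linarith

theorem le_ncard_normal {α : Type} (Good : Set V → Prop) (hG : ∀ t S, Good S → Good (shift t S))
    (hfin : {S | Good S ∧ Normal S}.Finite) (X : Set α) (F : α → Set V)
    (hF : ∀ a ∈ X, Good (F a) ∧ (F a).Finite ∧ (F a).Nonempty)
    (hinj : ∀ a ∈ X, ∀ b ∈ X, ∀ t, shift t (F a) = F b → a = b) :
    X.ncard ≤ {S | Good S ∧ Normal S}.ncard := by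
  classical
  have hch : ∀ a, ∃ t : V, a ∈ X → Normal (shift t (F a)) := by
    intro a
    by_cases ha : a ∈ X
    · obtain ⟨t, ht⟩ := exists_normal (hF a ha).2.1 (hF a ha).2.2
      exact ⟨t, fun _ => ht⟩
    · exact ⟨0, fun h => absurd h ha⟩
  choose t ht using hch
  apply Set.ncard_le_ncard_of_injOn (fun a => shift (t a) (F a)) _ _ hfin
  · intro a ha
    exact ⟨hG _ _ (hF a ha).1, ht a ha⟩
  · intro a ha b hb hab
    have hab' : shift (t a) (F a) = shift (t b) (F b) := hab
    apply hinj a ha b hb (t a - t b)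
    have h1 := congrArg (shift (-t b)) hab'
    rw [shift_shift, shift_shift, add_neg_cancel, shift_zero] at h1
    rw [sub_eq_add_neg]
    exact h1

end Pool.Agent.PT
end

section

/-!
# Translations (see `Nt.lean`)
-/
end
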