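import Pool.Agent.Lib.MP_ed987a_lc.Mg.G007

section

/-!
# TASK PT W3: cs n ≤ 4 * 3 ^ n (easy)

A self-avoiding walk does not go back: if `u ++ [a, b]` is self-avoiding then `b ≠ a + 2` (else `pt _ u.length = pt _ (u.length + 2)` by `vec_back`).
PROOF of `cs_succ_le`. Let `n ≥ 1`. Map a walk `w` of length `n + 1` to the pair of `w.take n` (a self-avoiding walk of length `n`) and the number
`w[n] - w[n-1] ∈ Fin 4`, which is not `2`; this is injective, so `cs (n + 1) ≤ cs n * 3` (the set of `c : Fin 4` with `c ≠ 2` has three elements).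
`cs 0 = 1`, `cs 1 ≤ 4` (there are 4 words of length 1). Induction: `cs (n + 1) ≤ 4 * 3 ^ n`, so `cs n ≤ 4 * 3 ^ n` for all `n`.
-/

set_option autoImplicit false

namespace Pool.Agent.PT

theorem saw_ne_back {u : List (Fin 4)} {a b : Fin 4} (h : Saw (u ++ [a, b])) : b ≠ a + 2 := by
  intro hb
  have hl : (u ++ [a, b]).length = u.length + 2 := by simp
  have h1 : pt (u ++ [a, b]) u.length = pt (u ++ [a, b]) (u.length + 2) := by
    rw [pt_append_right, pt_append_left _ _ le_rfl, pt_length]
    have h2 : pt [a, b] 2 = vec a + vec b := by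
      rw [pt_of_le (by simp), en_cons, en_cons, en_nil, add_zero]
    rw [h2, hb, vec_back, add_zero]
  have h3 := h u.length (by rw [hl]; omega) (u.length + 2) (by rw [hl]) h1
  omega

private theorem W3_split {n : ℕ} (hn : 1 ≤ n) {w : List (Fin 4)} (hw : w.length = n + 1) :
    ∃ (u : List (Fin 4)) (a b : Fin 4), w = u ++ [a, b] ∧ u.length = n - 1 := by
  rcases List.eq_nil_or_concat w with h | ⟨v, b, h⟩
  · rw [h] at hw
    simp at hw
  · rcases List.eq_nil_or_concat v with h' | ⟨u, a, h'⟩
    · rw [h, h'] at hw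
      simp at hw
      omega
    · refine ⟨u, a, b, ?_, ?_⟩
      · rw [h, h']
        simp
      · rw [h, h'] at hw
        simp at hw
        omega

private theorem W3_take {n : ℕ} (hn : 1 ≤ n) {u : List (Fin 4)} {a b : Fin 4} (hu : u.length = n - 1) :
    (u ++ [a, b]).take n = u ++ [a] := by
  have h1 : u ++ [a, b] = (u ++ [a]) ++ [b] := by simp
  have h2 : (u ++ [a]).length = n := by
    simp
    omega
  rw [h1, List.take_append_of_le_length (by rw [h2]), ← h2, List.take_length]

private theorem W3_getn {n : ℕ} (hn : 1 ≤ n) {u : List (Fin 4)} {a b : Fin 4} (hu : u.length = n - 1) :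
    (u ++ [a, b]).getD n 0 = b := by
  have h1 : u ++ [a, b] = (u ++ [a]) ++ [b] := by simp
  have h2 : (u ++ [a]).length = n := by
    simp
    omega
  rw [h1, List.getD_append_right _ _ _ _ (by rw [h2]), h2, Nat.sub_self]
  rfl

private theorem W3_getp {n : ℕ} {u : List (Fin 4)} {a b : Fin 4} (hu : u.length = n - 1) :
    (u ++ [a, b]).getD (n - 1) 0 = a := by
  rw [List.getD_append_right _ _ _ _ (by rw [hu]), hu, Nat.sub_self]
  rfl

theorem cs_succ_le {n : ℕ} (hn : 1 ≤ n) : cs (n + 1) ≤ cs n * 3 := by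
  have h3 : ({c : Fin 4 | c ≠ 2} : Set (Fin 4)).ncard = 3 := by
    rw [Set.ncard_eq_toFinset_card']
    decide
  have key : ({w : List (Fin 4) | w.length = n + 1 ∧ Saw w}).ncard ≤
      (({w : List (Fin 4) | w.length = n ∧ Saw w}) ×ˢ ({c : Fin 4 | c ≠ 2} : Set (Fin 4))).ncard := by
    refine Set.ncard_le_ncard_of_injOn
      (fun w => (w.take n, w.getD n 0 - w.getD (n - 1) 0)) ?_ ?_ ((fin_len n Saw).prod (Set.toFinite _))
    · rintro w ⟨hw, hs⟩
      obtain ⟨u, a, b, rfl, hu⟩ := W3_split hn hw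
      refine Set.mk_mem_prod ⟨?_, hs.take n⟩ ?_
      · rw [List.length_take, hw]
        omega
      · rw [W3_getn hn hu, W3_getp hu]
        intro h
        exact saw_ne_back hs (by rw [← h]; abel)
    · rintro w ⟨hw, hs⟩ w' ⟨hw', hs'⟩ he
      obtain ⟨u, a, b, rfl, hu⟩ := W3_split hn hw
      obtain ⟨u', a', b', rfl, hu'⟩ := W3_split hn hw'
      rw [Prod.mk.injEq] at he
      obtain ⟨h1, h2⟩ := he
      rw [W3_take hn hu, W3_take hn hu'] at h1
      rw [W3_getn hn hu, W3_getn hn hu', W3_getp hu, W3_getp hu'] at h2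
      obtain ⟨h4, h5⟩ := List.append_inj h1 (by rw [hu, hu'])
      rw [List.cons.injEq] at h5
      obtain ⟨h5, _⟩ := h5
      subst h4
      subst h5
      have h6 : b = b' := sub_left_injective h2
      rw [h6]
  rw [Set.ncard_prod, h3] at key
  exact key

private theorem W3_zero : cs 0 ≤ 1 := by
  unfold cs
  have h : {w : List (Fin 4) | w.length = 0 ∧ Saw w} ⊆ {[]} := by
    rintro w ⟨hw, _⟩
    exact List.length_eq_zero_iff.1 hw
  have h2 := Set.ncard_le_ncard h (Set.finite_singleton _)
  rwa [Set.ncard_singleton] at h2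

private theorem W3_one : cs 1 ≤ 4 := by
  unfold cs
  have h : {w : List (Fin 4) | w.length = 1 ∧ Saw w} ⊆ (fun d : Fin 4 => [d]) '' Set.univ := by
    rintro w ⟨hw, _⟩
    obtain ⟨d, rfl⟩ := List.length_eq_one_iff.1 hw
    exact ⟨d, Set.mem_univ _, rfl⟩
  have h2 := Set.ncard_le_ncard h (Set.toFinite _)
  refine h2.trans ((Set.ncard_image_le (Set.toFinite _)).trans ?_)
  rw [Set.ncard_univ, Nat.card_eq_fintype_card, Fintype.card_fin]

private theorem W3_succ (n : ℕ) : cs (n + 1) ≤ 4 * 3 ^ n := by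
  induction n with
  | zero => simpa using W3_one
  | succ n ih =>
    refine (cs_succ_le (by omega)).trans ?_
    rw [pow_succ, ← mul_assoc]
    exact Nat.mul_le_mul_right 3 ih

theorem cs_le (n : ℕ) : cs n ≤ 4 * 3 ^ n := by
  rcases n with _ | n
  · exact W3_zero.trans (by norm_num)
  · refine (W3_succ n).trans ?_
    rw [pow_succ]
    have : 0 < 3 ^ n := by positivity
    nlinarith

end Pool.Agent.PT
end

section

/-!
# TASK PT W7: unfolding a half plane walk (medium)

PROOF of `hsp_zero`. A half plane walk of positive length has `0 < (pt w 1).1`, so for span at most `0` only the empty walk remains; it is a bridge of span `0`. So the set of `hsp n 0` is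
contained in the set of `bsp n 0`.

PROOF of `unfold_half`. Let `w` be a half plane walk with `(pt w i).1 ≤ a + 1` for all `i`, and `(pt w j).1 = a + 1` for some `j`. Let `k ≤ w.length` be the LAST index with first coordinate
`a + 1` (`Nat.findGreatest` or `Finset.max'`). Then `k > 0`; `w.take k` is a bridge of span `a + 1` (`en_take`, `pt_take`), and the reflected rest `rx (w.drop k)` is a half plane walk with positions
`(a + 1) - (pt w (k + i)).1` (`pt_rx`, `pt_drop`), which is `> 0` for `0 < i ≤ length`, and at most `a` for all `i` since `(pt w (k + i)).1 ≥ 1` (`0 < k + i`; for `k + i > w.length` by `pt_min`).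

PROOF of `hsp_succ`. The half plane walks of length `n` and span at most `a + 1` have span at most `a`, or they have the form `u ++ rx v` with `u` a bridge of some length `k ≤ n` and span `a + 1`, `v` a half plane walk of
length `n - k` and span at most `a` (`unfold_half`, `rx_rx`, `List.take_append_drop`). So their set is contained in a union of `n + 2` sets (`Set.ncard_union_le`, `Finset.card_biUnion_le`, `Set.ncard_image_le`, `Set.ncard_prod`).
-/

set_option autoImplicit false

namespace Pool.Agent.PT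

theorem hsp_zero (n : ℕ) : hsp n 0 ≤ bsp n 0 := by
  unfold hsp bsp
  refine Set.ncard_le_ncard ?_ (fin_len n _)
  rintro w ⟨h1, h2, h3⟩
  have h4 : w.length = 0 := by
    by_contra h
    have h5 := h2.2 1 one_pos (by omega)
    have h6 := h3 1
    push_cast at h6
    omega
  have h5 : w = [] := List.length_eq_zero_iff.mp h4
  subst h5
  refine ⟨h1, ⟨h2.1, ?_⟩, ?_⟩
  · intro i hi hi2
    rw [h4] at hi2
    omega
  · rw [en_nil]
    rfl

theorem unfold_half {w : List (Fin 4)} {a : ℕ} (h : Half w) (h1 : ∀ i, (pt w i).1 ≤ (a : ℤ) + 1)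
    (h2 : ∃ j, (pt w j).1 = (a : ℤ) + 1) :
    ∃ k ≤ w.length, (Bridge (w.take k) ∧ (en (w.take k)).1 = (a : ℤ) + 1) ∧
      Half (rx (w.drop k)) ∧ ∀ i, (pt (rx (w.drop k)) i).1 ≤ (a : ℤ) := by
  classical
  obtain ⟨j, hj⟩ := h2
  have hj1 : (pt w (min j w.length)).1 = (a : ℤ) + 1 := by rw [← pt_min]; exact hj
  obtain ⟨k, hkl, hk, hlast⟩ : ∃ k ≤ w.length, (pt w k).1 = (a : ℤ) + 1 ∧
      ∀ i, k < i → i ≤ w.length → (pt w i).1 ≠ (a : ℤ) + 1 := by
    refine ⟨Nat.findGreatest (fun i => (pt w i).1 = (a : ℤ) + 1) w.length, Nat.findGreatest_le _, ?_, ?_⟩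
    · exact Nat.findGreatest_spec (P := fun i => (pt w i).1 = (a : ℤ) + 1) (min_le_right j w.length) hj1
    · intro i hi hi2
      exact Nat.findGreatest_is_greatest (P := fun i => (pt w i).1 = (a : ℤ) + 1) hi hi2
  have hk0 : 0 < k := by
    rcases Nat.eq_zero_or_pos k with h0 | h0
    · exfalso
      rw [h0, pt_zero] at hk
      have : ((0 : V)).1 = 0 := rfl
      rw [this] at hk
      omega
    · exact h0
  have hpt : ∀ i, (pt (rx (w.drop k)) i).1 = (a : ℤ) + 1 - (pt w (k + i)).1 := by
    intro i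
    rw [pt_rx, pt_drop]
    simp only [Prod.fst_sub]
    rw [hk]
    ring
  refine ⟨k, hkl, ⟨⟨h.1.take k, ?_⟩, by rw [en_take, hk]⟩, ⟨(h.1.drop k).rx, ?_⟩, ?_⟩
  · intro i hi hi2
    rw [List.length_take] at hi2
    rw [pt_take w (by omega), en_take, hk]
    exact ⟨h.2 i hi (by omega), h1 i⟩
  · intro i hi hi2
    rw [length_rx, List.length_drop] at hi2
    rw [hpt]
    have h5 := h1 (k + i)
    have h6 := hlast (k + i) (by omega) (by omega)
    omega
  · intro i
    rw [hpt]
    have h5 : 0 < (pt w (k + i)).1 := by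
      rw [pt_min]
      exact h.2 _ (by omega) (by omega)
    omega

theorem hsp_succ (n a : ℕ) :
    hsp n (a + 1) ≤ hsp n a + ∑ k ∈ Finset.range (n + 1), bsp k (a + 1) * hsp (n - k) a := by
  classical
  set A : ℕ → Set (List (Fin 4)) := fun k => {w | w.length = k ∧ Bridge w ∧ (en w).1 = ((a + 1 : ℕ) : ℤ)} with hA
  set B : ℕ → Set (List (Fin 4)) := fun m => {w | w.length = m ∧ Half w ∧ ∀ i, (pt w i).1 ≤ (a : ℤ)} with hB
  set F : ℕ → Set (List (Fin 4)) :=
    fun k => (fun p : List (Fin 4) × List (Fin 4) => p.1 ++ rx p.2) '' (A k ×ˢ B (n - k)) with hF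
  have finA : ∀ k, (A k).Finite := fun k => fin_len k _
  have finB : ∀ k, (B k).Finite := fun k => fin_len k _
  have finF : ∀ k, (F k).Finite := fun k => ((finA k).prod (finB (n - k))).image _
  have hsub : {w : List (Fin 4) | w.length = n ∧ Half w ∧ ∀ i, (pt w i).1 ≤ ((a + 1 : ℕ) : ℤ)} ⊆
      B n ∪ ⋃ k ∈ Finset.range (n + 1), F k := by
    rintro w ⟨h1, h2, h3⟩
    by_cases h4 : ∃ j, (pt w j).1 = (a : ℤ) + 1
    · right
      obtain ⟨k, hk, ⟨hb, he⟩, hh, hle⟩ := unfold_half h2 (fun i => by have := h3 i; push_cast at this; exact this) h4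
      simp only [Set.mem_iUnion, Finset.mem_range]
      refine ⟨k, by omega, ⟨(w.take k, rx (w.drop k)), ⟨⟨?_, hb, ?_⟩, ⟨?_, hh, hle⟩⟩, ?_⟩⟩
      · rw [List.length_take]
        omega
      · rw [he]
        push_cast
        ring
      · rw [length_rx, List.length_drop]
        omega
      · simp only
        rw [rx_rx, List.take_append_drop]
    · left
      refine ⟨h1, h2, fun i => ?_⟩
      have h5 := h3 i
      have h6 : (pt w i).1 ≠ (a : ℤ) + 1 := fun h => h4 ⟨i, h⟩
      push_cast at h5
      omega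
  have finU : (B n ∪ ⋃ k ∈ Finset.range (n + 1), F k).Finite := by
    refine (finB n).union ?_
    exact Set.Finite.biUnion (Finset.range (n + 1)).finite_toSet (fun k _ => finF k)
  calc hsp n (a + 1) ≤ (B n ∪ ⋃ k ∈ Finset.range (n + 1), F k).ncard := Set.ncard_le_ncard hsub finU
    _ ≤ (B n).ncard + (⋃ k ∈ Finset.range (n + 1), F k).ncard := Set.ncard_union_le _ _
    _ ≤ hsp n a + ∑ k ∈ Finset.range (n + 1), (F k).ncard := by
        refine Nat.add_le_add le_rfl ?_
        exact Finset.set_ncard_biUnion_le _ _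
    _ ≤ hsp n a + ∑ k ∈ Finset.range (n + 1), bsp k (a + 1) * hsp (n - k) a := by
        refine Nat.add_le_add le_rfl (Finset.sum_le_sum fun k _ => ?_)
        refine le_trans (Set.ncard_image_le ((finA k).prod (finB (n - k)))) ?_
        rw [Set.ncard_prod]
        exact le_rfl

end Pool.Agent.PT
end
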