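import Pool.Agent.Lib.MP_ed987a_lc.Mg.G007
import Pool.Agent.Lib.MP_ed987a_lc.PT.MDefs
import Pool.Agent.Lib.MP_ed987a_lc.PT.M1

section

/-!
# TASK PT W4: bridges: concatenation, lower bound (easy)

PROOF of `Bridge.append`. The positions of `u ++ v`: `pt u i` for `i ≤ u.length`, and `en u + pt v j` for `i = u.length + j`. The former have first
coordinate at most `(en u).1` (it is `≥ 0`, and `0` at `i = 0`), the latter for `j > 0` have first coordinate `> (en u).1` and `≤ (en u).1 + (en v).1`. So the positions are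
different: both `≤ u.length` (`Saw u`), both `≥ u.length` (`Saw v`), or separated by the first coordinate. Note `0 ≤ (en v).1` also for `v = []`.
`bs_mul`: the map `(u, v) ↦ u ++ v` from pairs of bridges of lengths `m`, `n` is injective (`List.append_inj`).
`bs_le_cs`, `bs_le_hs`, `hs_le_cs`: subsets. `bs_pos`: `List.replicate n 0`.
PROOF of `two_pow_le_bs`. For `f : Fin n → Fin 2` take the word `0 :: List.ofFn (fun i => if f i = 0 then 0 else 1)`. All words in the letters `0`, `1` (east, north) are self-avoiding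
(the sum of the coordinates of `pt w i` is `i`), the first coordinate is nondecreasing, and after the first step east it is positive. (Or by induction:
`bs (n + 1) ≥ 2 * bs n` for `n ≥ 1` by appending a letter, east always, or north... appending north needs care; the direct proof is easier.)
-/

set_option autoImplicit false

namespace Pool.Agent.PT

theorem Bridge.en_nonneg {w : List (Fin 4)} (h : Bridge w) : 0 ≤ (en w).1 := by
  rcases Nat.eq_zero_or_pos w.length with h0 | h0
  · rw [List.length_eq_zero_iff.1 h0, en_nil]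
    exact le_rfl
  · have h1 := h.2 w.length h0 le_rfl
    exact (h1.1.trans_le h1.2).le

private theorem W4_range {w : List (Fin 4)} (h : Bridge w) {i : ℕ} (hi : i ≤ w.length) :
    0 ≤ (pt w i).1 ∧ (pt w i).1 ≤ (en w).1 := by
  rcases Nat.eq_zero_or_pos i with h0 | h0
  · rw [h0, pt_zero]
    exact ⟨le_rfl, h.en_nonneg⟩
  · have h1 := h.2 i h0 hi
    exact ⟨h1.1.le, h1.2⟩

theorem Bridge.append {u v : List (Fin 4)} (hu : Bridge u) (hv : Bridge v) : Bridge (u ++ v) := by
  have hlen : (u ++ v).length = u.length + v.length := List.length_append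
  refine ⟨?_, ?_⟩
  · intro i hi j hj hij
    rw [hlen] at hi hj
    rcases le_or_gt i u.length with h1 | h1
    · rcases le_or_gt j u.length with h2 | h2
      · rw [pt_append_left u v h1, pt_append_left u v h2] at hij
        exact hu.1 i h1 j h2 hij
      · exfalso
        obtain ⟨j', rfl⟩ : ∃ j', j = u.length + j' := ⟨j - u.length, by omega⟩
        rw [pt_append_left u v h1, pt_append_right u v j'] at hij
        have h3 := (W4_range hu h1).2
        have h4 := (hv.2 j' (by omega) (by omega)).1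
        have h5 : (pt u i).1 = (en u).1 + (pt v j').1 := congrArg Prod.fst hij
        omega
    · obtain ⟨i', rfl⟩ : ∃ i', i = u.length + i' := ⟨i - u.length, by omega⟩
      rcases le_or_gt j u.length with h2 | h2
      · exfalso
        rw [pt_append_left u v h2, pt_append_right u v i'] at hij
        have h3 := (W4_range hu h2).2
        have h4 := (hv.2 i' (by omega) (by omega)).1
        have h5 : (en u).1 + (pt v i').1 = (pt u j).1 := congrArg Prod.fst hij
        omega
      · obtain ⟨j', rfl⟩ : ∃ j', j = u.length + j' := ⟨j - u.length, by omega⟩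
        rw [pt_append_right u v i', pt_append_right u v j'] at hij
        rw [hv.1 i' (by omega) j' (by omega) (add_left_cancel hij)]
  · intro i h0 hi
    rw [hlen] at hi
    have he : (en (u ++ v)).1 = (en u).1 + (en v).1 := by rw [en_append]; rfl
    have h6 := hu.en_nonneg
    have h7 := hv.en_nonneg
    rcases le_or_gt i u.length with h1 | h1
    · rw [pt_append_left u v h1, he]
      have h2 := hu.2 i h0 h1
      exact ⟨h2.1, by omega⟩
    · obtain ⟨i', rfl⟩ : ∃ i', i = u.length + i' := ⟨i - u.length, by omega⟩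
      rw [pt_append_right u v i', he]
      have h2 := hv.2 i' (by omega) (by omega)
      have h3 : (en u + pt v i').1 = (en u).1 + (pt v i').1 := rfl
      rw [h3]
      exact ⟨by omega, by omega⟩

theorem Bridge.ry {w : List (Fin 4)} (h : Bridge w) : Bridge (ry w) := by
  refine ⟨Saw.ry h.1, ?_⟩
  intro i h0 hi
  rw [length_ry] at hi
  rw [pt_ry, en_ry]
  exact h.2 i h0 hi

theorem bs_mul (m n : ℕ) : bs m * bs n ≤ bs (m + n) := by
  unfold bs
  rw [← Set.ncard_prod]
  refine Set.ncard_le_ncard_of_injOn (fun p : List (Fin 4) × List (Fin 4) => p.1 ++ p.2) ?_ ?_ (fin_len _ _)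
  · rintro ⟨u, v⟩ ⟨⟨h1, h2⟩, h3, h4⟩
    refine ⟨?_, h2.append h4⟩
    show (u ++ v).length = m + n
    rw [List.length_append]
    exact congrArg₂ _ h1 h3
  · rintro ⟨u, v⟩ ⟨⟨h1, _⟩, _, _⟩ ⟨u', v'⟩ ⟨⟨h1', _⟩, _, _⟩ h
    have h5 : u.length = u'.length := h1.trans h1'.symm
    have h6 := List.append_inj h h5
    exact Prod.ext h6.1 h6.2

theorem bs_le_cs (n : ℕ) : bs n ≤ cs n := by
  unfold bs cs
  exact Set.ncard_le_ncard (fun w hw => ⟨hw.1, hw.2.1⟩) (fin_len _ _)

/-- words in the letters east and north -/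
private theorem W4_sum {w : List (Fin 4)} (h : ∀ d ∈ w, d = 0 ∨ d = 1) :
    ∀ i ≤ w.length, (pt w i).1 + (pt w i).2 = (i : ℤ) := by
  induction w with
  | nil =>
    intro i hi
    have h0 : i = 0 := by simpa using hi
    rw [h0, pt_zero]
    rfl
  | cons d w ih =>
    intro i hi
    cases i with
    | zero => rw [pt_zero]; rfl
    | succ i =>
      rw [pt_cons_succ]
      have h1 := ih (fun e he => h e (List.mem_cons_of_mem _ he)) i (by simpa using hi)
      have h2 : (vec d).1 + (vec d).2 = 1 := by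
        rcases h d List.mem_cons_self with rfl | rfl <;> rfl
      have h3 : (vec d + pt w i).1 = (vec d).1 + (pt w i).1 := rfl
      have h4 : (vec d + pt w i).2 = (vec d).2 + (pt w i).2 := rfl
      rw [h3, h4]
      push_cast
      omega

private theorem W4_mono {w : List (Fin 4)} (h : ∀ d ∈ w, d = 0 ∨ d = 1) :
    ∀ i, 0 ≤ (pt w i).1 ∧ (pt w i).1 ≤ (en w).1 := by
  induction w with
  | nil =>
    intro i
    rw [pt_of_le (Nat.zero_le i), en_nil]
    exact ⟨le_rfl, le_rfl⟩
  | cons d w ih =>
    have ih' := ih (fun e he => h e (List.mem_cons_of_mem _ he))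
    have h2 : 0 ≤ (vec d).1 := by
      rcases h d List.mem_cons_self with rfl | rfl <;> decide
    have he : (en (d :: w)).1 = (vec d).1 + (en w).1 := by rw [en_cons]; rfl
    intro i
    cases i with
    | zero =>
      rw [pt_zero, he]
      have h3 := ih' 0
      refine ⟨le_rfl, ?_⟩
      show (0 : ℤ) ≤ _
      omega
    | succ i =>
      rw [pt_cons_succ, he]
      have h3 := ih' i
      have h4 : (vec d + pt w i).1 = (vec d).1 + (pt w i).1 := rfl
      rw [h4]
      exact ⟨by omega, by omega⟩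

private theorem W4_bridge {w : List (Fin 4)} (h : ∀ d ∈ w, d = 0 ∨ d = 1) : Bridge (0 :: w) := by
  have h' : ∀ d ∈ (0 : Fin 4) :: w, d = 0 ∨ d = 1 := by
    intro d hd
    rcases List.mem_cons.1 hd with rfl | hd
    · exact Or.inl rfl
    · exact h d hd
  refine ⟨?_, ?_⟩
  · intro i hi j hj hij
    have h1 := W4_sum h' i hi
    have h2 := W4_sum h' j hj
    rw [hij, h2] at h1
    exact_mod_cast h1.symm
  · intro i h0 hi
    refine ⟨?_, (W4_mono h' i).2⟩
    obtain ⟨j, rfl⟩ : ∃ j, i = j + 1 := ⟨i - 1, by omega⟩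
    rw [pt_cons_succ]
    have h1 := (W4_mono h j).1
    have h2 : (vec 0 + pt w j).1 = 1 + (pt w j).1 := rfl
    rw [h2]
    omega

private theorem W4_nil : Bridge [] := by
  refine ⟨?_, ?_⟩
  · intro i hi j hj _
    have h1 : i = 0 := by simpa using hi
    have h2 : j = 0 := by simpa using hj
    rw [h1, h2]
  · intro i h0 hi
    exact absurd hi (by simpa using h0.ne')

theorem bs_pos (n : ℕ) : 0 < bs n := by
  unfold bs
  rw [Set.ncard_pos (fin_len _ _)]
  cases n with
  | zero => exact ⟨[], rfl, W4_nil⟩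
  | succ n =>
    refine ⟨0 :: List.replicate n 0, ?_, W4_bridge ?_⟩
    · rw [List.length_cons, List.length_replicate]
    · intro d hd
      exact Or.inl (List.eq_of_mem_replicate hd)

theorem two_pow_le_bs (n : ℕ) : 2 ^ n ≤ bs (n + 1) := by
  have h1 : (Set.univ : Set (Fin n → Bool)).ncard = 2 ^ n := by
    rw [Set.ncard_univ, Nat.card_eq_fintype_card, Fintype.card_fun, Fintype.card_bool, Fintype.card_fin]
  rw [← h1]
  unfold bs
  refine Set.ncard_le_ncard_of_injOn
    (fun f : Fin n → Bool => (0 : Fin 4) :: List.ofFn (fun i => if f i then (0 : Fin 4) else 1)) ?_ ?_ (fin_len _ _)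
  · intro f _
    refine ⟨?_, W4_bridge ?_⟩
    · show ((0 : Fin 4) :: List.ofFn (fun i => if f i then (0 : Fin 4) else 1)).length = n + 1
      rw [List.length_cons, List.length_ofFn]
    · intro d hd
      rw [List.mem_ofFn] at hd
      obtain ⟨i, rfl⟩ := hd
      by_cases hf : f i = true
      · rw [if_pos hf]
        exact Or.inl rfl
      · rw [if_neg hf]
        exact Or.inr rfl
  · intro f _ g _ h
    have h2 : List.ofFn (fun i => if f i then (0 : Fin 4) else 1) =
        List.ofFn (fun i => if g i then (0 : Fin 4) else 1) := (List.cons.inj h).2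
    have h3 := List.ofFn_injective h2
    funext i
    have h4 : (if f i then (0 : Fin 4) else 1) = if g i then (0 : Fin 4) else 1 := congrFun h3 i
    cases hf : f i <;> cases hg : g i <;> rw [hf, hg] at h4
    · exact absurd h4 (by decide)
    · exact absurd h4 (by decide)

end Pool.Agent.PT
end

section

/-!
# TASK T5: the tiles which meet a box

(`exists_diam`) `S` is finite; a motion maps the coordinate differences `(x, y)` to `(± x, ± y)` or `(± y, ± x)` (`mot_iso`); `D` = maximum of all
`|c.1 - c'.1|`, `|c.2 - c'.2|` over `S`.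
(`exists_family`) `F` = the set of the tiles of the cells of the box `[-R, R]^2` (image of the finite box under the map which sends a cell to its tile).
Every tile has `S.ncard` cells (`cell_inj`), and the box with `(2 R + 1)^2` cells is covered by `F`.
-/

set_option autoImplicit false

namespace Pool.Agent.PT

variable {S : Set V} {T : Set (Set V)}

theorem Til.finite (hT : Til S T) (hf : S.Finite) {t : Set V} (ht : t ∈ T) : t.Finite ∧ t.ncard = S.ncard := by
  obtain ⟨m, rfl⟩ := hT.img t ht
  exact ⟨hf.image _, Set.ncard_image_of_injective S (cell_inj m)⟩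

theorem Til.con (hT : Til S T) (hc : (gridG.induce S).Connected) {t : Set V} (ht : t ∈ T) :
    (gridG.induce t).Connected := by
  obtain ⟨m, rfl⟩ := hT.img t ht
  let e : gridG.induce S ≃g gridG.induce (m.cell '' S) :=
    { toEquiv := Equiv.Set.image m.cell S (cell_inj m)
      map_rel_iff' := by
        intro a b
        change gridG.Adj (m.cell a) (m.cell b) ↔ gridG.Adj a b
        rw [gridG_adj, gridG_adj]
        exact adj_cell m a b }
  exact e.connected_iff.1 hc

theorem exists_diam (hT : Til S T) (hf : S.Finite) :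
    ∃ D : ℕ, ∀ t ∈ T, ∀ c ∈ t, ∀ c' ∈ t, |c.1 - c'.1| ≤ D ∧ |c.2 - c'.2| ≤ D := by
  have hB : ∃ B : ℕ, ∀ c ∈ S, |c.1| ≤ B ∧ |c.2| ≤ B := by
    refine ⟨hf.toFinset.sup (fun c => c.1.natAbs + c.2.natAbs), fun c hc => ?_⟩
    have h1 : c.1.natAbs + c.2.natAbs ≤ hf.toFinset.sup (fun c => c.1.natAbs + c.2.natAbs) :=
      Finset.le_sup (f := fun c : V => c.1.natAbs + c.2.natAbs) (hf.mem_toFinset.2 hc)
    constructor
    · rw [Int.abs_eq_natAbs]
      exact_mod_cast (Nat.le_add_right _ _).trans h1
    · rw [Int.abs_eq_natAbs]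
      exact_mod_cast (Nat.le_add_left _ _).trans h1
  obtain ⟨B, hB⟩ := hB
  refine ⟨2 * B, ?_⟩
  rintro t ht c hc c' hc'
  obtain ⟨m, rfl⟩ := hT.img t ht
  obtain ⟨p, hp, rfl⟩ := hc
  obtain ⟨p', hp', rfl⟩ := hc'
  obtain ⟨a, b, c, d, u, v, ho, hm⟩ := mot_iso m
  rw [hm p, hm p']
  obtain ⟨h1, h2⟩ := hB p hp
  obtain ⟨h3, h4⟩ := hB p' hp'
  have e1 : |p.1 - p'.1| ≤ 2 * (B : ℤ) := (abs_sub _ _).trans (by linarith)
  have e2 : |p.2 - p'.2| ≤ 2 * (B : ℤ) := (abs_sub _ _).trans (by linarith)
  have hsq : ∀ x : ℤ, x ^ 2 = 1 → |x| = 1 := by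
    intro x hx
    have h2 : |x| ^ 2 = 1 := by rw [sq_abs]; exact hx
    have h0 := abs_nonneg x
    nlinarith
  push_cast
  rcases ho with ⟨rfl, rfl, ha, hd⟩ | ⟨rfl, rfl, hb, hc⟩
  · constructor
    · have : (a * p.1 + 0 * p.2 + u) - (a * p'.1 + 0 * p'.2 + u) = a * (p.1 - p'.1) := by ring
      rw [this, abs_mul, hsq a ha, one_mul]
      exact e1
    · have : (0 * p.1 + d * p.2 + v) - (0 * p'.1 + d * p'.2 + v) = d * (p.2 - p'.2) := by ring
      rw [this, abs_mul, hsq d hd, one_mul]
      exact e2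
  · constructor
    · have : (0 * p.1 + b * p.2 + u) - (0 * p'.1 + b * p'.2 + u) = b * (p.2 - p'.2) := by ring
      rw [this, abs_mul, hsq b hb, one_mul]
      exact e2
    · have : (c * p.1 + 0 * p.2 + v) - (c * p'.1 + 0 * p'.2 + v) = c * (p.1 - p'.1) := by ring
      rw [this, abs_mul, hsq c hc, one_mul]
      exact e1

theorem exists_family (hT : Til S T) (hf : S.Finite) {D : ℕ}
    (hD : ∀ t ∈ T, ∀ c ∈ t, ∀ c' ∈ t, |c.1 - c'.1| ≤ D ∧ |c.2 - c'.2| ≤ D) (R : ℕ) :
    ∃ F : Finset (Set V), (∀ t ∈ F, t ∈ T ∧ ∀ c ∈ t, |c.1| ≤ R + D ∧ |c.2| ≤ R + D) ∧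
      (∀ c : V, |c.1| ≤ R → |c.2| ≤ R → ∃ t ∈ F, c ∈ t) ∧ (2 * R + 1) ^ 2 ≤ S.ncard * F.card := by
  classical
  have hex : ∀ c : V, ∃ t : Set V, t ∈ T ∧ c ∈ t := fun c => (hT.uni c).exists
  choose τ hτT hτc using hex
  let X : Finset V := Finset.Icc (-(R : ℤ)) R ×ˢ Finset.Icc (-(R : ℤ)) R
  have hX : ∀ c : V, c ∈ X ↔ |c.1| ≤ R ∧ |c.2| ≤ R := by
    intro c
    simp only [X, Finset.mem_product, Finset.mem_Icc, abs_le]
  have hXc : X.card = (2 * R + 1) ^ 2 := by
    have h1 : (Finset.Icc (-(R : ℤ)) R).card = 2 * R + 1 := by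
      rw [Int.card_Icc]
      omega
    rw [Finset.card_product, h1, sq]
  refine ⟨X.image τ, ?_, ?_, ?_⟩
  · intro t ht
    obtain ⟨c0, hc0, rfl⟩ := Finset.mem_image.1 ht
    refine ⟨hτT c0, fun c hc => ?_⟩
    obtain ⟨h1, h2⟩ := (hX c0).1 hc0
    obtain ⟨h3, h4⟩ := hD (τ c0) (hτT c0) c hc c0 (hτc c0)
    rw [abs_le] at *
    constructor
    · omega
    · rw [abs_le] at *
      omega
  · intro c h1 h2
    exact ⟨τ c, Finset.mem_image_of_mem τ ((hX c).2 ⟨h1, h2⟩), hτc c⟩
  · rw [← hXc]
    refine Finset.card_le_mul_card_image X S.ncard fun t ht => ?_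
    obtain ⟨c0, hc0, rfl⟩ := Finset.mem_image.1 ht
    obtain ⟨hfin, hcard⟩ := hT.finite hf (hτT c0)
    rw [← hcard, ← Set.ncard_coe_finset]
    refine Set.ncard_le_ncard ?_ hfin
    intro c hc
    have h1 := (Finset.mem_filter.1 (Finset.mem_coe.1 hc)).2
    rw [← h1]
    exact hτc c

end Pool.Agent.PT
end
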