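import Pool.Agent.Lib.MP_ed987a_lc.Mg.G007
import Pool.Agent.Lib.MP_ed987a_lc.Mg.G008
import Pool.Agent.Lib.MP_ed987a_lc.Mg.G018

section

/-!
# TASK PT W5: a walk is cut into two half plane walks (medium)

PROOF of `exists_cut`. Let `w` be a self-avoiding walk of length `n` and `i ≤ n` the LAST index at which the first coordinate of `pt w i` is minimal among the indices
`≤ n` (`Finset.exists_min_image` on `Finset.range (n + 1)`, then the largest such index: `Finset.max'`, or minimise the pair `(x, -i)` lexicographically, or well-founded argument).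
Then `(pt w i).1 ≤ (pt w j).1` for `j ≤ n` and `(pt w i).1 < (pt w j).1` for `i < j ≤ n`.
`Half (w.drop i)`: `pt_drop`, `Saw.drop`.
`Half (0 :: rv (w.take i))`: the positions are `0` and, for `j + 1`, `(1, 0) + pt (rv (w.take i)) j = (1, 0) + pt w (i - j) - pt w i` (`pt_cons_succ`, `pt_rv`, `en_take`),
whose first coordinate is `≥ 1 > 0`; self-avoiding: two positions `j + 1`, `k + 1` by `Saw.rv (Saw.take ..)`, `0` and `j + 1` by the first coordinate.

PROOF of `cs_le_sum`. The map `w ↦ (i, w.drop i, 0 :: rv (w.take i))` is injective on the self-avoiding walks of length `n`, as `w = w.take i ++ w.drop i` and `rv (rv u) = u`.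
So `cs n ≤ ∑ i ≤ n, hs (n - i) * hs (i + 1)`: the set of the walks is contained in the union over `i ∈ range (n + 1)` of the images of
`{v | v.length = n - i ∧ Half v} ×ˢ {u | u.length = i + 1 ∧ Half u}` under `(v, u) ↦ rv u.tail ++ v` (`Set.ncard_iUnion_le..`/`Finset.card_biUnion_le`, `Set.ncard_image_le`, `Set.ncard_prod`).
-/

set_option autoImplicit false

namespace Pool.Agent.PT

theorem exists_cut {w : List (Fin 4)} (h : Saw w) :
    ∃ i ≤ w.length, Half (w.drop i) ∧ Half (0 :: rv (w.take i)) := by
  classical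
  obtain ⟨i0, hi0, hmin⟩ := Finset.exists_min_image (Finset.range (w.length + 1))
    (fun i => (pt w i).1) ⟨0, by simp⟩
  set T := (Finset.range (w.length + 1)).filter fun j => (pt w j).1 = (pt w i0).1 with hT
  have hTne : T.Nonempty := ⟨i0, by rw [hT, Finset.mem_filter]; exact ⟨hi0, rfl⟩⟩
  have hmem := T.max'_mem hTne
  have hmax : ∀ j ∈ T, j ≤ T.max' hTne := fun j hj => T.le_max' j hj
  generalize T.max' hTne = i at hmem hmax
  rw [hT, Finset.mem_filter, Finset.mem_range] at hmem
  obtain ⟨hi1, hi2⟩ := hmem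
  have hi : i ≤ w.length := by omega
  have hle : ∀ j ≤ w.length, (pt w i).1 ≤ (pt w j).1 := by
    intro j hj
    rw [hi2]
    exact hmin j (Finset.mem_range.2 (by omega))
  have hlt : ∀ j ≤ w.length, i < j → (pt w i).1 < (pt w j).1 := by
    intro j hj hij
    rcases lt_or_eq_of_le (hle j hj) with h1 | h1
    · exact h1
    · exfalso
      have h2 : j ∈ T := by
        rw [hT, Finset.mem_filter, Finset.mem_range]
        exact ⟨by omega, by rw [← h1, hi2]⟩
      have h3 := hmax j h2
      omega
  refine ⟨i, hi, ⟨h.drop i, ?_⟩, ⟨?_, ?_⟩⟩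
  · intro j hj1 hj2
    rw [List.length_drop] at hj2
    rw [pt_drop, Prod.fst_sub]
    have h1 := hlt (i + j) (by omega) (by omega)
    omega
  · have hlen : (rv (w.take i)).length = i := by
      rw [length_rv, List.length_take, min_eq_left hi]
    have hsaw : Saw (rv (w.take i)) := (h.take i).rv
    have hpos : ∀ j ≤ i, 0 < (pt (0 :: rv (w.take i)) (j + 1)).1 := by
      intro j hj
      rw [pt_cons_succ, pt_rv _ (by rw [List.length_take, min_eq_left hi]; exact hj), en_take,
        List.length_take, min_eq_left hi, pt_take _ (by omega)]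
      have h1 := hle (i - j) (by omega)
      have h2 : (vec 0).1 = 1 := rfl
      rw [Prod.fst_add, Prod.fst_sub, h2]
      omega
    intro a ha b hb hab
    rw [List.length_cons, hlen] at ha hb
    rcases a with _ | a
    · rcases b with _ | b
      · rfl
      · exfalso
        have h1 := hpos b (by omega)
        rw [← hab, pt_zero] at h1
        simp at h1
    · rcases b with _ | b
      · exfalso
        have h1 := hpos a (by omega)
        rw [hab, pt_zero] at h1
        simp at h1
      · rw [pt_cons_succ, pt_cons_succ] at hab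
        have h1 := hsaw a (by omega) b (by omega) (add_left_cancel hab)
        rw [h1]
  · intro j hj1 hj2
    have hlen : (rv (w.take i)).length = i := by
      rw [length_rv, List.length_take, min_eq_left hi]
    rw [List.length_cons, hlen] at hj2
    obtain ⟨k, rfl⟩ := Nat.exists_eq_add_of_le' hj1
    rw [pt_cons_succ, pt_rv _ (by rw [List.length_take, min_eq_left hi]; omega), en_take,
      List.length_take, min_eq_left hi, pt_take _ (by omega)]
    have h1 := hle (i - k) (by omega)
    have h2 : (vec 0).1 = 1 := rfl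
    rw [Prod.fst_add, Prod.fst_sub, h2]
    omega

theorem cs_le_sum (n : ℕ) : cs n ≤ ∑ i ∈ Finset.range (n + 1), hs (n - i) * hs (i + 1) := by
  classical
  have hA : ∀ i, {v : List (Fin 4) | v.length = n - i ∧ Half v}.Finite := fun i => fin_len _ _
  have hB : ∀ i, {u : List (Fin 4) | u.length = i + 1 ∧ Half u}.Finite := fun i => fin_len _ _
  let F : List (Fin 4) × List (Fin 4) → List (Fin 4) := fun q => rv q.2.tail ++ q.1
  let U : Finset (List (Fin 4)) := (Finset.range (n + 1)).biUnion fun i =>
    (((hA i).toFinset ×ˢ (hB i).toFinset).image F)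
  have hsub : {w : List (Fin 4) | w.length = n ∧ Saw w} ⊆ (U : Set (List (Fin 4))) := by
    rintro w ⟨hw1, hw2⟩
    obtain ⟨i, hi, h1, h2⟩ := exists_cut hw2
    show w ∈ U
    rw [Finset.mem_biUnion]
    refine ⟨i, Finset.mem_range.2 (by omega), ?_⟩
    rw [Finset.mem_image]
    refine ⟨(w.drop i, 0 :: rv (w.take i)), ?_, ?_⟩
    · rw [Finset.mem_product, Set.Finite.mem_toFinset, Set.Finite.mem_toFinset]
      refine ⟨⟨by rw [List.length_drop, hw1], h1⟩, ⟨?_, h2⟩⟩
      rw [List.length_cons, length_rv, List.length_take, min_eq_left hi]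
    · show rv (0 :: rv (w.take i)).tail ++ w.drop i = w
      rw [List.tail_cons, rv_rv, List.take_append_drop]
  have h3 : cs n ≤ U.card := by
    unfold cs
    rw [← Set.ncard_coe_finset U]
    exact Set.ncard_le_ncard hsub U.finite_toSet
  refine h3.trans (Finset.card_biUnion_le.trans (Finset.sum_le_sum fun i _ => ?_))
  refine Finset.card_image_le.trans ?_
  rw [Finset.card_product]
  unfold hs
  rw [Set.ncard_eq_toFinset_card _ (hA i), Set.ncard_eq_toFinset_card _ (hB i)]

end Pool.Agent.PT
end

section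

/-!
# TASK PT W6: sums over bridges of given spans (medium)

PROOF of `bsp_conv`. To `k ≤ n`, a bridge `u` of length `k` and span `a`, and a bridge `v` of length `n - k` and span `s` belongs the bridge `u ++ v` of length `n` and
span `a + s` (`Bridge.append`, `en_append`). The triple `(k, u, v)` is determined by `u ++ v`: `k` is the largest index `i ≤ n` at which the first coordinate of `pt (u ++ v) i` is `≤ a`
(it is `a` at `k`, and `> a` later, as `v` is a bridge); then `List.append_inj`. So the left side, the cardinality of a finite disjoint union (`Finset.sum` of products of `ncard`), is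
at most the right side. Formally e.g.: the sets `Im k` = image of the pairs under `u ++ v` are pairwise disjoint subsets of the right side (`Set.ncard_iUnion..` or `Finset.card_biUnion` after
`Set.Finite.toFinset`), and `Im k` has `bsp k a * bsp (n - k) s` elements (`Set.ncard_image_of_injOn`, `Set.ncard_prod`).

`bsp_zero`: the first coordinate of the end point of a walk of length `n` is at most `n` (`pt_succ`, each step changes it by at most `1`).
`bsp_le_bs`: subset. `hs_le_hsp`: `(pt w i).1 ≤ n` for all `i` (`pt_min`).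
-/

set_option autoImplicit false

namespace Pool.Agent.PT

theorem pt_fst_le (w : List (Fin 4)) (i : ℕ) : |(pt w i).1| ≤ (w.length : ℤ) := by
  induction w generalizing i with
  | nil =>
    have h : pt [] i = 0 := by
      unfold pt
      simp
    rw [h]
    simp
  | cons d w ih =>
    cases i with
    | zero =>
      rw [pt_zero]
      simp only [Prod.fst_zero, abs_zero]
      exact Int.natCast_nonneg _
    | succ i =>
      rw [pt_cons_succ, Prod.fst_add, List.length_cons]
      have h1 : |(vec d).1| ≤ 1 := by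
        revert d
        decide
      have h2 := ih i
      have h3 := abs_add_le (vec d).1 (pt w i).1
      push_cast
      linarith

private theorem W6_lt {a k k' : ℕ} {u v u' v' : List (Fin 4)} (hu : u.length = k) (hv : Bridge v)
    (hua : (en u).1 = (a : ℤ)) (hu' : u'.length = k') (hua' : (en u').1 = (a : ℤ))
    (h : u ++ v = u' ++ v') : ¬ k < k' := by
  intro hk
  have hlen : k' ≤ k + v.length := by
    have := congrArg List.length h
    rw [List.length_append, List.length_append] at this
    omega
  have h1 : pt (u ++ v) k' = en u' := by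
    rw [h, pt_append_left u' v' (by omega), ← hu', pt_length]
  have h2 : pt (u ++ v) k' = en u + pt v (k' - k) := by
    have : k' = u.length + (k' - k) := by omega
    conv_lhs => rw [this]
    rw [pt_append_right]
  have h3 := hv.2 (k' - k) (by omega) (by omega)
  have h4 : (en u').1 = (en u).1 + (pt v (k' - k)).1 := by
    rw [← Prod.fst_add, ← h2, h1]
  rw [hua, hua'] at h4
  linarith [h3.1]

theorem bsp_conv (n a s : ℕ) : ∑ k ∈ Finset.range (n + 1), bsp k a * bsp (n - k) s ≤ bsp n (a + s) := by
  classical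
  have hfin : ∀ m b : ℕ, {w : List (Fin 4) | w.length = m ∧ Bridge w ∧ (en w).1 = (b : ℤ)}.Finite :=
    fun m b => fin_len m _
  have hcard : ∀ m b : ℕ, bsp m b = (hfin m b).toFinset.card := fun m b =>
    Set.ncard_eq_toFinset_card _ (hfin m b)
  have hmem : ∀ (m b : ℕ) (w : List (Fin 4)), w ∈ (hfin m b).toFinset ↔
      w.length = m ∧ Bridge w ∧ (en w).1 = (b : ℤ) := by
    intro m b w
    rw [Set.Finite.mem_toFinset]
    exact Iff.rfl
  have hsum : ∑ k ∈ Finset.range (n + 1), bsp k a * bsp (n - k) s =
      ((Finset.range (n + 1)).sigma fun k =>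
        (hfin k a).toFinset ×ˢ (hfin (n - k) s).toFinset).card := by
    rw [Finset.card_sigma]
    refine Finset.sum_congr rfl fun k _ => ?_
    rw [Finset.card_product, hcard, hcard]
  rw [hsum, hcard]
  refine Finset.card_le_card_of_injOn (fun x => x.2.1 ++ x.2.2) ?_ ?_
  · rintro ⟨k, u, v⟩ hx
    rw [Finset.mem_coe, Finset.mem_sigma, Finset.mem_range, Finset.mem_product, hmem, hmem] at hx
    obtain ⟨hk, ⟨hu1, hu2, hu3⟩, ⟨hv1, hv2, hv3⟩⟩ := hx
    rw [Finset.mem_coe, hmem]
    dsimp only at hk hu1 hu2 hu3 hv1 hv2 hv3 ⊢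
    refine ⟨?_, hu2.append hv2, ?_⟩
    · rw [List.length_append]
      omega
    · rw [en_append, Prod.fst_add, hu3, hv3]
      push_cast
      ring
  · rintro ⟨k, u, v⟩ hx ⟨k', u', v'⟩ hx' h
    rw [Finset.mem_coe, Finset.mem_sigma, Finset.mem_range, Finset.mem_product, hmem, hmem] at hx hx'
    obtain ⟨hk, ⟨hu1, hu2, hu3⟩, ⟨hv1, hv2, hv3⟩⟩ := hx
    obtain ⟨hk', ⟨hu1', hu2', hu3'⟩, ⟨hv1', hv2', hv3'⟩⟩ := hx'
    dsimp only at hk hu1 hu2 hu3 hv1 hv2 hv3 hk' hu1' hu2' hu3' hv1' hv2' hv3' h
    have hkk : k = k' := by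
      rcases lt_trichotomy k k' with h1 | h1 | h1
      · exact absurd h1 (W6_lt hu1 hv2 hu3 hu1' hu3' h)
      · exact h1
      · exact absurd h1 (W6_lt hu1' hv2' hu3' hu1 hu3 h.symm)
    subst hkk
    obtain ⟨h1, h2⟩ := List.append_inj h (by rw [hu1, hu1'])
    subst h1
    subst h2
    rfl

theorem bsp_zero {n s : ℕ} (h : n < s) : bsp n s = 0 := by
  have he : {w : List (Fin 4) | w.length = n ∧ Bridge w ∧ (en w).1 = (s : ℤ)} = ∅ := by
    rw [Set.eq_empty_iff_forall_notMem]
    rintro w ⟨h1, -, h3⟩
    have h4 := pt_fst_le w w.length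
    rw [pt_length, h3, h1] at h4
    have h5 := le_abs_self (s : ℤ)
    omega
  unfold bsp
  rw [he, Set.ncard_empty]

theorem bsp_le_bs (n s : ℕ) : bsp n s ≤ bs n := by
  refine Set.ncard_le_ncard ?_ (fin_len n _)
  rintro w ⟨h1, h2, -⟩
  exact ⟨h1, h2⟩

theorem hs_le_hsp (n : ℕ) : hs n ≤ hsp n n := by
  refine Set.ncard_le_ncard ?_ (fin_len n _)
  rintro w ⟨h1, h2⟩
  refine ⟨h1, h2, fun i => ?_⟩
  have h3 := pt_fst_le w i
  rw [h1] at h3
  exact (le_abs_self _).trans h3

end Pool.Agent.PT
end

section

/-!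
# TASK PT W8: hs n ≤ qn n * bs n (easy)

PROOF of `hsp_le_sum`. Induction on `a`, for all `n`. `a = 0`: `hsp_zero`, `Finset.Icc 1 0 = ∅`, the only subset is `∅` with sum `0`. Step: by `hsp_succ` and the induction hypothesis
`hsp n (a + 1) ≤ ∑_{A ⊆ [1,a]} bsp n (∑ A) + ∑_k bsp k (a + 1) * ∑_{A ⊆ [1,a]} bsp (n - k) (∑ A)`; exchange the sums (`Finset.mul_sum`, `Finset.sum_comm`), `bsp_conv n (a + 1) (∑ A)` gives
`≤ ∑_{A ⊆ [1,a]} (bsp n (∑ A) + bsp n (a + 1 + ∑ A))`, which is the sum over the subsets of `[1, a + 1] = insert (a + 1) [1, a]` (`Finset.sum_powerset_insert`).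

PROOF of `hs_le`. `hs n ≤ hsp n n ≤ ∑_{A ⊆ [1,n]} bsp n (∑ A)`; the terms with `∑ A > n` vanish (`bsp_zero`), the others are `≤ bs n` (`bsp_le_bs`); there are `qn n` of them
(`Finset.sum_filter_add_sum_filter_not` or `Finset.sum_filter_of_ne`, `Finset.sum_le_card_nsmul`).
-/

set_option autoImplicit false

namespace Pool.Agent.PT

theorem hsp_le_sum (n a : ℕ) : hsp n a ≤ ∑ A ∈ (Finset.Icc 1 a).powerset, bsp n (∑ b ∈ A, b) := by
  classical
  induction a generalizing n with
  | zero =>
    have e : Finset.Icc 1 0 = (∅ : Finset ℕ) := rfl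
    rw [e, Finset.powerset_empty, Finset.sum_singleton, Finset.sum_empty]
    exact hsp_zero n
  | succ a ih =>
    have e : Finset.Icc 1 (a + 1) = insert (a + 1) (Finset.Icc 1 a) := by
      ext x
      simp only [Finset.mem_Icc, Finset.mem_insert]
      omega
    have hn : a + 1 ∉ Finset.Icc 1 a := by
      simp
    rw [e, Finset.sum_powerset_insert hn]
    refine (hsp_succ n a).trans (add_le_add (ih n) ?_)
    have h1 : ∑ k ∈ Finset.range (n + 1), bsp k (a + 1) * hsp (n - k) a ≤
        ∑ k ∈ Finset.range (n + 1), ∑ A ∈ (Finset.Icc 1 a).powerset, bsp k (a + 1) * bsp (n - k) (∑ b ∈ A, b) := by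
      refine Finset.sum_le_sum fun k _ => ?_
      rw [← Finset.mul_sum]
      exact Nat.mul_le_mul_left _ (ih (n - k))
    refine h1.trans ?_
    rw [Finset.sum_comm]
    refine Finset.sum_le_sum fun A hA => ?_
    have hA' : a + 1 ∉ A := fun h => hn (Finset.mem_powerset.1 hA h)
    rw [Finset.sum_insert hA']
    exact bsp_conv n (a + 1) (∑ b ∈ A, b)

theorem hs_le (n : ℕ) : hs n ≤ qn n * bs n := by
  classical
  refine (hs_le_hsp n).trans ((hsp_le_sum n n).trans ?_)
  have h1 : ∑ A ∈ (Finset.Icc 1 n).powerset, bsp n (∑ b ∈ A, b) =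
      ∑ A ∈ (Finset.Icc 1 n).powerset.filter (fun A => ∑ a ∈ A, a ≤ n), bsp n (∑ b ∈ A, b) := by
    refine (Finset.sum_filter_of_ne fun A _ hne => ?_).symm
    by_contra hcon
    exact hne (bsp_zero (not_le.1 hcon))
  rw [h1]
  refine (Finset.sum_le_card_nsmul _ _ (bs n) fun A _ => bsp_le_bs n _).trans ?_
  rw [smul_eq_mul]
  rfl

end Pool.Agent.PT
end
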