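import Pool.Agent.Lib.MP_ed987a_lc.Mg.G001
import Pool.Agent.Lib.MP_ed987a_lc.PT.A4
import Pool.Agent.Lib.MP_ed987a_lc.PT.A6
import Pool.Agent.Lib.MP_ed987a_lc.Mg.G002
import Pool.Agent.Lib.MP_ed987a_lc.Mg.G003
import Pool.Agent.Lib.MP_ed987a_lc.Mg.G018
import Pool.Agent.Lib.MP_ed987a_lc.Mg.G019
import Pool.Agent.Lib.MP_ed987a_lc.PT.W9

section

/-!
# TASK PT A9: many polyominoes with `n` cells (easy)

PROOF of `AA_le_areaAll`. `AA n ≤` number of the correct codes of area `n` (`AA_le`) `≤ areaAll n` by `le_ncard_normal` with `Good S := Poly S ∧ S.ncard = n`, `X` = set of the correct codes of area `n`, `F l = colset 0 0 l`: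
`Poly (colset 0 0 l)` by `colset_finite`, `colset_con`, `colset_cocon`; `colset_ncard`; `mem_colset_first`; `poly_shift`, `ncard_shift`, `fin_area`, `colset_shift_inj`. (`areaAll` is the number of the `S` with
`Poly S ∧ Normal S ∧ S.ncard = n`: reorder the conjunctions by `Set.ext`.)
`areaAll_lower`: with `AA_lower`.
-/

set_option autoImplicit false

namespace Pool.Agent.PT

theorem poly_colset {l : List (ℕ × ℕ)} (h : CCok l) (x b : ℤ) : Poly (colset x b l) :=
  ⟨colset_finite x b l, colset_con h x b, colset_cocon l x b⟩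

theorem AA_le_areaAll (n : ℕ) : AA n ≤ areaAll n := by
  refine (AA_le n).trans ?_
  have h1 : {l : List (ℕ × ℕ) | CCok l ∧ area l = n}.ncard ≤
      {S : Set V | (Poly S ∧ S.ncard = n) ∧ Normal S}.ncard :=
    le_ncard_normal (fun S => Poly S ∧ S.ncard = n)
      (fun t S h => ⟨poly_shift h.1 t, (ncard_shift t S).trans h.2⟩) (fin_area n)
      {l : List (ℕ × ℕ) | CCok l ∧ area l = n} (fun l => colset 0 0 l)
      (fun l hl => ⟨⟨poly_colset hl.1 0 0, (colset_ncard 0 0 l).trans hl.2⟩, colset_finite 0 0 l,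
        ⟨_, mem_colset_first hl.1 0 0⟩⟩)
      (fun l hl l' hl' t he => colset_shift_inj hl.1 hl'.1 he)
  have h2 : {S : Set V | (Poly S ∧ S.ncard = n) ∧ Normal S} =
      {S : Set V | Poly S ∧ Normal S ∧ S.ncard = n} := by
    ext S
    simp only [Set.mem_setOf_eq]
    tauto
  rw [h2] at h1
  exact h1

theorem areaAll_lower : ∃ c : ℝ, 0 < c ∧ ∀ n : ℕ, 1 ≤ n → c * (3.19 : ℝ) ^ n ≤ areaAll n := by
  obtain ⟨c, hc, h⟩ := AA_lower
  refine ⟨c, hc, fun n hn => (h n hn).trans ?_⟩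
  exact_mod_cast AA_le_areaAll n

end Pool.Agent.PT
end

section

/-!
# TASK PT W10: the limits (medium, real analysis)

PROOF of `cs_le_bs`. `cs n ≤ ∑_{i ≤ n} hs (n - i) * hs (i + 1) ≤ ∑_{i ≤ n} qn (n - i) * qn (i + 1) * (bs (n - i) * bs (i + 1)) ≤ (n + 1) * qn (n + 1) ^ 2 * bs (n + 1)`
by `cs_le_sum`, `hs_le`, `qn_mono`, `bs_mul (n - i) (i + 1)` with `n - i + (i + 1) = n + 1`.

PROOF of `W_limits`. `u n = Real.log (cs n)` is subadditive (`cs_submul`, `cs_pos`, `Real.log_mul`, `Real.log_le_log`), `u n / n ≥ 0` (`cs n ≥ 1`), so `Subadditive.tendsto_lim` gives a limit `ℓ` of `u n / n`. Put `mu = Real.exp ℓ`, `log mu = ℓ`.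
`u n ≤ log 4 + n log 3` (`cs_le`) gives `ℓ ≤ log 3`; `cs (n + 1) ≥ bs (n + 1) ≥ 2 ^ n` gives `u (n + 1) / (n + 1) ≥ n / (n + 1) log 2`, so `ℓ ≥ log 2` (`ge_of_tendsto'`, `le_of_tendsto_of_tendsto'`); then `2 ≤ mu ≤ 3` by monotonicity of `exp`.
Bridges: `log (bs n) ≤ log (cs n)` and for `n ≥ 1`: `log (cs (n - 1)) - log n - 2 log (qn n) ≤ log (bs n)` with `log (qn n) ≤ Nat.sqrt (2 n) * log (n + 1)` and `Nat.sqrt (2 n) ≤ Real.sqrt (2 n)`. Divide by `n`:
`log (cs (n - 1)) / n → ℓ`, `log n / n → 0`, `sqrt (2 n) log (n + 1) / n → 0` (`isLittleO_log_rpow_atTop` or `Real.isLittleO_log_id_atTop`-type lemmas; e.g. `log (n + 1) ≤ 4 (n + 1) ^ (1/4)` by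
`Real.log_le_rpow_div`). Squeeze (`tendsto_of_tendsto_of_tendsto_of_le_of_le'`). It is convenient to prove the limit for `bs (n + 1) / (n + 1)` and to use `Filter.tendsto_add_atTop_iff_nat`.
-/

set_option autoImplicit false

open Filter Topology

namespace Pool.Agent.PT

theorem cs_le_bs (n : ℕ) : cs n ≤ (n + 1) * qn (n + 1) ^ 2 * bs (n + 1) := by
  refine (cs_le_sum n).trans ?_
  have h : ∀ i ∈ Finset.range (n + 1),
      hs (n - i) * hs (i + 1) ≤ qn (n + 1) ^ 2 * bs (n + 1) := by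
    intro i hi
    rw [Finset.mem_range] at hi
    have h1 : hs (n - i) ≤ qn (n + 1) * bs (n - i) :=
      (hs_le _).trans (Nat.mul_le_mul_right _ (qn_mono (by omega)))
    have h2 : hs (i + 1) ≤ qn (n + 1) * bs (i + 1) :=
      (hs_le _).trans (Nat.mul_le_mul_right _ (qn_mono (by omega)))
    have h3 := bs_mul (n - i) (i + 1)
    rw [show n - i + (i + 1) = n + 1 by omega] at h3
    calc hs (n - i) * hs (i + 1) ≤ (qn (n + 1) * bs (n - i)) * (qn (n + 1) * bs (i + 1)) :=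
          Nat.mul_le_mul h1 h2
      _ = qn (n + 1) ^ 2 * (bs (n - i) * bs (i + 1)) := by ring
      _ ≤ _ := Nat.mul_le_mul_left _ h3
  calc ∑ i ∈ Finset.range (n + 1), hs (n - i) * hs (i + 1)
      ≤ ∑ _i ∈ Finset.range (n + 1), qn (n + 1) ^ 2 * bs (n + 1) := Finset.sum_le_sum h
    _ = (n + 1) * qn (n + 1) ^ 2 * bs (n + 1) := by
        rw [Finset.sum_const, Finset.card_range, smul_eq_mul]
        ring

theorem log_qn_div : Tendsto (fun n : ℕ => Real.log (qn n) / n) atTop (𝓝 0) := by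
  have hlim : Tendsto (fun n : ℕ => 8 * (2 * (n : ℝ)) ^ (-(1 / 4) : ℝ)) atTop (𝓝 0) := by
    have h1 : Tendsto (fun n : ℕ => 2 * (n : ℝ)) atTop atTop :=
      tendsto_natCast_atTop_atTop.const_mul_atTop (by norm_num)
    have h2 := (tendsto_rpow_neg_atTop (y := 1 / 4) (by norm_num)).comp h1
    have h3 := h2.const_mul 8
    rw [mul_zero] at h3
    exact h3
  refine tendsto_of_tendsto_of_tendsto_of_le_of_le' tendsto_const_nhds hlim ?_ ?_
  · refine Eventually.of_forall fun n => ?_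
    have h1 : (1 : ℝ) ≤ qn n := by exact_mod_cast qn_pos n
    exact div_nonneg (Real.log_nonneg h1) (Nat.cast_nonneg n)
  · filter_upwards [eventually_ge_atTop 1] with n hn
    have hn1 : (1 : ℝ) ≤ n := by exact_mod_cast hn
    have hn0 : (0 : ℝ) < n := by linarith
    have hq : (0 : ℝ) < qn n := by exact_mod_cast qn_pos n
    have h1 : Real.log (qn n) ≤ (Nat.sqrt (2 * n) : ℝ) * Real.log (n + 1) := by
      have h2 : (qn n : ℝ) ≤ ((n : ℝ) + 1) ^ Nat.sqrt (2 * n) := by exact_mod_cast qn_le n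
      have h3 := Real.log_le_log hq h2
      rwa [Real.log_pow] at h3
    have h4 : (Nat.sqrt (2 * n) : ℝ) ≤ (2 * (n : ℝ)) ^ (1 / 2 : ℝ) := by
      rw [← Real.sqrt_eq_rpow]
      refine Real.le_sqrt_of_sq_le ?_
      have h5 : Nat.sqrt (2 * n) ^ 2 ≤ 2 * n := Nat.sqrt_le' _
      exact_mod_cast h5
    have h6 : Real.log (n + 1) ≤ 4 * (2 * (n : ℝ)) ^ (1 / 4 : ℝ) := by
      have h7 := Real.log_le_rpow_div (x := (n : ℝ) + 1) (ε := 1 / 4) (by positivity)
        (by norm_num)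
      refine h7.trans ?_
      have h8 : ((n : ℝ) + 1) ^ (1 / 4 : ℝ) ≤ (2 * (n : ℝ)) ^ (1 / 4 : ℝ) :=
        Real.rpow_le_rpow (by positivity) (by linarith) (by norm_num)
      linarith
    have h9 : 0 ≤ Real.log ((n : ℝ) + 1) := Real.log_nonneg (by linarith)
    have h10 : (0 : ℝ) < 2 * n := by linarith
    have h11 : Real.log (qn n) ≤ 4 * (2 * (n : ℝ)) ^ (3 / 4 : ℝ) := by
      calc Real.log (qn n) ≤ (Nat.sqrt (2 * n) : ℝ) * Real.log (n + 1) := h1
        _ ≤ (2 * (n : ℝ)) ^ (1 / 2 : ℝ) * (4 * (2 * (n : ℝ)) ^ (1 / 4 : ℝ)) :=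
            mul_le_mul h4 h6 h9 (by positivity)
        _ = 4 * ((2 * (n : ℝ)) ^ (1 / 2 : ℝ) * (2 * (n : ℝ)) ^ (1 / 4 : ℝ)) := by ring
        _ = 4 * (2 * (n : ℝ)) ^ (3 / 4 : ℝ) := by
            rw [← Real.rpow_add h10]
            norm_num
    rw [div_le_iff₀ hn0]
    have h12 : (2 * (n : ℝ)) ^ (3 / 4 : ℝ) = (2 * (n : ℝ)) ^ (-(1 / 4) : ℝ) * (2 * n) := by
      conv_rhs =>
        rw [← Real.rpow_one (2 * (n : ℝ)), ← Real.rpow_mul h10.le, ← Real.rpow_add h10]
      norm_num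
    rw [h12] at h11
    linarith

theorem W_limits : ∃ mu : ℝ, 2 ≤ mu ∧ mu ≤ 3 ∧
    Tendsto (fun n : ℕ => Real.log (cs n) / n) atTop (𝓝 (Real.log mu)) ∧
    Tendsto (fun n : ℕ => Real.log (bs n) / n) atTop (𝓝 (Real.log mu)) := by
  have hcs : ∀ n, (1 : ℝ) ≤ cs n := fun n => by exact_mod_cast cs_pos n
  have hcs0 : ∀ n, (0 : ℝ) < cs n := fun n => lt_of_lt_of_le one_pos (hcs n)
  have hbs0 : ∀ n, (0 : ℝ) < bs n := fun n => by exact_mod_cast bs_pos n
  have hsub : Subadditive fun n : ℕ => Real.log (cs n) := by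
    intro m n
    rw [← Real.log_mul (hcs0 m).ne' (hcs0 n).ne']
    refine Real.log_le_log (hcs0 _) ?_
    exact_mod_cast cs_submul m n
  have hbdd : BddBelow (Set.range fun n : ℕ => Real.log (cs n) / n) := by
    refine ⟨0, ?_⟩
    rintro _ ⟨n, rfl⟩
    exact div_nonneg (Real.log_nonneg (hcs n)) (Nat.cast_nonneg n)
  have hlim := hsub.tendsto_lim hbdd
  generalize hsub.lim = l at hlim
  have hc0 : ∀ c : ℝ, Tendsto (fun n : ℕ => c / (n : ℝ)) atTop (𝓝 0) := fun c =>
    tendsto_const_nhds.div_atTop tendsto_natCast_atTop_atTop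
  have hup : l ≤ Real.log 3 := by
    have h1 : Tendsto (fun n : ℕ => Real.log 4 / (n : ℝ) + Real.log 3) atTop
        (𝓝 (0 + Real.log 3)) := (hc0 _).add tendsto_const_nhds
    rw [zero_add] at h1
    refine le_of_tendsto_of_tendsto hlim h1 ?_
    filter_upwards [eventually_ge_atTop 1] with n hn
    have hn0 : (0 : ℝ) < n := by exact_mod_cast hn
    have h2 : (cs n : ℝ) ≤ 4 * 3 ^ n := by exact_mod_cast cs_le n
    have h3 := Real.log_le_log (hcs0 n) h2
    rw [Real.log_mul (by norm_num) (by positivity), Real.log_pow] at h3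
    rw [div_le_iff₀ hn0, add_mul, div_mul_cancel₀ _ hn0.ne']
    linarith
  have hlo : Real.log 2 ≤ l := by
    have h1 : Tendsto (fun n : ℕ => Real.log 2 - Real.log 2 / (n : ℝ)) atTop
        (𝓝 (Real.log 2 - 0)) := tendsto_const_nhds.sub (hc0 _)
    rw [sub_zero] at h1
    refine le_of_tendsto_of_tendsto h1 hlim ?_
    filter_upwards [eventually_ge_atTop 1] with n hn
    have hn0 : (0 : ℝ) < n := by exact_mod_cast hn
    obtain ⟨m, rfl⟩ : ∃ m, n = m + 1 := ⟨n - 1, by omega⟩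
    have h2 : ((2 : ℝ) ^ m) ≤ cs (m + 1) := by
      exact_mod_cast (two_pow_le_bs m).trans (bs_le_cs (m + 1))
    have h3 := Real.log_le_log (by positivity) h2
    rw [Real.log_pow] at h3
    rw [le_div_iff₀ hn0, sub_mul, div_mul_cancel₀ _ hn0.ne']
    push_cast
    linarith
  refine ⟨Real.exp l, ?_, ?_, ?_, ?_⟩
  · have h := Real.exp_le_exp.2 hlo
    rwa [Real.exp_log (by norm_num)] at h
  · have h := Real.exp_le_exp.2 hup
    rwa [Real.exp_log (by norm_num)] at h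
  · rw [Real.log_exp]
    exact hlim
  · rw [Real.log_exp]
    have hlog : Tendsto (fun n : ℕ => Real.log (n : ℝ) / n) atTop (𝓝 0) := by
      have h1 := Real.isLittleO_log_id_atTop.tendsto_div_nhds_zero.comp
        (tendsto_natCast_atTop_atTop (R := ℝ))
      exact h1
    have hlow : Tendsto (fun n : ℕ => Real.log (cs n) / n - Real.log (cs 1) / n -
        Real.log (n : ℝ) / n - 2 * (Real.log (qn n) / n)) atTop
        (𝓝 (l - 0 - 0 - 2 * 0)) :=
      ((hlim.sub (hc0 _)).sub hlog).sub (log_qn_div.const_mul 2)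
    have e : l - 0 - 0 - 2 * 0 = l := by ring
    rw [e] at hlow
    refine tendsto_of_tendsto_of_tendsto_of_le_of_le' hlow hlim ?_ ?_
    · filter_upwards [eventually_ge_atTop 1] with n hn
      have hn0 : (0 : ℝ) < n := by exact_mod_cast hn
      obtain ⟨m, rfl⟩ : ∃ m, n = m + 1 := ⟨n - 1, by omega⟩
      have h1 : Real.log (cs (m + 1)) ≤ Real.log (cs m) + Real.log (cs 1) := hsub m 1
      have h2 : (cs m : ℝ) ≤ ((m + 1 : ℕ) : ℝ) * (qn (m + 1) : ℝ) ^ 2 * bs (m + 1) := by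
        exact_mod_cast cs_le_bs m
      have hq : (0 : ℝ) < qn (m + 1) := by exact_mod_cast qn_pos (m + 1)
      have h3 := Real.log_le_log (hcs0 m) h2
      rw [Real.log_mul (by positivity) (hbs0 _).ne', Real.log_mul (by positivity)
        (by positivity), Real.log_pow] at h3
      rw [← sub_div, ← sub_div, ← mul_div_assoc, ← sub_div]
      refine div_le_div_of_nonneg_right ?_ hn0.le
      push_cast at h3 ⊢
      linarith
    · refine Eventually.of_forall fun n => ?_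
      refine div_le_div_of_nonneg_right (Real.log_le_log (hbs0 n) ?_) (Nat.cast_nonneg n)
      exact_mod_cast bs_le_cs n

end Pool.Agent.PT
end
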