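import Pool.Agent.Lib.MP_ed987a_lc.PT.G1
import Pool.Agent.Lib.MP_ed987a_lc.PT.T1

section

/-!
# TASK G3: a finite nonempty set of edges with even degrees contains a simple closed polygon

A path of length `n` is a map `g : ℕ → V`, `e : ℕ → Fin 4` with `g (i + 1) = g i + vec (e i)` and `E (g i) (e i)` for `i < n`, `g` injective on
`{0, ..., n}`. All its points are in the finite set `{p | ∃ d, E p d}` (the last one by `hsym`), so `n` is bounded; take a longest
path (`n ≥ 1` by `hne`; `vec d ≠ 0`). At its end `q = g n` there is the edge `e (n - 1) + 2` (`hsym`); by `EvenAt` there is another edge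
`d ≠ e (n - 1) + 2` at `q`. If `q + vec d` were no point of the path, the path would not be longest. So `q + vec d = g j`, `j < n`
(`vec d ≠ 0`), and `j ≠ n - 1` (`vec` is injective). The closed polygon `g j, ..., g n` has length `L = n - j + 1 ≥ 3`:
`γ i = g (j + i.val)`, `δ i = e (j + i.val)` for `i.val < n - j`, `δ i = d` for `i.val = n - j` (`i : ZMod L`, `ZMod.val`, `ZMod.val_add_one_of_lt`).
-/

set_option autoImplicit false

namespace Pool.Agent.PT

private theorem G3_other (Q : Fin 4 → Prop) (h : (Q 0 ↔ Q 1) ↔ (Q 2 ↔ Q 3)) (d0 : Fin 4) (h0 : Q d0) :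
    ∃ d, d ≠ d0 ∧ Q d := by
  by_contra hcon
  have hn : ∀ d, d ≠ d0 → ¬ Q d := fun d hd hQ => hcon ⟨d, hd, hQ⟩
  have h4 : d0 = 0 ∨ d0 = 1 ∨ d0 = 2 ∨ d0 = 3 := by
    clear h0 hcon hn
    revert d0
    decide
  rcases h4 with rfl | rfl | rfl | rfl
  · have a1 := hn 1 (by decide)
    have a2 := hn 2 (by decide)
    have a3 := hn 3 (by decide)
    tauto
  · have a1 := hn 0 (by decide)
    have a2 := hn 2 (by decide)
    have a3 := hn 3 (by decide)
    tauto
  · have a1 := hn 0 (by decide)
    have a2 := hn 1 (by decide)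
    have a3 := hn 3 (by decide)
    tauto
  · have a1 := hn 0 (by decide)
    have a2 := hn 1 (by decide)
    have a3 := hn 2 (by decide)
    tauto

/-- A path of length `n`. -/
private def G3_Path (E : V → Fin 4 → Prop) (n : ℕ) (g : ℕ → V) (e : ℕ → Fin 4) : Prop :=
  (∀ i < n, g (i + 1) = g i + vec (e i) ∧ E (g i) (e i)) ∧ ∀ i ≤ n, ∀ j ≤ n, g i = g j → i = j

private theorem G3_end {E : V → Fin 4 → Prop} (hsym : ∀ p d, E (p + vec d) (d + 2) ↔ E p d) {n : ℕ} {g : ℕ → V}
    {e : ℕ → Fin 4} (h : G3_Path E (n + 1) g e) : E (g (n + 1)) (e n + 2) := by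
  obtain ⟨h1, h2⟩ := h.1 n (Nat.lt_succ_self n)
  rw [h1, hsym]
  exact h2

private theorem G3_bound {E : V → Fin 4 → Prop} (hsym : ∀ p d, E (p + vec d) (d + 2) ↔ E p d)
    (hfin : {p | ∃ d, E p d}.Finite) {n : ℕ} {g : ℕ → V} {e : ℕ → Fin 4} (h : G3_Path E n g e) :
    n ≤ hfin.toFinset.card := by
  rcases Nat.eq_zero_or_pos n with h0 | hpos
  · omega
  obtain ⟨m, rfl⟩ : ∃ m, n = m + 1 := ⟨n - 1, by omega⟩
  have hmem : ∀ i ∈ Finset.range (m + 1 + 1), g i ∈ hfin.toFinset := by
    intro i hi
    rw [Finset.mem_range] at hi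
    rw [Set.Finite.mem_toFinset]
    rcases Nat.lt_or_ge i (m + 1) with h1 | h1
    · exact ⟨e i, (h.1 i h1).2⟩
    · have h2 : i = m + 1 := by omega
      rw [h2]
      exact ⟨e m + 2, G3_end hsym h⟩
  have hinj : Set.InjOn g (Finset.range (m + 1 + 1) : Set ℕ) := by
    intro i hi j hj hij
    rw [Finset.coe_range, Set.mem_Iio] at hi hj
    exact h.2 i (by omega) j (by omega) hij
  have hc := Finset.card_le_card_of_injOn g hmem hinj
  rw [Finset.card_range] at hc
  omega

theorem exists_pgn (E : V → Fin 4 → Prop) (hsym : ∀ p d, E (p + vec d) (d + 2) ↔ E p d)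
    (hfin : {p | ∃ d, E p d}.Finite) (hev : ∀ p, EvenAt E p) (hne : ∃ p d, E p d) :
    ∃ (L : ℕ) (γ : ZMod L → V) (δ : ZMod L → Fin 4), Pgn L γ δ ∧ ∀ i, E (γ i) (δ i) := by
  -- a longest path
  obtain ⟨p, d0, hp⟩ := hne
  set S : Set ℕ := {n | ∃ g e, G3_Path E n g e} with hS
  have h1S : 1 ∈ S := by
    refine ⟨fun i => if i = 0 then p else p + vec d0, fun _ => d0, ?_, ?_⟩
    · intro i hi
      have hi0 : i = 0 := by omega
      subst hi0
      refine ⟨?_, ?_⟩
      · simp
      · simpa using hp
    · intro i hi j hj hij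
      have hne' : p ≠ p + vec d0 := fun hc => vec_ne_zero d0 (left_eq_add.mp hc)
      have hi' : i = 0 ∨ i = 1 := by omega
      have hj' : j = 0 ∨ j = 1 := by omega
      rcases hi' with rfl | rfl <;> rcases hj' with rfl | rfl
      · rfl
      · exact absurd (by simpa using hij) hne'
      · exact absurd (by simpa using hij.symm) hne'
      · rfl
  have hbdd : BddAbove S := ⟨hfin.toFinset.card, by
    rintro n ⟨g, e, h⟩
    exact G3_bound hsym hfin h⟩
  obtain ⟨g, e, hpath⟩ := Nat.sSup_mem ⟨1, h1S⟩ hbdd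
  have hmax : ∀ n ∈ S, n ≤ sSup S := fun n hn => le_csSup hbdd hn
  have hpos := hmax 1 h1S
  generalize sSup S = n at hpath hmax hpos
  obtain ⟨m, rfl⟩ : ∃ m, n = m + 1 := ⟨n - 1, by omega⟩
  -- another edge at its end
  obtain ⟨d, hd, hE⟩ := G3_other (E (g (m + 1))) (hev (g (m + 1))) (e m + 2) (G3_end hsym hpath)
  obtain ⟨j, hj, hjg⟩ : ∃ j ≤ m + 1, g (m + 1) + vec d = g j := by
    by_contra hcon
    push Not at hcon
    have : m + 1 + 1 ∈ S := by
      refine ⟨fun i => if i ≤ m + 1 then g i else g (m + 1) + vec d, fun i => if i < m + 1 then e i else d, ?_, ?_⟩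
      · intro i hi
        rcases Nat.lt_or_ge i (m + 1) with h1 | h1
        · have h2 : i + 1 ≤ m + 1 := h1
          have h3 : i ≤ m + 1 := by omega
          simp only [h1, h2, h3, if_true]
          exact hpath.1 i h1
        · have h2 : i = m + 1 := by omega
          subst h2
          have h3 : ¬ (m + 1 + 1 ≤ m + 1) := by omega
          have h4 : ¬ (m + 1 < m + 1) := by omega
          simp only [h3, h4, le_refl, if_true, if_false]
          exact ⟨trivial, hE⟩
      · intro i hi l hl hil
        by_cases h1 : i ≤ m + 1 <;> by_cases h2 : l ≤ m + 1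
        · simp only [h1, h2, if_true] at hil
          exact hpath.2 i h1 l h2 hil
        · simp only [h1, h2, if_true, if_false] at hil
          exact absurd hil.symm (hcon i h1)
        · simp only [h1, h2, if_true, if_false] at hil
          exact absurd hil (hcon l h2)
        · omega
    have := hmax _ this
    omega
  have hjn : j ≠ m + 1 := by
    rintro rfl
    exact vec_ne_zero d (add_eq_left.mp hjg)
  have hjm : j ≠ m := by
    rintro rfl
    apply hd
    have h1 := (hpath.1 j (Nat.lt_succ_self j)).1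
    rw [h1, add_assoc] at hjg
    have h2 : vec (e j) + vec d = 0 := add_eq_left.mp hjg
    have h3 := vec_back (e j)
    apply vec_inj
    exact add_left_cancel (h2.trans h3.symm)
  -- the polygon
  obtain ⟨k, hk⟩ : ∃ k, m + 1 = j + k := ⟨m + 1 - j, by omega⟩
  have hk2 : 2 ≤ k := by omega
  have hval : ∀ i : ZMod (k + 1), i.val < k + 1 := fun i => ZMod.val_lt i
  refine ⟨k + 1, fun i => g (j + i.val), fun i => if i.val < k then e (j + i.val) else d, ⟨by omega, ?_, ?_⟩, ?_⟩
  · intro a b hab
    have ha := hval a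
    have hb := hval b
    have := hpath.2 (j + a.val) (by omega) (j + b.val) (by omega) hab
    exact ZMod.val_injective _ (by omega)
  · intro i
    have hi := hval i
    have hcast : i + 1 = ((i.val + 1 : ℕ) : ZMod (k + 1)) := by
      rw [Nat.cast_add, ZMod.natCast_zmod_val, Nat.cast_one]
    rcases Nat.lt_or_ge i.val k with h1 | h1
    · have h2 : (i + 1).val = i.val + 1 := by
        rw [hcast, ZMod.val_natCast]
        exact Nat.mod_eq_of_lt (by omega)
      simp only [h1, if_true]
      rw [h2, ← add_assoc]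
      exact (hpath.1 (j + i.val) (by omega)).1
    · have h2 : i.val = k := by omega
      have h3 : (i + 1).val = 0 := by
        rw [hcast, ZMod.val_natCast, h2]
        exact Nat.mod_self _
      have h4 : ¬ (i.val < k) := by omega
      simp only [h4, if_false]
      rw [h3, h2, ← hk, add_zero]
      exact hjg.symm
  · intro i
    have hi := hval i
    rcases Nat.lt_or_ge i.val k with h1 | h1
    · simp only [h1, if_true]
      exact (hpath.1 (j + i.val) (by omega)).2
    · have h2 : i.val = k := by omega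
      have h4 : ¬ (i.val < k) := by omega
      simp only [h4, if_false]
      rw [h2, ← hk]
      exact hE

end Pool.Agent.PT
end

section

/-!
# TASK G2: boundary edges, edges of polygons

(`BE_even`) around `p` the four memberships `p + co j ∈ S`; `BE S p d` = membership changes from `co (d + 3)` to `co d`. (by_cases, 16 cases, `tauto`.)
(`BE_finite`) if `BE S p d` then one of the cells `p + co j` is in `S`.
(`BE_none`) if `BE` is nowhere true then membership is constant under steps in the directions `0` and `1` (adjacent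
cells are the two sides of an edge, `adj_edge`), so it is constant (induction on integers).
(`BE_eq`) apply `BE_none` to the symmetric difference, or directly: the relation `(c ∈ A ↔ c ∈ B)` is constant.
(`BE_ext`) finite `A`, `B`: some cell is in neither, so `A = Bᶜ` is impossible.
(`exists_finite_region`) the set `U` of `exists_region` is finite: let all edges have coordinates in `[-N, N]`; columns without
edges are disjoint from `U` (second property of `exists_region`), and cells below height `-N` too; for `y > N` no edge is at height `y`,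
so `(x, y) ∈ U ↔ (x - 1, y) ∈ U` for all `x`, and for very negative `x` the cell is not in `U`.
(`PE_sym`) swap the two cases. (`PE_even`) if `p` is no `γ i` then no edge at `p`; at `p = γ i` the edges are exactly the
directions `δ i` and `δ (i - 1) + 2` (injectivity of `γ`), and they are different (`γ (i + 1) ≠ γ (i - 1)`, because `L ≥ 3`).
-/

set_option autoImplicit false

namespace Pool.Agent.PT

theorem BE_even (S : Set V) (p : V) : EvenAt (BE S) p := by
  unfold EvenAt BE
  have e0 : (0 : Fin 4) + 3 = 3 := rfl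
  have e1 : (1 : Fin 4) + 3 = 0 := rfl
  have e2 : (2 : Fin 4) + 3 = 1 := rfl
  have e3 : (3 : Fin 4) + 3 = 2 := rfl
  rw [e0, e1, e2, e3]
  by_cases h0 : p + co 0 ∈ S <;> by_cases h1 : p + co 1 ∈ S <;> by_cases h2 : p + co 2 ∈ S <;>
    by_cases h3 : p + co 3 ∈ S <;> simp [h0, h1, h2, h3]

theorem BE_finite {S : Set V} (h : S.Finite) : {p | ∃ d, BE S p d}.Finite := by
  have h1 : {p | ∃ d, BE S p d} ⊆ ⋃ j : Fin 4, (fun q : V => q - co j) '' S := by
    rintro p ⟨d, hd⟩
    unfold BE at hd
    rw [Set.mem_iUnion]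
    by_cases h2 : p + co d ∈ S
    · exact ⟨d, p + co d, h2, by simp⟩
    · have h3 : p + co (d + 3) ∈ S := by
        by_contra h3
        exact hd ⟨fun h => absurd h h2, fun h => absurd h h3⟩
      exact ⟨d + 3, p + co (d + 3), h3, by simp⟩
  exact (Set.finite_iUnion fun j => h.image _).subset h1

private theorem G2_const {P : ℤ → Prop} (h : ∀ x, P x ↔ P (x + 1)) (x : ℤ) : P x ↔ P 0 := by
  induction x using Int.induction_on with
  | zero => exact Iff.rfl
  | succ n ih => exact (h _).symm.trans ih
  | pred n ih =>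
    have h1 := h (-(n : ℤ) - 1)
    rw [sub_add_cancel] at h1
    exact h1.trans ih

theorem BE_none {S : Set V} (h : ∀ p d, ¬ BE S p d) : S = ∅ ∨ S = Set.univ := by
  have hx : ∀ x y : ℤ, (x, y) ∈ S ↔ (x + 1, y) ∈ S := by
    intro x y
    have h1 := h (x + 1, y) 1
    unfold BE at h1
    rw [not_not] at h1
    have e1 : ((x + 1, y) : V) + co 1 = (x, y) := by simp [co]
    have e2 : ((x + 1, y) : V) + co (1 + 3) = (x + 1, y) := by
      have : (1 : Fin 4) + 3 = 0 := rfl
      rw [this]
      simp [co]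
    rw [e1, e2] at h1
    exact h1
  have hy : ∀ x y : ℤ, (x, y) ∈ S ↔ (x, y + 1) ∈ S := by
    intro x y
    have h1 := h (x, y + 1) 0
    unfold BE at h1
    rw [not_not] at h1
    have e1 : ((x, y + 1) : V) + co 0 = (x, y + 1) := by simp [co]
    have e2 : ((x, y + 1) : V) + co (0 + 3) = (x, y) := by
      have : (0 : Fin 4) + 3 = 3 := rfl
      rw [this]
      simp [co]
    rw [e1, e2] at h1
    exact h1.symm
  have hc : ∀ p : V, p ∈ S ↔ ((0, 0) : V) ∈ S := by
    rintro ⟨x, y⟩
    exact (G2_const (P := fun x => (x, y) ∈ S) (fun x => hx x y) x).trans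
      (G2_const (P := fun y => ((0 : ℤ), y) ∈ S) (fun y => hy 0 y) y)
  by_cases h0 : ((0, 0) : V) ∈ S
  · right
    ext p
    simp [hc p, h0]
  · left
    ext p
    simp [hc p, h0]

theorem BE_eq {A B : Set V} (h : ∀ p d, BE A p d ↔ BE B p d) : A = B ∨ A = Bᶜ := by
  have h1 : ∀ p d, ¬ BE {c | c ∈ A ↔ c ∈ B} p d := by
    intro p d
    have h2 := h p d
    unfold BE at *
    simp only [Set.mem_ofPred_eq]
    tauto
  rcases BE_none h1 with h2 | h2
  · right
    ext c
    have h3 : c ∉ {c | c ∈ A ↔ c ∈ B} := by rw [h2]; simp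
    simp only [Set.mem_ofPred_eq] at h3
    rw [Set.mem_compl_iff]
    tauto
  · left
    ext c
    have h3 : c ∈ {c | c ∈ A ↔ c ∈ B} := by rw [h2]; simp
    exact h3

theorem BE_ext {A B : Set V} (hA : A.Finite) (hB : B.Finite) (h : ∀ p d, BE A p d ↔ BE B p d) : A = B := by
  rcases BE_eq h with h1 | h1
  · exact h1
  · exfalso
    have h2 : (A ∪ B).Finite := hA.union hB
    rw [h1, Set.compl_union_self] at h2
    exact Set.infinite_univ h2

theorem exists_finite_region (E : V → Fin 4 → Prop) (hsym : ∀ p d, E (p + vec d) (d + 2) ↔ E p d)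
    (hfin : {p | ∃ d, E p d}.Finite) (hev : ∀ p, EvenAt E p) :
    ∃ U : Set V, U.Finite ∧ ∀ p d, BE U p d ↔ E p d := by
  obtain ⟨N, hN⟩ : ∃ N : ℤ, ∀ p d, E p d → |p.1| ≤ N ∧ |p.2| ≤ N := by
    have h1 : ((fun p : V => |p.1|) '' {p | ∃ d, E p d}).Finite := hfin.image _
    have h2 : ((fun p : V => |p.2|) '' {p | ∃ d, E p d}).Finite := hfin.image _
    obtain ⟨N1, h3⟩ := h1.bddAbove
    obtain ⟨N2, h4⟩ := h2.bddAbove
    refine ⟨max N1 N2, fun p d hp => ⟨?_, ?_⟩⟩
    · exact (h3 ⟨p, ⟨d, hp⟩, rfl⟩).trans (le_max_left _ _)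
    · exact (h4 ⟨p, ⟨d, hp⟩, rfl⟩).trans (le_max_right _ _)
  obtain ⟨U, hU, hU'⟩ := exists_region E hsym (-N) (fun p d h => (abs_le.1 (hN p d h).2).1) hev
  refine ⟨U, ?_, hU⟩
  have h1 : ∀ c ∈ U, -N ≤ c.1 ∧ c.1 ≤ N ∧ -N ≤ c.2 := by
    intro c hc
    obtain ⟨h, h2, h3, h4⟩ := hU' c hc
    have h5 := abs_le.1 (hN _ _ h4).1
    exact ⟨h5.1, h5.2, h2.trans h3⟩
  have h2 : ∀ c ∈ U, c.2 ≤ N := by
    intro c hc
    by_contra hlt
    push Not at hlt
    have h3 : ∀ x : ℤ, (x, c.2) ∈ U ↔ (x + 1, c.2) ∈ U := by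
      intro x
      have h4 : ¬ BE U (x + 1, c.2) 1 := by
        intro h5
        have h6 := (hN _ _ ((hU _ _).1 h5)).2
        have h7 := (abs_le.1 h6).2
        simp only at h7
        omega
      unfold BE at h4
      rw [not_not] at h4
      have e1 : ((x + 1, c.2) : V) + co 1 = (x, c.2) := by simp [co]
      have e2 : ((x + 1, c.2) : V) + co (1 + 3) = (x + 1, c.2) := by
        have : (1 : Fin 4) + 3 = 0 := rfl
        rw [this]
        simp [co]
      rw [e1, e2] at h4
      exact h4
    have h4 := G2_const (P := fun x => (x, c.2) ∈ U) h3 c.1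
    have h5 := G2_const (P := fun x => (x, c.2) ∈ U) h3 (N + 1)
    have h6 : ((N + 1, c.2) : V) ∈ U := h5.2 (h4.1 hc)
    have h7 := (h1 _ h6).2.1
    simp only at h7
    omega
  apply (Set.finite_Icc ((-N, -N) : V) (N, N)).subset
  intro c hc
  have h3 := h1 c hc
  have h4 := h2 c hc
  exact ⟨Prod.mk_le_mk.2 ⟨h3.1, h3.2.2⟩, Prod.mk_le_mk.2 ⟨h3.2.1, h4⟩⟩

variable {L : ℕ} {γ : ZMod L → V} {δ : ZMod L → Fin 4}

theorem PE_sym (h : Pgn L γ δ) (p : V) (d : Fin 4) : PE γ δ (p + vec d) (d + 2) ↔ PE γ δ p d := by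
  unfold PE
  constructor
  · rintro ⟨i, ⟨h1, h2⟩ | ⟨h1, h2⟩⟩
    · refine ⟨i, Or.inr ⟨?_, ?_⟩⟩
      · rw [h.step i, h1, h2, add_assoc, vec_back, add_zero]
      · rw [h2, d22]
    · have h3 : δ i = d := add_right_cancel h2
      refine ⟨i, Or.inl ⟨?_, h3⟩⟩
      rw [h.step i, h3] at h1
      exact add_right_cancel h1
  · rintro ⟨i, ⟨h1, h2⟩ | ⟨h1, h2⟩⟩
    · refine ⟨i, Or.inr ⟨?_, ?_⟩⟩
      · rw [h.step i, h1, h2]
      · rw [h2]
    · refine ⟨i, Or.inl ⟨?_, ?_⟩⟩
      · rw [← h1, ← h2, h.step i, add_assoc, vec_back, add_zero]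
      · rw [← h2, d22]

/-- the edges at the point `γ i` -/
theorem PE_at (h : Pgn L γ δ) (i : ZMod L) (d : Fin 4) : PE γ δ (γ i) d ↔ d = δ i ∨ d = δ (i - 1) + 2 := by
  unfold PE
  constructor
  · rintro ⟨j, ⟨h1, h2⟩ | ⟨h1, h2⟩⟩
    · left
      rw [← h2, h.inj h1]
    · right
      have h3 : j = i - 1 := by
        rw [← h.inj h1]
        ring
      rw [← h2, h3]
  · rintro (h1 | h1)
    · exact ⟨i, Or.inl ⟨rfl, h1.symm⟩⟩
    · exact ⟨i - 1, Or.inr ⟨by rw [sub_add_cancel], h1.symm⟩⟩

theorem PE_mem (h : Pgn L γ δ) {p : V} {d : Fin 4} (hp : PE γ δ p d) : ∃ i, γ i = p := by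
  obtain ⟨i, ⟨h1, _⟩ | ⟨h1, _⟩⟩ := hp
  · exact ⟨i, h1⟩
  · exact ⟨i + 1, h1⟩

/-- no backtracking -/
theorem Pgn.back (h : Pgn L γ δ) (i : ZMod L) : δ (i + 1) ≠ δ i + 2 := by
  intro h1
  have h2 := h.step (i + 1)
  rw [h1, h.step i, add_assoc (γ i), vec_back, add_zero] at h2
  have h3 := h.inj h2
  have h4 : ((2 : ℕ) : ZMod L) = 0 := by
    have h5 : i + 1 + 1 = i + 2 := by ring
    rw [h5] at h3
    have h6 : (2 : ZMod L) = 0 := by
      have h7 : i + 2 = i + 0 := by rw [h3, add_zero]
      exact add_left_cancel h7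
    exact_mod_cast h6
  rw [ZMod.natCast_eq_zero_iff] at h4
  have h5 := Nat.le_of_dvd (by norm_num) h4
  have h6 := h.three
  omega

theorem PE_even (h : Pgn L γ δ) (p : V) : EvenAt (PE γ δ) p := by
  unfold EvenAt
  by_cases hp : ∃ i, γ i = p
  · obtain ⟨i, rfl⟩ := hp
    have h1 : δ i ≠ δ (i - 1) + 2 := by
      have h2 := h.back (i - 1)
      rw [sub_add_cancel] at h2
      exact h2
    rw [PE_at h, PE_at h, PE_at h, PE_at h]
    generalize δ i = a at h1 ⊢
    generalize δ (i - 1) + 2 = b at h1 ⊢
    revert a b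
    decide
  · have h1 : ∀ d, ¬ PE γ δ p d := fun d hd => hp (PE_mem h hd)
    simp [h1]

theorem PE_finite (h : Pgn L γ δ) : {p | ∃ d, PE γ δ p d}.Finite := by
  have h1 := h.three
  have : NeZero L := ⟨by omega⟩
  apply (Set.finite_range γ).subset
  rintro p ⟨d, hd⟩
  exact PE_mem h hd

end Pool.Agent.PT
end

section

/-!
# TASK G4: connected sets of cells

(`con_of_closed`) for `u, v ∈ A` let `B` be the set of the cells of `A` which are reachable from `u` in `gridG.induce A`; it is closed, so
`B = A ∋ v`. (`closed_of_con`) from `c ∈ B` every cell of `A` is reachable; induction along the walk.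
(`BE_sub_of_closed`) if `B ⊆ A` is closed in `A` then an edge of the boundary of `B` is an edge of the boundary of `A`: of its two sides (adjacent,
`adj_edge`) exactly one is in `B ⊆ A`, and the other one is not in `A`, because `B` is closed.
-/

set_option autoImplicit false

namespace Pool.Agent.PT

/-- `B` is closed under adjacency in `A` -/
def Closed (A B : Set V) : Prop := ∀ c ∈ B, ∀ c' ∈ A, Adj c c' → c' ∈ B

theorem con_of_closed {A : Set V} (hne : A.Nonempty) (h : ∀ B ⊆ A, B.Nonempty → Closed A B → B = A) :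
    (gridG.induce A).Connected := by
  obtain ⟨a, ha⟩ := hne
  have hreach : ∀ u : A, ∀ v : A, (gridG.induce A).Reachable u v := by
    intro u v
    have hB : {c : V | ∃ hc : c ∈ A, (gridG.induce A).Reachable u ⟨c, hc⟩} = A := by
      apply h
      · rintro c ⟨hc, _⟩
        exact hc
      · exact ⟨u.1, u.2, SimpleGraph.Reachable.refl _⟩
      · rintro c ⟨hc, hr⟩ c' hc' hadj
        refine ⟨hc', hr.trans ?_⟩
        apply SimpleGraph.Adj.reachable
        change gridG.Adj c c'
        rw [gridG_adj]
        exact hadj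
    have hv : v.1 ∈ {c : V | ∃ hc : c ∈ A, (gridG.induce A).Reachable u ⟨c, hc⟩} := by
      rw [hB]
      exact v.2
    obtain ⟨_, hr⟩ := hv
    exact hr
  have : Nonempty A := ⟨⟨a, ha⟩⟩
  exact ⟨hreach⟩

theorem closed_of_con {A : Set V} (h : (gridG.induce A).Connected) {B : Set V} (hB : B ⊆ A) (hne : B.Nonempty)
    (hc : Closed A B) : B = A := by
  obtain ⟨b, hb⟩ := hne
  apply Set.Subset.antisymm hB
  intro c hcA
  obtain ⟨w⟩ := h.preconnected ⟨b, hB hb⟩ ⟨c, hcA⟩
  have key : ∀ (u v : A) (_ : (gridG.induce A).Walk u v), u.1 ∈ B → v.1 ∈ B := by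
    intro u v w
    induction w with
    | nil => exact fun h => h
    | cons hadj _ ih =>
      intro hu
      apply ih
      apply hc _ hu _ (Subtype.property _)
      rw [← gridG_adj]
      exact hadj
  exact key _ _ w hb

theorem BE_sub_of_closed {A B : Set V} (hB : B ⊆ A) (hc : Closed A B) {p : V} {d : Fin 4} (h : BE B p d) : BE A p d := by
  have hadj : Adj (p + co d) (p + co (d + 3)) := (adj_edge _ _).2 ⟨p, d, rfl, rfl⟩
  unfold BE at h ⊢
  intro hiff
  apply h
  constructor
  · intro h1
    exact hc _ h1 _ (hiff.1 (hB h1)) hadj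
  · intro h1
    exact hc _ h1 _ (hiff.2 (hB h1)) hadj.symm

theorem BE_compl (A : Set V) (p : V) (d : Fin 4) : BE Aᶜ p d ↔ BE A p d := by
  unfold BE
  rw [Set.mem_compl_iff, Set.mem_compl_iff, not_iff_not]
  exact not_iff_not

end Pool.Agent.PT
end

section

/-!
# TASK G5: the boundary of a polyomino without holes is one simple closed polygon, and conversely

(`Poly.exists_pgn`) `S` is finite and nonempty, so `BE S` is not empty (`BE_none`; `S ≠ univ`), and `exists_pgn` (`BE_rev`, `BE_finite`,
`BE_even`) gives a polygon with `BE S (γ i) (δ i)` for all `i`; so `PE γ δ p d → BE S p d` (`BE_rev`). `exists_finite_region` for `PE γ δ` gives a finite `U`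
with `BE U = PE γ δ`. If `c, c'` are adjacent and both in `S` (or both not in `S`) then `c ∈ U ↔ c' ∈ U`: otherwise their common edge
(`adj_edge`) is in `BE U`, so in `BE S`. Hence `S ∩ U` is closed in `S` and `Sᶜ ∩ U` is closed in `Sᶜ`; by `closed_of_con` each
of them is empty or everything. `Sᶜ ∩ U` is finite and `Sᶜ` is infinite, so `U ⊆ S`. `U` is not empty (`PE` is not empty), so
`U = S`.
(`poly_of_pgn`) `closed_part`: let `B` be nonempty with `BE B p d → BE A p d = PE γ δ p d`, `B ≠ univ`. `BE B` is not empty (`BE_none`). At `γ i` the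
edges of `BE B` are among `δ i` and `δ (i - 1) + 2` (`PE_at`) and their number is even (`BE_even`), so both or none. So
`BE B (γ i) (δ i) ↔ BE B (γ (i - 1)) (δ (i - 1))` (`BE_rev`), for all `i` the same; not none, because then `BE B` is empty. So
`BE B = BE A` and `B = A` or `B = Aᶜ` (`BE_eq`). Apply this to `A = S` and `A = Sᶜ` with `con_of_closed`, `BE_sub_of_closed`: a nonempty subset
`B ⊆ A` with `B = Aᶜ` is impossible. (`S` is nonempty because `BE S` is not empty, `Sᶜ` is nonempty because `S` is finite.)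
-/

set_option autoImplicit false

namespace Pool.Agent.PT

private theorem G5_ne {S : Set V} (hf : S.Finite) (hne : S.Nonempty) : ∃ p d, BE S p d := by
  by_contra hcon
  push Not at hcon
  rcases BE_none hcon with h1 | h1
  · exact hne.ne_empty h1
  · rw [h1] at hf
    exact Set.infinite_univ hf

private theorem G5_PE_BE {L : ℕ} {γ : ZMod L → V} {δ : ZMod L → Fin 4} (hP : Pgn L γ δ) {S : Set V}
    (hE : ∀ i, BE S (γ i) (δ i)) {p : V} {d : Fin 4} (h : PE γ δ p d) : BE S p d := by
  obtain ⟨i, ⟨rfl, rfl⟩ | ⟨rfl, rfl⟩⟩ := h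
  · exact hE i
  · rw [hP.step i, BE_rev]
    exact hE i

private theorem G5_closed {A U : Set V} (h : ∀ p d, BE U p d → BE A p d) : Closed A (A ∩ U) := by
  intro c hc c' hc' hadj
  refine ⟨hc', ?_⟩
  by_contra hU
  obtain ⟨p, d, rfl, rfl⟩ := (adj_edge c c').1 hadj
  have h1 : BE U p d := fun h2 => hU (h2.1 hc.2)
  exact h p d h1 ⟨fun _ => hc', fun _ => hc.1⟩

theorem Poly.exists_pgn {S : Set V} (h : Poly S) :
    ∃ (L : ℕ) (γ : ZMod L → V) (δ : ZMod L → Fin 4), Pgn L γ δ ∧ ∀ p d, BE S p d ↔ PE γ δ p d := by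
  have hSne : S.Nonempty := by
    obtain ⟨⟨x, hx⟩⟩ := h.con.nonempty
    exact ⟨x, hx⟩
  obtain ⟨L, γ, δ, hP, hE⟩ := Pool.Agent.PT.exists_pgn (BE S) (BE_rev S) (BE_finite h.fin) (BE_even S)
    (G5_ne h.fin hSne)
  obtain ⟨U, hUf, hU⟩ := exists_finite_region (PE γ δ) (PE_sym hP) (PE_finite hP) (PE_even hP)
  have hUS : ∀ p d, BE U p d → BE S p d := fun p d h1 => G5_PE_BE hP hE ((hU p d).1 h1)
  have hUS' : ∀ p d, BE U p d → BE Sᶜ p d := fun p d h1 => (BE_compl S p d).2 (hUS p d h1)
  have hUne : U.Nonempty := by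
    rw [Set.nonempty_iff_ne_empty]
    rintro rfl
    exact (hU (γ 0) (δ 0)).2 ⟨0, Or.inl ⟨rfl, rfl⟩⟩ ⟨fun h => h.elim, fun h => h.elim⟩
  have h1 : Sᶜ ∩ U = ∅ := by
    by_contra hcon
    have h2 := closed_of_con h.cocon Set.inter_subset_left (Set.nonempty_iff_ne_empty.2 hcon)
      (G5_closed hUS')
    have h3 : Sᶜ.Finite := by
      rw [← h2]
      exact hUf.subset Set.inter_subset_right
    have h4 := h.fin.union h3
    rw [Set.union_compl_self] at h4
    exact Set.infinite_univ h4
  have h2 : U ⊆ S := by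
    intro x hx
    by_contra hxS
    have : x ∈ Sᶜ ∩ U := ⟨hxS, hx⟩
    rw [h1] at this
    exact this
  have h3 : S ∩ U = S := by
    refine closed_of_con h.con Set.inter_subset_left ?_ (G5_closed hUS)
    obtain ⟨x, hx⟩ := hUne
    exact ⟨x, h2 hx, hx⟩
  have h4 : U = S := Set.Subset.antisymm h2 (fun x hx => by
    rw [← h3] at hx
    exact hx.2)
  subst h4
  exact ⟨L, γ, δ, hP, hU⟩

variable {L : ℕ} {γ : ZMod L → V} {δ : ZMod L → Fin 4}

private theorem G5_par (E : Fin 4 → Prop) (d1 d2 : Fin 4) (hne : d1 ≠ d2)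
    (h : ∀ d, E d → d = d1 ∨ d = d2) (hev : (E 0 ↔ E 1) ↔ (E 2 ↔ E 3)) : E d1 ↔ E d2 := by
  have h0 := h 0
  have h1 := h 1
  have h2 := h 2
  have h3 := h 3
  clear h
  fin_cases d1 <;> fin_cases d2 <;> simp at hne h0 h1 h2 h3 ⊢ <;> tauto

theorem closed_part (hP : Pgn L γ δ) {A B : Set V} (hA : ∀ p d, BE A p d ↔ PE γ δ p d)
    (hB : ∀ p d, BE B p d → BE A p d) (hne : B.Nonempty) (hu : B ≠ Set.univ) : B = A ∨ B = Aᶜ := by
  have hL : L ≠ 0 := by
    have := hP.three
    omega
  have : NeZero L := ⟨hL⟩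
  have hstep : ∀ i : ZMod L, BE B (γ (i + 1)) (δ (i + 1)) ↔ BE B (γ i) (δ i) := by
    intro i
    have e1 : i + 1 - 1 = i := by ring
    have h1 : BE B (γ (i + 1)) (δ (i + 1)) ↔ BE B (γ (i + 1)) (δ i + 2) := by
      apply G5_par (BE B (γ (i + 1))) (δ (i + 1)) (δ i + 2) (hP.back i)
      · intro d hd
        have h2 := (PE_at hP (i + 1) d).1 ((hA _ _).1 (hB _ _ hd))
        rw [e1] at h2
        exact h2
      · exact BE_even B (γ (i + 1))
    rw [h1, hP.step i, BE_rev]
  have hall : ∀ n : ℕ, BE B (γ (n : ZMod L)) (δ (n : ZMod L)) ↔ BE B (γ 0) (δ 0) := by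
    intro n
    induction n with
    | zero => rw [Nat.cast_zero]
    | succ n ih => rw [Nat.cast_succ, hstep, ih]
  have hall' : ∀ i : ZMod L, BE B (γ i) (δ i) ↔ BE B (γ 0) (δ 0) := by
    intro i
    have := hall i.val
    rw [ZMod.natCast_zmod_val] at this
    exact this
  have h0 : BE B (γ 0) (δ 0) := by
    have hex : ∃ p d, BE B p d := by
      by_contra hcon
      push Not at hcon
      rcases BE_none hcon with h1 | h1
      · exact hne.ne_empty h1
      · exact hu h1
    obtain ⟨p, d, hpd⟩ := hex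
    obtain ⟨i, ⟨rfl, rfl⟩ | ⟨rfl, rfl⟩⟩ := (hA p d).1 (hB p d hpd)
    · exact (hall' i).1 hpd
    · rw [hP.step i, BE_rev] at hpd
      exact (hall' i).1 hpd
  refine BE_eq fun p d => ⟨hB p d, fun h => ?_⟩
  exact G5_PE_BE hP (fun i => (hall' i).2 h0) ((hA p d).1 h)

theorem poly_of_pgn (hP : Pgn L γ δ) {S : Set V} (hf : S.Finite) (hS : ∀ p d, BE S p d ↔ PE γ δ p d) : Poly S := by
  have hne : S.Nonempty := by
    rw [Set.nonempty_iff_ne_empty]
    rintro rfl
    exact (hS (γ 0) (δ 0)).2 ⟨0, Or.inl ⟨rfl, rfl⟩⟩ ⟨fun h => h.elim, fun h => h.elim⟩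
  have hcne : (Sᶜ).Nonempty := by
    rw [Set.nonempty_iff_ne_empty]
    intro h
    have h1 := hf
    rw [Set.compl_empty_iff] at h
    rw [h] at h1
    exact Set.infinite_univ h1
  refine ⟨hf, con_of_closed hne ?_, con_of_closed hcne ?_⟩
  · intro B hBS hBne hBc
    have hu : B ≠ Set.univ := by
      rintro rfl
      exact Set.infinite_univ (hf.subset hBS)
    rcases closed_part hP hS (fun p d h => BE_sub_of_closed hBS hBc h) hBne hu with h1 | h1
    · exact h1
    · exfalso
      obtain ⟨x, hx⟩ := hBne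
      have h2 := hBS hx
      rw [h1] at hx
      exact hx h2
  · intro B hBS hBne hBc
    have hu : B ≠ Set.univ := by
      rintro rfl
      obtain ⟨x, hx⟩ := hne
      exact hBS (Set.mem_univ x) hx
    rcases closed_part hP (fun p d => (BE_compl S p d).trans (hS p d))
      (fun p d h => BE_sub_of_closed hBS hBc h) hBne hu with h1 | h1
    · exact h1
    · exfalso
      obtain ⟨x, hx⟩ := hBne
      have h2 := hBS hx
      rw [h1, compl_compl] at hx
      exact h2 hx

end Pool.Agent.PT
end

section

/-!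
# TASK T2: `chi t ≤ 1` for connected finite sets

`Cn t`: `t` is nonempty and every nonempty closed subset is `t`. Induction on the number of cells; `c` the least cell of `t` (`exists_least`), `t' = t.erase c`. The only
possible neighbours of `c` in `t` are `r = c + (1, 0)` and `u = c + (0, 1)` (the others are smaller). If `t = {c}`: `chi = 1`. Otherwise `r ∈ t` or `u ∈ t`
(`{c}` would be closed).
Case 1: exactly one of them, say `n`, is in `t`. `Cn t'`: let `A ⊆ t'` be nonempty and closed in `t'`. If `n ∈ A` then `insert c A` is closed in `t`, so it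
is `t` and `A = t'`. If `n ∉ A` then `A` is closed in `t`, so `A = t ∋ c`, a contradiction. `chi t = chi t'` (`chi_erase`).
Case 2: `r, u ∈ t` and `g = c + (1, 1) ∈ t`. `Cn t'`: the same, because `r ∈ A ↔ g ∈ A ↔ u ∈ A`. `chi t = chi t'`.
Case 3: `r, u ∈ t`, `g ∉ t`. Let `A` be the set of the cells of `t'` which lie in every closed subset of `t'` containing `r` (the least closed subset
containing `r`), `B = t' \ A`; `B` is closed too (adjacency is symmetric). `Cn A`: a closed nonempty subset `D` of `A` is closed in `t'`; if `r ∈ D` then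
`A ⊆ D`; if `r ∉ D` then `A \ D` is closed in `t'` and contains `r`, so `A ⊆ A \ D`, a contradiction.
If `u ∈ A` then `B` is closed in `t` (no cell of `B` is adjacent to `c`), so `B` is empty, `t' = A`, `chi t = chi A - 1 ≤ 0`. If `u ∈ B`: `Cn B`: a nonempty closed subset
`D` of `B` is closed in `t'`; if `u ∉ D` then `D` is closed in `t` (contradiction); so `u ∈ D`, and `B \ D` is closed in `t'` without `r, u`, hence
closed in `t`, hence empty. `chi t = chi t' - 1 = chi A + chi B - 1 ≤ 1` (`chi_union`).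
(`cn_of_con`) from `closed_of_con`.
-/

set_option autoImplicit false

namespace Pool.Agent.PT

/-- connected finite sets of cells -/
def Cn (t : Finset V) : Prop :=
  t.Nonempty ∧ ∀ B ⊆ t, B.Nonempty → (∀ c ∈ B, ∀ c' ∈ t, Adj c c' → c' ∈ B) → B = t

theorem cn_of_con {t : Finset V} (h : (gridG.induce (t : Set V)).Connected) : Cn t := by
  constructor
  · obtain ⟨x⟩ := h.nonempty
    exact ⟨x.1, by simp⟩
  · intro B hB hne hcl
    have h1 : (B : Set V) = (t : Set V) := by
      refine closed_of_con h (by exact_mod_cast hB) (by simpa using hne) ?_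
      intro c hc c' hc' hadj
      exact_mod_cast hcl c (by exact_mod_cast hc) c' (by exact_mod_cast hc') hadj
    exact_mod_cast h1

private theorem T2_nb {t : Finset V} {c : V}
    (hmin : ∀ c' ∈ t, c.1 < c'.1 ∨ (c.1 = c'.1 ∧ c.2 ≤ c'.2)) {x : V} (hx : x ∈ t) (h : Adj c x) :
    x = c + (1, 0) ∨ x = c + (0, 1) := by
  have h1 := hmin x hx
  unfold Adj at h
  obtain ⟨a, b⟩ := c
  obtain ⟨p, q⟩ := x
  simp only [Prod.mk_add_mk, Prod.mk.injEq] at *
  rcases abs_cases (a - p) with h2 | h2 <;> rcases abs_cases (b - q) with h3 | h3 <;> omega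

private theorem T2_key {t A : Finset V} {c : V} (ht : Cn t) (hc : c ∈ t) (hA : A ⊆ t.erase c)
    (hne : A.Nonempty) (hcl : ∀ x ∈ A, ∀ y ∈ t.erase c, Adj x y → y ∈ A)
    (hN : (∀ n ∈ t, Adj c n → n ∈ A) ∨ (∀ n ∈ t, Adj c n → n ∉ A)) : A = t.erase c := by
  have hcA : c ∉ A := fun h => by simpa using hA h
  rcases hN with hN | hN
  · have h1 : insert c A = t := by
      refine ht.2 _ ?_ (Finset.insert_nonempty _ _) ?_
      · intro x hx
        rcases Finset.mem_insert.1 hx with rfl | hx
        · exact hc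
        · exact Finset.mem_of_mem_erase (hA hx)
      · intro x hx y hy hxy
        by_cases hyc : y = c
        · exact Finset.mem_insert.2 (Or.inl hyc)
        rcases Finset.mem_insert.1 hx with rfl | hx
        · exact Finset.mem_insert_of_mem (hN y hy hxy)
        · exact Finset.mem_insert_of_mem (hcl x hx y (Finset.mem_erase.2 ⟨hyc, hy⟩) hxy)
    rw [← h1, Finset.erase_insert hcA]
  · exfalso
    have h1 : A = t := by
      refine ht.2 _ (fun x hx => Finset.mem_of_mem_erase (hA hx)) hne ?_
      intro x hx y hy hxy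
      by_cases hyc : y = c
      · subst hyc
        exact absurd hx (hN x (Finset.mem_of_mem_erase (hA hx)) hxy.symm)
      · exact hcl x hx y (Finset.mem_erase.2 ⟨hyc, hy⟩) hxy
    exact hcA (h1 ▸ hc)

private theorem T2_not_closed {t A : Finset V} {c : V} (ht : Cn t) (hc : c ∈ t) (hA : A ⊆ t.erase c)
    (hcl : ∀ x ∈ A, ∀ y ∈ t.erase c, Adj x y → y ∈ A)
    (hN : ∀ n ∈ t, Adj c n → n ∉ A) : A = ∅ := by
  by_contra hne
  have hne' : A.Nonempty := Finset.nonempty_iff_ne_empty.2 hne
  have hcA : c ∉ A := fun h => by simpa using hA h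
  have h1 : A = t := by
    refine ht.2 _ (fun x hx => Finset.mem_of_mem_erase (hA hx)) hne' ?_
    intro x hx y hy hxy
    by_cases hyc : y = c
    · subst hyc
      exact absurd hx (hN x (Finset.mem_of_mem_erase (hA hx)) hxy.symm)
    · exact hcl x hx y (Finset.mem_erase.2 ⟨hyc, hy⟩) hxy
  exact hcA (h1 ▸ hc)

private theorem T2_adj_rg (c : V) : Adj (c + (1, 0)) (c + (1, 1)) := by
  unfold Adj
  obtain ⟨a, b⟩ := c
  simp

private theorem T2_adj_ug (c : V) : Adj (c + (0, 1)) (c + (1, 1)) := by
  unfold Adj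
  obtain ⟨a, b⟩ := c
  simp

private theorem T2_adj_cr (c : V) : Adj c (c + (1, 0)) := by
  unfold Adj
  obtain ⟨a, b⟩ := c
  simp

private theorem T2_adj_cu (c : V) : Adj c (c + (0, 1)) := by
  unfold Adj
  obtain ⟨a, b⟩ := c
  simp

private theorem T2_ne_r (c : V) : c + (1, 0) ≠ c := by
  obtain ⟨a, b⟩ := c
  simp

private theorem T2_ne_u (c : V) : c + (0, 1) ≠ c := by
  obtain ⟨a, b⟩ := c
  simp

private theorem T2_ne_g (c : V) : c + (1, 1) ≠ c := by
  obtain ⟨a, b⟩ := c
  simp

private theorem T2_chi_empty : chi (∅ : Finset V) = 0 := by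
  simp [chi]

private theorem T2_step (t : Finset V) (h : Cn t)
    (ih : ∀ s : Finset V, s ⊂ t → Cn s → chi s ≤ 1) : chi t ≤ 1 := by
  classical
  obtain ⟨c, hc, hmin⟩ := exists_least h.1
  have hchi := chi_erase hc hmin
  have hnb : ∀ x ∈ t, Adj c x → x = c + (1, 0) ∨ x = c + (0, 1) := fun x hx hx' => T2_nb hmin hx hx'
  have hss : ∀ s ⊆ t.erase c, s ⊂ t := fun s hs => lt_of_le_of_lt hs (Finset.erase_ssubset hc)
  have hcn : ∀ (hN : ∀ A ⊆ t.erase c, (∀ x ∈ A, ∀ y ∈ t.erase c, Adj x y → y ∈ A) →
      (∀ n ∈ t, Adj c n → n ∈ A) ∨ (∀ n ∈ t, Adj c n → n ∉ A)) (hne : (t.erase c).Nonempty),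
      Cn (t.erase c) := by
    intro hN hne
    refine ⟨hne, ?_⟩
    intro A hA hne' hcl
    exact T2_key h hc hA hne' hcl (hN A hA hcl)
  by_cases hr : c + (1, 0) ∈ t
  · by_cases hu : c + (0, 1) ∈ t
    · by_cases hg : c + (1, 1) ∈ t
      · -- case 2
        have hr' : c + (1, 0) ∈ t.erase c := Finset.mem_erase.2 ⟨T2_ne_r c, hr⟩
        have hu' : c + (0, 1) ∈ t.erase c := Finset.mem_erase.2 ⟨T2_ne_u c, hu⟩
        have hg' : c + (1, 1) ∈ t.erase c := Finset.mem_erase.2 ⟨T2_ne_g c, hg⟩
        have h1 : Cn (t.erase c) := by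
          refine hcn ?_ ⟨_, hr'⟩
          intro A hA hcl
          by_cases hrA : c + (1, 0) ∈ A
          · left
            have hgA := hcl _ hrA _ hg' (T2_adj_rg c)
            have huA := hcl _ hgA _ hu' (T2_adj_ug c).symm
            intro n hn hcn'
            rcases hnb n hn hcn' with rfl | rfl
            · exact hrA
            · exact huA
          · right
            intro n hn hcn' hnA
            rcases hnb n hn hcn' with rfl | rfl
            · exact hrA hnA
            · have hgA := hcl _ hnA _ hg' (T2_adj_ug c)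
              exact hrA (hcl _ hgA _ hr' (T2_adj_rg c).symm)
        have h2 := ih _ (hss _ (Finset.Subset.refl _)) h1
        simp only [hr, hu, hg, if_true, true_and] at hchi
        linarith
      · -- case 3
        have hr' : c + (1, 0) ∈ t.erase c := Finset.mem_erase.2 ⟨T2_ne_r c, hr⟩
        have hu' : c + (0, 1) ∈ t.erase c := Finset.mem_erase.2 ⟨T2_ne_u c, hu⟩
        obtain ⟨A, hAdef⟩ : ∃ A : Finset V, ∀ x, x ∈ A ↔ x ∈ t.erase c ∧
            ∀ D ⊆ t.erase c, c + (1, 0) ∈ D → (∀ x ∈ D, ∀ y ∈ t.erase c, Adj x y → y ∈ D) → x ∈ D :=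
          ⟨(t.erase c).filter (fun x => ∀ D ⊆ t.erase c, c + (1, 0) ∈ D →
            (∀ x ∈ D, ∀ y ∈ t.erase c, Adj x y → y ∈ D) → x ∈ D), fun x => by
              rw [Finset.mem_filter]⟩
        have hAsub : A ⊆ t.erase c := fun x hx => ((hAdef x).1 hx).1
        have hrA : c + (1, 0) ∈ A := (hAdef _).2 ⟨hr', fun D _ hD _ => hD⟩
        have hAcl : ∀ x ∈ A, ∀ y ∈ t.erase c, Adj x y → y ∈ A := by
          intro x hx y hy hxy
          refine (hAdef y).2 ⟨hy, ?_⟩
          intro D hD hrD hDcl
          exact hDcl x (((hAdef x).1 hx).2 D hD hrD hDcl) y hy hxy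
        have hAmin : ∀ D ⊆ t.erase c, c + (1, 0) ∈ D →
            (∀ x ∈ D, ∀ y ∈ t.erase c, Adj x y → y ∈ D) → A ⊆ D := by
          intro D hD hrD hDcl x hx
          exact ((hAdef x).1 hx).2 D hD hrD hDcl
        obtain ⟨B, hBdef⟩ : ∃ B : Finset V, B = t.erase c \ A := ⟨_, rfl⟩
        have hBmem : ∀ x, x ∈ B ↔ x ∈ t.erase c ∧ x ∉ A := by
          intro x
          rw [hBdef, Finset.mem_sdiff]
        have hBsub : B ⊆ t.erase c := fun x hx => ((hBmem x).1 hx).1
        have hBcl : ∀ x ∈ B, ∀ y ∈ t.erase c, Adj x y → y ∈ B := by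
          intro x hx y hy hxy
          refine (hBmem y).2 ⟨hy, ?_⟩
          intro hyA
          exact ((hBmem x).1 hx).2 (hAcl y hyA x (hBsub hx) hxy.symm)
        have hCnA : Cn A := by
          refine ⟨⟨_, hrA⟩, ?_⟩
          intro D hD hDne hDcl
          have hDcl' : ∀ x ∈ D, ∀ y ∈ t.erase c, Adj x y → y ∈ D := by
            intro x hx y hy hxy
            exact hDcl x hx y (hAcl x (hD hx) y hy hxy) hxy
          by_cases hrD : c + (1, 0) ∈ D
          · exact Finset.Subset.antisymm hD (hAmin D (hD.trans hAsub) hrD hDcl')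
          · exfalso
            have h1 : A ⊆ A \ D := by
              refine hAmin _ (Finset.sdiff_subset.trans hAsub) (Finset.mem_sdiff.2 ⟨hrA, hrD⟩) ?_
              intro x hx y hy hxy
              rw [Finset.mem_sdiff] at hx ⊢
              refine ⟨hAcl x hx.1 y hy hxy, ?_⟩
              intro hyD
              exact hx.2 (hDcl y hyD x hx.1 hxy.symm)
            obtain ⟨x, hx⟩ := hDne
            exact (Finset.mem_sdiff.1 (h1 (hD hx))).2 hx
        have hAle : chi A ≤ 1 := ih A (hss A hAsub) hCnA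
        simp only [hr, hu, hg, if_true, if_false, and_false] at hchi
        by_cases huA : c + (0, 1) ∈ A
        · have hB0 : B = ∅ := by
            refine T2_not_closed h hc hBsub hBcl ?_
            intro n hn hcn' hnB
            rcases hnb n hn hcn' with rfl | rfl
            · exact ((hBmem _).1 hnB).2 hrA
            · exact ((hBmem _).1 hnB).2 huA
          have hA' : A = t.erase c := by
            refine Finset.Subset.antisymm hAsub ?_
            intro x hx
            by_contra hxA
            have : x ∈ B := (hBmem x).2 ⟨hx, hxA⟩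
            rw [hB0] at this
            simp at this
          rw [← hA'] at hchi
          linarith
        · have huB : c + (0, 1) ∈ B := (hBmem _).2 ⟨hu', huA⟩
          have hCnB : Cn B := by
            refine ⟨⟨_, huB⟩, ?_⟩
            intro D hD hDne hDcl
            have hDcl' : ∀ x ∈ D, ∀ y ∈ t.erase c, Adj x y → y ∈ D := by
              intro x hx y hy hxy
              exact hDcl x hx y (hBcl x (hD hx) y hy hxy) hxy
            have huD : c + (0, 1) ∈ D := by
              by_contra huD
              have h0 : D = ∅ := by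
                refine T2_not_closed h hc (hD.trans hBsub) hDcl' ?_
                intro n hn hcn' hnD
                rcases hnb n hn hcn' with rfl | rfl
                · exact ((hBmem _).1 (hD hnD)).2 hrA
                · exact huD hnD
              rw [h0] at hDne
              exact Finset.not_nonempty_empty hDne
            have h0 : B \ D = ∅ := by
              refine T2_not_closed h hc (Finset.sdiff_subset.trans hBsub) ?_ ?_
              · intro x hx y hy hxy
                rw [Finset.mem_sdiff] at hx ⊢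
                refine ⟨hBcl x hx.1 y hy hxy, ?_⟩
                intro hyD
                exact hx.2 (hDcl y hyD x hx.1 hxy.symm)
              · intro n hn hcn' hnD
                rw [Finset.mem_sdiff] at hnD
                rcases hnb n hn hcn' with rfl | rfl
                · exact ((hBmem _).1 hnD.1).2 hrA
                · exact hnD.2 huD
            exact Finset.Subset.antisymm hD (Finset.sdiff_eq_empty_iff_subset.1 h0)
          have hBle : chi B ≤ 1 := ih B (hss B hBsub) hCnB
          have hunion : A ∪ B = t.erase c := by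
            ext x
            rw [Finset.mem_union, hBmem]
            constructor
            · rintro (hx | hx)
              · exact hAsub hx
              · exact hx.1
            · intro hx
              by_cases hxA : x ∈ A
              · exact Or.inl hxA
              · exact Or.inr ⟨hx, hxA⟩
          have hdisj : Disjoint A B := by
            rw [Finset.disjoint_left]
            intro x hx hxB
            exact ((hBmem x).1 hxB).2 hx
          have hcu := chi_union hdisj (by
            intro a ha b hb hab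
            exact ((hBmem b).1 hb).2 (hAcl a ha b (hBsub hb) hab))
          rw [hunion] at hcu
          rw [hcu] at hchi
          linarith
    · -- only r
      have hr' : c + (1, 0) ∈ t.erase c := Finset.mem_erase.2 ⟨T2_ne_r c, hr⟩
      have h1 : Cn (t.erase c) := by
        refine hcn ?_ ⟨_, hr'⟩
        intro A hA hcl
        by_cases hrA : c + (1, 0) ∈ A
        · left
          intro n hn hcn'
          rcases hnb n hn hcn' with rfl | rfl
          · exact hrA
          · exact absurd hn hu
        · right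
          intro n hn hcn' hnA
          rcases hnb n hn hcn' with rfl | rfl
          · exact hrA hnA
          · exact hu hn
      have h2 := ih _ (hss _ (Finset.Subset.refl _)) h1
      simp only [hr, hu, if_true, if_false, false_and, and_false] at hchi
      linarith
  · by_cases hu : c + (0, 1) ∈ t
    · have hu' : c + (0, 1) ∈ t.erase c := Finset.mem_erase.2 ⟨T2_ne_u c, hu⟩
      have h1 : Cn (t.erase c) := by
        refine hcn ?_ ⟨_, hu'⟩
        intro A hA hcl
        by_cases huA : c + (0, 1) ∈ A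
        · left
          intro n hn hcn'
          rcases hnb n hn hcn' with rfl | rfl
          · exact absurd hn hr
          · exact huA
        · right
          intro n hn hcn' hnA
          rcases hnb n hn hcn' with rfl | rfl
          · exact hr hn
          · exact huA hnA
      have h2 := ih _ (hss _ (Finset.Subset.refl _)) h1
      simp only [hr, hu, if_true, if_false, false_and] at hchi
      linarith
    · have h0 : t.erase c = ∅ := by
        refine T2_not_closed h hc (Finset.Subset.refl _) (fun x _ y hy _ => hy) ?_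
        intro n hn hcn'
        rcases hnb n hn hcn' with rfl | rfl
        · exact absurd hn hr
        · exact absurd hn hu
      simp only [hr, hu, if_false, false_and, h0, T2_chi_empty] at hchi
      linarith

theorem chi_le_one (t : Finset V) (h : Cn t) : chi t ≤ 1 := by
  revert h
  refine Finset.strongInduction (p := fun t => Cn t → chi t ≤ 1) ?_ t
  intro s ih hs
  exact T2_step s hs ih

end Pool.Agent.PT
end
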