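import Pool.Agent.Lib.MP_ed987a_lc.PT.WDefs

section

/-!
# TASK PT W1: walks as words: positions (easy)

`pt w i = ((w.take i).map vec).sum`, `en w = (w.map vec).sum`, in the commutative group `V = ℤ × ℤ`.
Tools: `List.take_append`, `List.take_add`/`List.take_add_drop..` (`w.take (s + i) = w.take s ++ (w.drop s).take i`), `List.take_of_length_le`,
`List.take_take`, `List.map_append`, `List.sum_append`, `List.take_succ`, induction on the list where convenient.
`pt_rv`: `(rv w).take i = rv (w.drop (w.length - i))` and `en (rv u) = -en u` (induction, `vec_back`), `en (w.drop s) = en w - pt w s`.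
`pt_rx`, `pt_ry`: `List.map_take`, `vec (2 - d) = (-(vec d).1, (vec d).2)` by `decide` on `d` (revert), induction for the sum (or `Prod.fst_sum`..).
`ext_pt`: `pt u (i + 1) - pt u i = vec u[i]` and `vec_inj`, `List.ext_getElem`.
`fin_len`: `List.finite_length_eq` and `Set.Finite.subset`.
-/

set_option autoImplicit false

namespace Pool.Agent.PT

theorem pt_zero (w : List (Fin 4)) : pt w 0 = 0 := by
  simp [pt]

theorem pt_length (w : List (Fin 4)) : pt w w.length = en w := by
  unfold pt en
  rw [List.take_length]

theorem pt_of_le {w : List (Fin 4)} {i : ℕ} (h : w.length ≤ i) : pt w i = en w := by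
  unfold pt en
  rw [List.take_of_length_le h]

theorem pt_min (w : List (Fin 4)) (i : ℕ) : pt w i = pt w (min i w.length) := by
  rcases le_total i w.length with h | h
  · rw [min_eq_left h]
  · rw [min_eq_right h, pt_of_le h, pt_length]

theorem en_nil : en [] = 0 := rfl

theorem en_append (u v : List (Fin 4)) : en (u ++ v) = en u + en v := by
  unfold en
  rw [List.map_append, List.sum_append]

theorem en_cons (d : Fin 4) (v : List (Fin 4)) : en (d :: v) = vec d + en v := by
  unfold en
  rw [List.map_cons, List.sum_cons]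

private theorem W1_pt (w : List (Fin 4)) (i : ℕ) : pt w i = en (w.take i) := rfl

theorem pt_append_left (u v : List (Fin 4)) {i : ℕ} (h : i ≤ u.length) : pt (u ++ v) i = pt u i := by
  unfold pt
  rw [List.take_append_of_le_length h]

theorem pt_append_right (u v : List (Fin 4)) (i : ℕ) : pt (u ++ v) (u.length + i) = en u + pt v i := by
  rw [W1_pt, W1_pt, List.take_append, en_append]
  rw [List.take_of_length_le (by omega), Nat.add_sub_cancel_left]

theorem pt_cons_succ (d : Fin 4) (w : List (Fin 4)) (i : ℕ) : pt (d :: w) (i + 1) = vec d + pt w i := by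
  rw [W1_pt, W1_pt, List.take_succ_cons, en_cons]

theorem pt_succ (w : List (Fin 4)) {i : ℕ} (h : i < w.length) : pt w (i + 1) = pt w i + vec (w.get ⟨i, h⟩) := by
  rw [W1_pt, W1_pt, List.take_succ_eq_append_getElem h, en_append, en_cons, en_nil, add_zero]
  rfl

theorem pt_take (w : List (Fin 4)) {i k : ℕ} (h : i ≤ k) : pt (w.take k) i = pt w i := by
  rw [W1_pt, W1_pt, List.take_take, min_eq_left h]

theorem en_take (w : List (Fin 4)) (k : ℕ) : en (w.take k) = pt w k := rfl

theorem pt_drop (w : List (Fin 4)) (s i : ℕ) : pt (w.drop s) i = pt w (s + i) - pt w s := by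
  rw [W1_pt, W1_pt, W1_pt, List.take_add, en_append, add_sub_cancel_left]

theorem en_drop (w : List (Fin 4)) (s : ℕ) : en (w.drop s) = en w - pt w s := by
  have h : en w = en (w.take s) + en (w.drop s) := by
    rw [← en_append, List.take_append_drop]
  rw [h, W1_pt, add_sub_cancel_left]

theorem ext_pt {u v : List (Fin 4)} (h : u.length = v.length) (h2 : ∀ i ≤ u.length, pt u i = pt v i) : u = v := by
  refine List.ext_getElem h fun i h3 h4 => ?_
  have e1 := pt_succ u h3
  have e2 := pt_succ v h4
  rw [h2 (i + 1) (by omega), h2 i (by omega), e2] at e1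
  exact (vec_inj (add_left_cancel e1)).symm

theorem length_rv (w : List (Fin 4)) : (rv w).length = w.length := by
  unfold rv
  rw [List.length_map, List.length_reverse]

theorem rv_rv (w : List (Fin 4)) : rv (rv w) = w := by
  unfold rv
  rw [← List.map_reverse, List.reverse_reverse, List.map_map]
  have h : (fun d : Fin 4 => d + 2) ∘ (fun d : Fin 4 => d + 2) = id := by
    funext d
    exact d22 d
  rw [h, List.map_id]

private theorem W1_rv (w : List (Fin 4)) : en (rv w) = -en w := by
  induction w with
  | nil => rfl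
  | cons d w ih =>
    have h1 : rv (d :: w) = rv w ++ [d + 2] := by
      unfold rv
      rw [List.reverse_cons, List.map_append, List.map_singleton]
    rw [h1, en_append, ih, en_cons, en_cons, en_nil, add_zero, neg_add,
      eq_neg_of_add_eq_zero_right (vec_back d)]
    abel

theorem pt_rv (w : List (Fin 4)) {i : ℕ} (h : i ≤ w.length) : pt (rv w) i = pt w (w.length - i) - en w := by
  have h1 : (rv w).take i = rv (w.drop (w.length - i)) := by
    unfold rv
    rw [← List.map_take, List.take_reverse]
  rw [W1_pt, h1, W1_rv, en_drop, neg_sub]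

private theorem W1_len_map (f : Fin 4 → Fin 4) (w : List (Fin 4)) : (w.map f).length = w.length :=
  List.length_map f

theorem length_rx (w : List (Fin 4)) : (rx w).length = w.length := W1_len_map _ w

theorem rx_rx (w : List (Fin 4)) : rx (rx w) = w := by
  unfold rx
  rw [List.map_map]
  have h : (fun d : Fin 4 => 2 - d) ∘ (fun d : Fin 4 => 2 - d) = id := by
    funext d
    exact sub_sub_cancel 2 d
  rw [h, List.map_id]

private theorem W1_vx (d : Fin 4) : vec (2 - d) = (-(vec d).1, (vec d).2) := by
  revert d
  decide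

private theorem W1_vy (d : Fin 4) : vec (-d) = ((vec d).1, -(vec d).2) := by
  revert d
  decide

private theorem W1_rx (w : List (Fin 4)) : en (rx w) = (-(en w).1, (en w).2) := by
  induction w with
  | nil => rfl
  | cons d w ih =>
    have h1 : rx (d :: w) = (2 - d) :: rx w := rfl
    rw [h1, en_cons, en_cons, ih, W1_vx, Prod.mk_add_mk, Prod.fst_add, Prod.snd_add, neg_add]

theorem pt_rx (w : List (Fin 4)) (i : ℕ) : pt (rx w) i = (-(pt w i).1, (pt w i).2) := by
  have h1 : (rx w).take i = rx (w.take i) := by
    unfold rx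
    rw [List.map_take]
  rw [W1_pt, h1, W1_rx, W1_pt]

theorem length_ry (w : List (Fin 4)) : (ry w).length = w.length := W1_len_map _ w

theorem ry_ry (w : List (Fin 4)) : ry (ry w) = w := by
  unfold ry
  rw [List.map_map]
  have h : (fun d : Fin 4 => -d) ∘ (fun d : Fin 4 => -d) = id := by
    funext d
    exact neg_neg d
  rw [h, List.map_id]

theorem en_ry (w : List (Fin 4)) : en (ry w) = ((en w).1, -(en w).2) := by
  induction w with
  | nil => rfl
  | cons d w ih =>
    have h1 : ry (d :: w) = (-d) :: ry w := rfl
    rw [h1, en_cons, en_cons, ih, W1_vy, Prod.mk_add_mk, Prod.fst_add, Prod.snd_add, neg_add]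

theorem pt_ry (w : List (Fin 4)) (i : ℕ) : pt (ry w) i = ((pt w i).1, -(pt w i).2) := by
  have h1 : (ry w).take i = ry (w.take i) := by
    unfold ry
    rw [List.map_take]
  rw [W1_pt, h1, en_ry, W1_pt]

theorem fin_len_all (n : ℕ) : {w : List (Fin 4) | w.length = n}.Finite :=
  List.finite_length_eq (Fin 4) n

theorem fin_len (n : ℕ) (P : List (Fin 4) → Prop) : {w : List (Fin 4) | w.length = n ∧ P w}.Finite :=
  (fin_len_all n).subset fun _ hw => hw.1

end Pool.Agent.PT
end

section

/-!
# TASK PT W2: self-avoiding walks: pieces, symmetries, cs (m + n) ≤ cs m * cs n (easy)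

`Saw.take`, `Saw.drop`: `pt_take`, `pt_drop`. `Saw.rv`, `Saw.rx`, `Saw.ry`: `pt_rv`, `pt_rx`, `pt_ry` (for `rv`: `i ↦ w.length - i`).
`cs_submul`: the map `w ↦ (w.take m, w.drop m)` is injective from the walks of length `m + n` to pairs (`Set.ncard_prod`,
`Set.ncard_le_ncard_of_injOn`, finiteness by `fin_len`).
`cs_pos`: the word `List.replicate n 0`, `pt _ i = (i, 0)` for `i ≤ n`.
-/

set_option autoImplicit false

namespace Pool.Agent.PT

theorem Saw.take {w : List (Fin 4)} (h : Saw w) (k : ℕ) : Saw (w.take k) := by
  intro i hi j hj hij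
  rw [List.length_take] at hi hj
  rw [pt_take w (by omega), pt_take w (by omega)] at hij
  exact h i (by omega) j (by omega) hij

theorem Saw.drop {w : List (Fin 4)} (h : Saw w) (k : ℕ) : Saw (w.drop k) := by
  intro i hi j hj hij
  rw [List.length_drop] at hi hj
  rw [pt_drop, pt_drop, sub_left_inj] at hij
  rcases le_or_gt k w.length with h1 | h1
  · have h2 := h (k + i) (by omega) (k + j) (by omega) hij
    omega
  · omega

theorem Saw.rv {w : List (Fin 4)} (h : Saw w) : Saw (rv w) := by
  intro i hi j hj hij
  rw [length_rv] at hi hj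
  rw [pt_rv w hi, pt_rv w hj, sub_left_inj] at hij
  have h2 := h _ (Nat.sub_le _ _) _ (Nat.sub_le _ _) hij
  omega

theorem Saw.rx {w : List (Fin 4)} (h : Saw w) : Saw (rx w) := by
  intro i hi j hj hij
  rw [length_rx] at hi hj
  rw [pt_rx, pt_rx, Prod.mk.injEq, neg_inj] at hij
  exact h i hi j hj (Prod.ext hij.1 hij.2)

theorem Saw.ry {w : List (Fin 4)} (h : Saw w) : Saw (ry w) := by
  intro i hi j hj hij
  rw [length_ry] at hi hj
  rw [pt_ry, pt_ry, Prod.mk.injEq, neg_inj] at hij
  exact h i hi j hj (Prod.ext hij.1 hij.2)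

theorem cs_submul (m n : ℕ) : cs (m + n) ≤ cs m * cs n := by
  unfold cs
  rw [← Set.ncard_prod]
  refine Set.ncard_le_ncard_of_injOn (fun w => (w.take m, w.drop m)) ?_ ?_
    ((fin_len m Saw).prod (fin_len n Saw))
  · rintro w ⟨hw, hs⟩
    refine ⟨⟨?_, hs.take m⟩, ⟨?_, hs.drop m⟩⟩
    · change (w.take m).length = m
      rw [List.length_take]
      omega
    · change (w.drop m).length = n
      rw [List.length_drop]
      omega
  · intro u _ v _ huv
    have h1 : u.take m = v.take m := congrArg Prod.fst huv
    have h2 : u.drop m = v.drop m := congrArg Prod.snd huv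
    rw [← List.take_append_drop m u, ← List.take_append_drop m v, h1, h2]

private theorem W2_pt (n i : ℕ) (hi : i ≤ n) : pt (List.replicate n 0) i = ((i : ℤ), 0) := by
  unfold pt
  rw [List.take_replicate, min_eq_left hi, List.map_replicate, List.sum_replicate]
  simp [vec]

theorem cs_pos (n : ℕ) : 0 < cs n := by
  unfold cs
  rw [Set.ncard_pos (fin_len n Saw)]
  refine ⟨List.replicate n 0, List.length_replicate, ?_⟩
  intro i hi j hj hij
  rw [List.length_replicate] at hi hj
  rw [W2_pt n i hi, W2_pt n j hj, Prod.mk.injEq] at hij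
  exact_mod_cast hij.1

end Pool.Agent.PT
end
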