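import Pool.Agent.Lib.MP_ed987a_lc.Mg.G005
import Pool.Agent.Lib.MP_ed987a_lc.Mg.G007
import Pool.Agent.Lib.MP_ed987a_lc.Mg.G008
import Pool.Agent.Lib.MP_ed987a_lc.Mg.G003

section

/-!
# TASK G6: orientation, length, uniqueness

(`left_step`) at `q = γ (i + 1)` the boundary edges are exactly the directions `e = δ (i + 1)` and `b = δ i + 2` (`hS`, `PE_at`), `e ≠ b`
(`Pgn.back`). `q + co (b + 3) = q + co (δ i + 1) = γ i + co (δ i) ∈ S` (`d23`, `vec_co_left`); `BE S q b` gives
`q + co b ∉ S`; membership does not change at the directions between `b` and `e` (counterclockwise), and it changes at `e`. So `q + co e ∈ S`: check the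
three cases `e = b + 1`, `b + 2`, `b + 3`.
(`exists_ring`) if `γ 0 + co (δ 0) ∈ S` use `left_step` and induction over `i : ZMod L`. Otherwise `γ 0 + co (δ 0 + 3) ∈ S` (`BE S`), reverse the polygon:
`γ' i = γ (-i)`, `δ' i = δ (-i - 1) + 2`; then `γ' (i + 1) = γ (-i - 1) = γ (-i) - vec (δ (-i - 1))`, the edges are the same, and
`γ' i0 + co (δ' i0)` with `i0 = -1` is `γ 1 + co (δ 0 + 2) = γ 0 + co (δ 0 + 3) ∈ S` (`vec_co_right`).
(`Ring.perim`) the map `i ↦ (γ i + co (δ i), γ i + co (δ i + 3))` is a bijection from `ZMod L` onto the set in the definition of `perim`: the first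
cell is in `S` (`left`), the second one is not (`BE`); injective: `side_inj` gives `δ`, then `γ`, then `i`; surjective: `adj_edge` gives `p, d`,
`BE S p d`, so `(p, d) = (γ i, δ i)`, or `(p, d) = (γ (i + 1), δ i + 2)`, but then the first cell `p + co d = γ i + co (δ i + 3)` is not in
`S` (`vec_co_right`).
(`Ring.unique`) at `γ i` the direction `δ i` is the only boundary direction `d` with `γ i + co d ∈ S` (the other one, `δ (i - 1) + 2`, has
`γ i + co (δ (i - 1) + 2) = γ (i - 1) + co (δ (i - 1) + 3) ∉ S`). So `γ i = γ' i` implies `δ i = δ' i` and `γ (i + 1) = γ' (i + 1)`.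
-/

set_option autoImplicit false

namespace Pool.Agent.PT

variable {L : ℕ} {γ γ' : ZMod L → V} {δ δ' : ZMod L → Fin 4} {S S' : Set V}

private theorem G6_bool : ∀ (m0 m1 m2 m3 : Bool) (e a : Fin 4),
    (∀ d : Fin 4, (![m0, m1, m2, m3] d ≠ ![m0, m1, m2, m3] (d + 3)) ↔ (d = e ∨ d = a + 2)) → e ≠ a + 2 →
      ![m0, m1, m2, m3] (a + 1) = true → ![m0, m1, m2, m3] e = true := by
  decide

private theorem G6_prop (m : Fin 4 → Prop) (e a : Fin 4)
    (h : ∀ d : Fin 4, ¬ (m d ↔ m (d + 3)) ↔ (d = e ∨ d = a + 2)) (hne : e ≠ a + 2) (ha : m (a + 1)) : m e := by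
  classical
  have hv : ∀ d : Fin 4, ![decide (m 0), decide (m 1), decide (m 2), decide (m 3)] d = decide (m d) := by
    intro d
    fin_cases d <;> rfl
  have h1 := G6_bool (decide (m 0)) (decide (m 1)) (decide (m 2)) (decide (m 3)) e a (by
    intro d
    rw [hv, hv, ← h d]
    by_cases h2 : m d <;> by_cases h3 : m (d + 3) <;> simp [h2, h3]) hne (by
    rw [hv]
    exact decide_eq_true ha)
  rw [hv] at h1
  exact of_decide_eq_true h1

theorem left_step (hP : Pgn L γ δ) (hS : ∀ p d, BE S p d ↔ PE γ δ p d) (i : ZMod L) (h : γ i + co (δ i) ∈ S) :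
    γ (i + 1) + co (δ (i + 1)) ∈ S := by
  refine G6_prop (fun j => γ (i + 1) + co j ∈ S) (δ (i + 1)) (δ i) ?_ (hP.back i) ?_
  · intro d
    have h1 := PE_at hP (i + 1) d
    rw [add_sub_cancel_right] at h1
    exact (hS (γ (i + 1)) d).trans h1
  · show γ (i + 1) + co (δ i + 1) ∈ S
    rw [hP.step, add_assoc, vec_co_left]
    exact h

private theorem G6_left_all (hP : Pgn L γ δ) (hS : ∀ p d, BE S p d ↔ PE γ δ p d) (i0 : ZMod L)
    (h : γ i0 + co (δ i0) ∈ S) (i : ZMod L) : γ i + co (δ i) ∈ S := by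
  have hL : NeZero L := ⟨by have := hP.three; omega⟩
  have key : ∀ n : ℕ, γ (i0 + (n : ZMod L)) + co (δ (i0 + (n : ZMod L))) ∈ S := by
    intro n
    induction n with
    | zero => simpa using h
    | succ n ih =>
      have := left_step hP hS _ ih
      have e : i0 + (n : ZMod L) + 1 = i0 + ((n + 1 : ℕ) : ZMod L) := by push_cast; ring
      rwa [e] at this
  have h1 := key (i - i0).val
  rw [ZMod.natCast_zmod_val, add_sub_cancel] at h1
  exact h1

theorem ring_of_left (hP : Pgn L γ δ) (hS : ∀ p d, BE S p d ↔ PE γ δ p d) (h : γ 0 + co (δ 0) ∈ S) : Ring S L γ δ :=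
  ⟨hP, hS, G6_left_all hP hS 0 h⟩

theorem exists_ring' (hP : Pgn L γ δ) (hS : ∀ p d, BE S p d ↔ PE γ δ p d) :
    ∃ (γ' : ZMod L → V) (δ' : ZMod L → Fin 4), Ring S L γ' δ' := by
  by_cases h : γ 0 + co (δ 0) ∈ S
  · exact ⟨γ, δ, ring_of_left hP hS h⟩
  · have hr : γ 0 + co (δ 0 + 3) ∈ S := by
      have h1 : BE S (γ 0) (δ 0) := (hS _ _).2 ⟨0, Or.inl ⟨rfl, rfl⟩⟩
      unfold BE at h1
      by_contra h2
      exact h1 ⟨fun h3 => absurd h3 h, fun h3 => absurd h3 h2⟩
    have hP' : Pgn L (fun i => γ (-i)) (fun i => δ (-i - 1) + 2) := by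
      refine ⟨hP.three, fun a b hab => neg_injective (hP.inj hab), fun i => ?_⟩
      have h1 := hP.step (-i - 1)
      rw [sub_add_cancel] at h1
      show γ (-(i + 1)) = γ (-i) + vec (δ (-i - 1) + 2)
      have e : -(i + 1) = -i - 1 := by ring
      rw [e, h1, add_assoc, vec_back, add_zero]
    have hS' : ∀ p d, BE S p d ↔ PE (fun i => γ (-i)) (fun i => δ (-i - 1) + 2) p d := by
      intro p d
      rw [hS]
      constructor
      · rintro ⟨i, ⟨h1, h2⟩ | ⟨h1, h2⟩⟩
        · refine ⟨-i - 1, Or.inr ⟨?_, ?_⟩⟩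
          · show γ (-(-i - 1 + 1)) = p
            have e : -(-i - 1 + 1) = i := by ring
            rw [e, h1]
          · show δ (-(-i - 1) - 1) + 2 + 2 = d
            have e : -(-i - 1) - 1 = i := by ring
            rw [e, d22, h2]
        · refine ⟨-i - 1, Or.inl ⟨?_, ?_⟩⟩
          · show γ (-(-i - 1)) = p
            have e : -(-i - 1) = i + 1 := by ring
            rw [e, h1]
          · show δ (-(-i - 1) - 1) + 2 = d
            have e : -(-i - 1) - 1 = i := by ring
            rw [e, h2]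
      · rintro ⟨i, ⟨h1, h2⟩ | ⟨h1, h2⟩⟩
        · refine ⟨-i - 1, Or.inr ⟨?_, h2⟩⟩
          rw [sub_add_cancel]
          exact h1
        · refine ⟨-i - 1, Or.inl ⟨?_, ?_⟩⟩
          · have e : -i - 1 = -(i + 1) := by ring
            rw [e]
            exact h1
          · rw [← h2]
            show δ (-i - 1) = δ (-i - 1) + 2 + 2
            rw [d22]
    refine ⟨_, _, hP', hS', G6_left_all hP' hS' (-1) ?_⟩
    show γ (-(-1)) + co (δ (-(-1) - 1) + 2) ∈ S
    have e1 : -(-1 : ZMod L) = 0 + 1 := by ring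
    have e2 : -(-1 : ZMod L) - 1 = 0 := by ring
    rw [e2, e1, hP.step, add_assoc, vec_co_right]
    exact hr

theorem Ring.right (h : Ring S L γ δ) (i : ZMod L) : γ i + co (δ i + 3) ∉ S := by
  intro h1
  have h2 : BE S (γ i) (δ i) := (h.bd _ _).2 ⟨i, Or.inl ⟨rfl, rfl⟩⟩
  exact h2 ⟨fun _ => h1, fun _ => h.left i⟩

theorem Ring.perim (h : Ring S L γ δ) : perim S = L := by
  have hL : NeZero L := ⟨by have := h.pgn.three; omega⟩
  have hinj : Function.Injective (fun i : ZMod L => (γ i + co (δ i), γ i + co (δ i + 3))) := by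
    intro i j hij
    have h1 : γ i + co (δ i) = γ j + co (δ j) := congrArg Prod.fst hij
    have h2 : γ i + co (δ i + 3) = γ j + co (δ j + 3) := congrArg Prod.snd hij
    have h3 : δ i = δ j := by
      apply side_inj
      have h4 : (γ i + co (δ i)) - (γ i + co (δ i + 3)) = (γ j + co (δ j)) - (γ j + co (δ j + 3)) := by rw [h1, h2]
      rwa [add_sub_add_left_eq_sub, add_sub_add_left_eq_sub] at h4
    rw [h3] at h1
    exact h.pgn.inj (add_right_cancel h1)
  have hset : {e : V × V | e.1 ∈ S ∧ e.2 ∉ S ∧ |e.1.1 - e.2.1| + |e.1.2 - e.2.2| = 1} =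
      (fun i : ZMod L => (γ i + co (δ i), γ i + co (δ i + 3))) '' Set.univ := by
    ext ⟨c, c'⟩
    constructor
    · rintro ⟨h1, h2, h3⟩
      obtain ⟨p, d, hc, hc'⟩ := (adj_edge c c').1 h3
      have h1' : p + co d ∈ S := hc ▸ h1
      have h2' : p + co (d + 3) ∉ S := hc' ▸ h2
      have hb : BE S p d := fun h4 => h2' (h4.1 h1')
      obtain ⟨i, ⟨h5, h6⟩ | ⟨h5, h6⟩⟩ := (h.bd p d).1 hb
      · refine ⟨i, Set.mem_univ _, ?_⟩
        show (γ i + co (δ i), γ i + co (δ i + 3)) = (c, c')
        rw [h5, h6, hc, hc']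
      · exfalso
        rw [← h5, ← h6, h.pgn.step, add_assoc, vec_co_right] at h1'
        exact h.right i h1'
    · rintro ⟨i, -, hi⟩
      have h1 : γ i + co (δ i) = c := congrArg Prod.fst hi
      have h2 : γ i + co (δ i + 3) = c' := congrArg Prod.snd hi
      refine ⟨?_, ?_, ?_⟩
      · show c ∈ S
        rw [← h1]
        exact h.left i
      · show c' ∉ S
        rw [← h2]
        exact h.right i
      · exact (adj_edge c c').2 ⟨γ i, δ i, h1.symm, h2.symm⟩
  unfold Pool.Agent.PT.perim
  rw [hset, Set.ncard_image_of_injective _ hinj, Set.ncard_univ, Nat.card_zmod]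

theorem Poly.exists_ring (h : Poly S) :
    ∃ (γ : ZMod (Pool.Agent.PT.perim S) → V) (δ : ZMod (Pool.Agent.PT.perim S) → Fin 4),
      Ring S (Pool.Agent.PT.perim S) γ δ := by
  obtain ⟨L, γ, δ, hP, hS⟩ := h.exists_pgn
  obtain ⟨γ', δ', h'⟩ := exists_ring' hP hS
  have e := h'.perim
  subst e
  exact ⟨γ', δ', h'⟩

theorem Ring.poly (h : Ring S L γ δ) (hf : S.Finite) : Poly S := poly_of_pgn h.pgn hf h.bd

/-- the boundary edges at `γ i` whose left side is in `S` -/
theorem Ring.dir_unique (h : Ring S L γ δ) (i : ZMod L) {d : Fin 4} (hd : BE S (γ i) d) (hl : γ i + co d ∈ S) :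
    d = δ i := by
  rcases (PE_at h.pgn i d).1 ((h.bd _ _).1 hd) with h1 | h1
  · exact h1
  · exfalso
    have h2 := h.pgn.step (i - 1)
    rw [sub_add_cancel] at h2
    rw [h1, h2, add_assoc, vec_co_right] at hl
    exact h.right (i - 1) hl

theorem Ring.unique (h : Ring S L γ δ) (h' : Ring S L γ' δ') (h0 : γ 0 = γ' 0) : γ = γ' ∧ δ = δ' := by
  have hL : NeZero L := ⟨by have := h.pgn.three; omega⟩
  have hd : ∀ i, γ i = γ' i → δ i = δ' i := by
    intro i hi
    symm
    apply h.dir_unique i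
    · rw [hi]
      exact (h'.bd _ _).2 ⟨i, Or.inl ⟨rfl, rfl⟩⟩
    · rw [hi]
      exact h'.left i
  have key : ∀ n : ℕ, γ (n : ZMod L) = γ' (n : ZMod L) := by
    intro n
    induction n with
    | zero => simpa using h0
    | succ n ih =>
      push_cast
      rw [h.pgn.step, h'.pgn.step, ih, hd _ ih]
  have hg : ∀ i, γ i = γ' i := by
    intro i
    have := key i.val
    rwa [ZMod.natCast_zmod_val] at this
  exact ⟨funext hg, funext fun i => hd i (hg i)⟩

end Pool.Agent.PT
end

section

/-!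
# Definitions for the block C (lower bounds: polyominoes between two paths)

`Conf m w`: a bridge of height at most `2 m` whose end point has height at most `m`. `Pth M w`: a path from the origin to its
end point inside the strip between them. `WE w p d`: the edge from `p` in the direction `d` is an edge of the walk `w` (in one
of the two directions). `cr w x y`: the number mod 2 of the horizontal edges of `w` over the column `x` at a height at most `y`;
`ind w p d`: the number mod 2 of the edges of `w` which are the edge `(p, d)`. `reg A B H`: the cells above `A` and not above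
`B + (0, H)`. `cw A B h`: the boundary word of `reg A B h`.
-/

set_option autoImplicit false

namespace Pool.Agent.PT

/-- a bridge of height at most `2 m` whose end point has height at most `m` -/
structure Conf (m : ℕ) (w : List (Fin 4)) : Prop where
  bridge : Bridge w
  hgt : ∀ i, |(pt w i).2| ≤ 2 * (m : ℤ)
  fin : |(en w).2| ≤ (m : ℤ)

/-- a path from the origin to its end point inside the strip between them, with heights at most `M` -/
structure Pth (M : ℤ) (w : List (Fin 4)) : Prop where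
  saw : Saw w
  pos : 0 < (en w).1
  str : ∀ i, 0 < i → i < w.length → 0 < (pt w i).1 ∧ (pt w i).1 < (en w).1
  hgt : ∀ i, |(pt w i).2| ≤ M

/-- the edge `(p, d)` is an edge of the walk `w` -/
def WE (w : List (Fin 4)) (p : V) (d : Fin 4) : Prop :=
  ∃ i < w.length, (pt w i = p ∧ w.getD i 0 = d) ∨ (pt w (i + 1) = p ∧ w.getD i 0 + 2 = d)

open Classical in
/-- `1` if `P` is true, `0` otherwise -/
noncomputable def on (P : Prop) : ZMod 2 := if P then 1 else 0

/-- the edge `(p, d)` is a horizontal edge over the column `x`, at a height at most `y` -/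
def Over (p : V) (d : Fin 4) (x y : ℤ) : Prop := ((d = 0 ∧ p.1 = x) ∨ (d = 2 ∧ p.1 = x + 1)) ∧ p.2 ≤ y

/-- the number mod 2 of the horizontal edges of `w` over the column `x` at a height at most `y` -/
noncomputable def cr (w : List (Fin 4)) (x y : ℤ) : ZMod 2 :=
  ∑ i ∈ Finset.range w.length, on (Over (pt w i) (w.getD i 0) x y)

/-- the number mod 2 of the edges of `w` which are the edge `(p, d)` -/
noncomputable def ind (w : List (Fin 4)) (p : V) (d : Fin 4) : ZMod 2 :=
  ∑ i ∈ Finset.range w.length, on ((pt w i = p ∧ w.getD i 0 = d) ∨ (pt w (i + 1) = p ∧ w.getD i 0 + 2 = d))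

/-- the cells of the strip which are above `A` and not above `B + (0, H)` -/
def reg (A B : List (Fin 4)) (H : ℤ) : Set V :=
  {c | 0 ≤ c.1 ∧ c.1 < (en A).1 ∧ cr A c.1 c.2 = 1 ∧ cr B c.1 (c.2 - H) = 0}

/-- the edges of the vertical segment from the origin to `(0, H)` -/
def VE (H : ℤ) (q : V) (d : Fin 4) : Prop :=
  q.1 = 0 ∧ ((d = 1 ∧ 0 ≤ q.2 ∧ q.2 < H) ∨ (d = 3 ∧ 0 < q.2 ∧ q.2 ≤ H))

/-- the boundary word of `reg A B h`: along `A`, up, back along `B`, down -/
def cw (A B : List (Fin 4)) (h : ℕ) : List (Fin 4) :=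
  A ++ (List.replicate h 1 ++ (rv B ++ List.replicate h 3))

theorem pt_getD (w : List (Fin 4)) {i : ℕ} (h : i < w.length) : pt w (i + 1) = pt w i + vec (w.getD i 0) := by
  rw [pt_succ w h]
  simp [List.getD_eq_getElem?_getD, h]

end Pool.Agent.PT
end

section

/-!
# TASK G7: the word of the boundary, counting

`ZMod L` has `NeZero L` because of `3 ≤ L`. (`pt_wordOf`) induction on `i`. (`loc_wordOf`) for `n < L` the points of `(w.drop s).take n` are
`γ (s + i) - γ s`, `i ≤ n` (for `s + i ≤ L`; the factor is shorter if `s + n > L`), different because `n < L`.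
(`eq_of_word`) `γ' i = γ i + t` with `t = γ' 0 - γ 0` for all `i` (induction), so `BE S' p d ↔ BE S (p - t) d`, `S' = shift t S` (`BE_ext`,
`BE_shift`), `t = 0` (`normal_shift`).
(`ncard_le_words`) choose for every `S ∈ X` a ring as in `hX`; the map `S ↦ wordOf δ` is injective (`wordOf_inj`, `eq_of_word`); the set of
the words of length `L` is finite (`List.finite_length_eq`).
(`cntAll_le`) the words `w` of length `L + 1` with `Loc w` are mapped to `w.take L`, which is self-avoiding, and a word has at most four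
extensions by one letter.
(`allS_finite`) `ncard_le_words` with `Q = fun _ => True` and `Poly.exists_ring`. (`areaS_finite`) `perim S ≤ 4 * S.ncard` (each cell is in at most four pairs), so the set is contained
in the union of the `allS L`, `L ≤ 4 n`.
-/

set_option autoImplicit false

namespace Pool.Agent.PT

variable {L : ℕ} {γ γ' : ZMod L → V} {δ δ' : ZMod L → Fin 4} {S S' : Set V}

private theorem G7_word (δ : ZMod L → Fin 4) :
    wordOf δ = (List.range L).map (fun i : ℕ => δ (Nat.cast i)) := by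
  unfold wordOf
  rw [bind_pure_comp, List.map_eq_map, List.map_map]
  rfl

theorem wordOf_length (δ : ZMod L → Fin 4) : (wordOf δ).length = L := by
  rw [G7_word, List.length_map, List.length_range]

theorem wordOf_getD (δ : ZMod L → Fin 4) {i : ℕ} (hi : i < L) : (wordOf δ).getD i 0 = δ (i : ZMod L) := by
  rw [G7_word, List.getD_eq_getElem _ _ (by simpa using hi)]
  simp

theorem wordOf_inj (hL : L ≠ 0) (h : wordOf δ = wordOf δ') : δ = δ' := by
  have : NeZero L := ⟨hL⟩
  funext i
  have h1 := wordOf_getD δ (ZMod.val_lt i)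
  have h2 := wordOf_getD δ' (ZMod.val_lt i)
  rw [ZMod.natCast_zmod_val] at h1 h2
  rw [← h1, ← h2, h]

private theorem G7_pt_succ (w : List (Fin 4)) {i : ℕ} (hi : i < w.length) :
    pt w (i + 1) = pt w i + vec (w.getD i 0) := by
  unfold pt
  rw [List.take_add_one, List.map_append, List.sum_append, List.getD_eq_getElem _ _ hi,
    List.getElem?_eq_getElem hi]
  simp

private theorem G7_pt_factor (w : List (Fin 4)) {s n i : ℕ} (hi : i ≤ n) :
    pt ((w.drop s).take n) i = pt w (s + i) - pt w s := by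
  unfold pt
  rw [List.take_take, min_eq_left hi, List.take_add, List.map_append, List.sum_append]
  abel

theorem pt_wordOf (hP : Pgn L γ δ) {i : ℕ} (hi : i ≤ L) : pt (wordOf δ) i = γ (i : ZMod L) - γ 0 := by
  induction i with
  | zero => simp [pt]
  | succ i ih =>
    rw [G7_pt_succ _ (by rw [wordOf_length]; omega), ih (by omega), wordOf_getD δ (by omega)]
    push_cast
    rw [hP.step]
    abel

theorem loc_wordOf (hP : Pgn L γ δ) : Loc (wordOf δ) := by
  intro s n hn i hi j hj hij
  rw [wordOf_length] at hn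
  have hlen : (((wordOf δ).drop s).take n).length = min n (L - s) := by
    rw [List.length_take, List.length_drop, wordOf_length]
  rw [hlen] at hi hj
  rw [G7_pt_factor _ (by omega), G7_pt_factor _ (by omega)] at hij
  by_cases hs : s ≤ L
  · rw [pt_wordOf hP (i := s + i) (by omega), pt_wordOf hP (i := s + j) (by omega)] at hij
    have h1 : γ ((s + i : ℕ) : ZMod L) = γ ((s + j : ℕ) : ZMod L) := by
      exact sub_left_inj.1 (sub_left_inj.1 hij)
    have h2 := hP.inj h1
    rw [ZMod.natCast_eq_natCast_iff] at h2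
    have h3 : i ≡ j [MOD L] := Nat.ModEq.add_left_cancel' s h2
    exact Nat.ModEq.eq_of_lt_of_lt h3 (by omega) (by omega)
  · omega

theorem eq_of_word (h : Ring S L γ δ) (h' : Ring S' L γ' δ') (hf : S.Finite) (hf' : S'.Finite) (hn : Normal S)
    (hn' : Normal S') (hδ : δ = δ') : S = S' := by
  subst hδ
  have : NeZero L := ⟨by have := h.pgn.three; omega⟩
  have hγ : ∀ i : ℕ, γ' (i : ZMod L) = γ (i : ZMod L) + (γ' 0 - γ 0) := by
    intro i
    induction i with
    | zero => simp
    | succ i ih =>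
      push_cast
      rw [h'.pgn.step, h.pgn.step, ih]
      abel
  have hγ' : ∀ i : ZMod L, γ' i = γ i + (γ' 0 - γ 0) := by
    intro i
    have := hγ i.val
    rwa [ZMod.natCast_zmod_val] at this
  obtain ⟨t, ht⟩ : ∃ t, ∀ i : ZMod L, γ' i = γ i + t := ⟨_, hγ'⟩
  have hS : S' = shift t S := by
    have hfs : (shift t S).Finite := hf.image _
    apply BE_ext hf' hfs
    intro p d
    rw [BE_shift, h.bd, h'.bd]
    unfold PE
    simp only [ht, eq_sub_iff_add_eq]
  rw [hS] at hn'
  rw [hS, normal_shift hn hn', shift_zero]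

private theorem G7_fin (L : ℕ) (Q : List (Fin 4) → Prop) :
    {w : List (Fin 4) | w.length = L ∧ Q w}.Finite :=
  (List.finite_length_eq (Fin 4) L).subset fun _ h => h.1

theorem ncard_le_words (L : ℕ) (X : Set (Set V)) (Q : List (Fin 4) → Prop)
    (hX : ∀ S ∈ X, Poly S ∧ Normal S ∧
      ∃ (γ : ZMod L → V) (δ : ZMod L → Fin 4), Ring S L γ δ ∧ Q (wordOf δ)) :
    X.Finite ∧ X.ncard ≤ {w : List (Fin 4) | w.length = L ∧ Loc w ∧ Q w}.ncard := by
  classical
  have hch : ∀ S, ∃ w : List (Fin 4), S ∈ X →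
      ∃ (γ : ZMod L → V) (δ : ZMod L → Fin 4), Ring S L γ δ ∧ Q (wordOf δ) ∧ w = wordOf δ := by
    intro S
    by_cases hS : S ∈ X
    · obtain ⟨_, _, γ, δ, h1, h2⟩ := hX S hS
      exact ⟨wordOf δ, fun _ => ⟨γ, δ, h1, h2, rfl⟩⟩
    · exact ⟨[], fun h => absurd h hS⟩
  choose w hw using hch
  have hfin : {w : List (Fin 4) | w.length = L ∧ Loc w ∧ Q w}.Finite := G7_fin L _
  have hmaps : ∀ S ∈ X, w S ∈ {w : List (Fin 4) | w.length = L ∧ Loc w ∧ Q w} := by
    intro S hS
    obtain ⟨γ, δ, h1, h2, h3⟩ := hw S hS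
    rw [h3]
    exact ⟨wordOf_length δ, loc_wordOf h1.pgn, h2⟩
  have hinj : Set.InjOn w X := by
    intro S hS S' hS' he
    obtain ⟨γ, δ, h1, h2, h3⟩ := hw S hS
    obtain ⟨γ', δ', h1', h2', h3'⟩ := hw S' hS'
    rw [h3, h3'] at he
    have hL : L ≠ 0 := by
      have := h1.pgn.three
      omega
    exact eq_of_word h1 h1' (hX S hS).1.fin (hX S' hS').1.fin (hX S hS).2.1 (hX S' hS').2.1
      (wordOf_inj hL he)
  exact ⟨Set.Finite.of_injOn hmaps hinj hfin, Set.ncard_le_ncard_of_injOn w hmaps hinj hfin⟩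

private theorem G7_all (L : ℕ) : ∀ S ∈ allS L, Poly S ∧ Normal S ∧
    ∃ (γ : ZMod L → V) (δ : ZMod L → Fin 4), Ring S L γ δ ∧ (fun _ => True) (wordOf δ) := by
  rintro S ⟨h1, h2, h3⟩
  refine ⟨h1, h2, ?_⟩
  have h4 := h1.exists_ring
  rw [h3] at h4
  obtain ⟨γ, δ, h5⟩ := h4
  exact ⟨γ, δ, h5, trivial⟩

theorem allS_finite (L : ℕ) : (allS L).Finite :=
  (ncard_le_words L (allS L) (fun _ => True) (G7_all L)).1

theorem cntAll_le (L : ℕ) : cntAll (L + 1) ≤ 4 * cs L := by
  classical
  have h1 := (ncard_le_words (L + 1) (allS (L + 1)) (fun _ => True) (G7_all (L + 1))).2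
  have h2 : {w : List (Fin 4) | w.length = L + 1 ∧ Loc w ∧ True}.ncard ≤
      ({w : List (Fin 4) | w.length = L ∧ Saw w} ×ˢ (Set.univ : Set (Fin 4))).ncard := by
    apply Set.ncard_le_ncard_of_injOn (fun w => (w.take L, w.getD L 0)) ?_ ?_
      ((G7_fin L _).prod Set.finite_univ)
    · rintro w ⟨h3, h4, _⟩
      refine ⟨⟨?_, ?_⟩, Set.mem_univ _⟩
      · change (w.take L).length = L
        rw [List.length_take, h3]
        omega
      · have := h4 0 L (by omega)
        rwa [List.drop_zero] at this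
    · rintro w ⟨h3, _, _⟩ w' ⟨h3', _, _⟩ he
      have he1 : w.take L = w'.take L := congrArg Prod.fst he
      have he2 : w.getD L 0 = w'.getD L 0 := congrArg Prod.snd he
      have e1 : w = w.take L ++ [w.getD L 0] := by
        conv_lhs => rw [← List.take_append_drop L w]
        rw [List.getD_eq_getElem _ _ (by omega), List.drop_eq_getElem_cons (by omega),
          List.drop_of_length_le (by omega)]
      have e2 : w' = w'.take L ++ [w'.getD L 0] := by
        conv_lhs => rw [← List.take_append_drop L w']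
        rw [List.getD_eq_getElem _ _ (by omega), List.drop_eq_getElem_cons (by omega),
          List.drop_of_length_le (by omega)]
      rw [e1, e2, he1, he2]
  rw [Set.ncard_prod, Set.ncard_univ, Nat.card_fin] at h2
  unfold cntAll cs
  omega

/-- for every area the set of the polyominoes is finite -/
theorem areaS_finite (n : ℕ) : {S | Poly S ∧ Normal S ∧ S.ncard = n}.Finite := by
  have hper : ∀ S : Set V, S.Finite → perim S ≤ 4 * S.ncard := by
    intro S hS
    unfold perim
    have h1 : {e : V × V | e.1 ∈ S ∧ e.2 ∉ S ∧ |e.1.1 - e.2.1| + |e.1.2 - e.2.2| = 1} ⊆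
        (fun x : V × Fin 4 => (x.1, x.1 + vec x.2)) '' (S ×ˢ (Set.univ : Set (Fin 4))) := by
      rintro ⟨c, c'⟩ ⟨h2, _, h3⟩
      obtain ⟨d, hd⟩ := (adj_iff c c').1 h3
      exact ⟨(c, d), ⟨h2, Set.mem_univ _⟩, by rw [hd]⟩
    have hfin : (S ×ˢ (Set.univ : Set (Fin 4))).Finite := hS.prod Set.finite_univ
    have h2 := Set.ncard_le_ncard h1 (hfin.image _)
    have h3 := Set.ncard_image_le (f := fun x : V × Fin 4 => (x.1, x.1 + vec x.2)) hfin
    rw [Set.ncard_prod, Set.ncard_univ, Nat.card_fin] at h3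
    omega
  have hsub : {S | Poly S ∧ Normal S ∧ S.ncard = n} ⊆ ⋃ L ∈ Set.Iic (4 * n), allS L := by
    rintro S ⟨h1, h2, h3⟩
    rw [Set.mem_iUnion₂]
    refine ⟨perim S, ?_, h1, h2, rfl⟩
    have := hper S h1.fin
    rw [h3] at this
    exact this
  exact ((Set.finite_Iic (4 * n)).biUnion fun L _ => allS_finite L).subset hsub

end Pool.Agent.PT
end
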