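import Pool.Agent.Lib.MP_ed987a_lc.Mg.G006
import Pool.Agent.Lib.MP_ed987a_lc.PT.M1

section

/-!
# TASK PT C1: confined bridges (greedy reflections)

(`conf_step`) `Conf m W`, `Bridge b`, `b.length = m`. All `|(pt b i).2| ≤ m` (`pt_snd_le`: `|(pt b i).2| ≤ b.length`, induction, `pt_min`), also for
`ry b` (`pt_ry`, `en_ry`). Let `y = (en W).2`, `|y| ≤ m`, `z = (en b).2`, `|z| ≤ m`. One of `|y + z| ≤ m`, `|y - z| ≤ m` is true (the one with opposite
signs). `Bridge.append`, `Bridge.ry`. Heights of `W ++ b`: `pt_append_left`, `pt_append_right` (every `i` is `≤ W.length` or `W.length + j`):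
`|y + (pt b j).2| ≤ m + m`. (`conf_count`) induction on `k`. `k = 0`: the set contains `[]` (`Bridge []`: no `i` with `0 < i ≤ 0`; `Saw []`), so its `ncard` is at least `1`.
Step: the map `(W, b) ↦ W ++ (if |(en W).2 + (en b).2| ≤ m then b else ry b)` from `X k ×ˢ B` (`X k` the set for `k`, `B` the bridges of length
`m`) into `X (k + 1)`. A value `Z` has at most two preimages: `W = Z.take (k * m)`, `b = Z.drop (k * m)` or `b = ry (Z.drop (k * m))`
(`ry_ry`). So `(X k).ncard * bs m ≤ 2 * (X (k + 1)).ncard` (`Set.ncard_prod`; `Finset.card_le_mul_card_image` after `Set.Finite.toFinset`, the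
sets are finite by `fin_len`). `(k + 1) * m = k * m + m`.
-/

set_option autoImplicit false

namespace Pool.Agent.PT

private theorem C1_sum (u : List (Fin 4)) : |((u.map vec).sum).2| ≤ (u.length : ℤ) := by
  induction u with
  | nil => simp
  | cons d u ih =>
    rw [List.map_cons, List.sum_cons, List.length_cons, Prod.snd_add]
    have h1 : |(vec d).2| ≤ 1 := by
      revert d
      decide
    have h2 := abs_add_le (vec d).2 ((u.map vec).sum).2
    push_cast
    linarith

theorem pt_snd_le (w : List (Fin 4)) (i : ℕ) : |(pt w i).2| ≤ (w.length : ℤ) := by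
  have h1 := C1_sum (w.take i)
  have h2 : (w.take i).length ≤ w.length := by
    rw [List.length_take]
    exact min_le_right _ _
  have h3 : ((w.take i).length : ℤ) ≤ (w.length : ℤ) := by exact_mod_cast h2
  exact h1.trans h3

theorem conf_nil (m : ℕ) : Conf m [] := by
  refine ⟨⟨?_, ?_⟩, ?_, ?_⟩
  · intro i hi j hj _
    simp only [List.length_nil] at hi hj
    omega
  · intro i hi hj
    simp only [List.length_nil] at hj
    omega
  · intro i
    rw [pt_of_le (Nat.zero_le i), en_nil]
    simp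
  · rw [en_nil]
    simp

private theorem C1_app {m : ℕ} {W b : List (Fin 4)} (hW : Conf m W) (hb : Bridge b)
    (hl : b.length = m) (h : |(en W).2 + (en b).2| ≤ (m : ℤ)) : Conf m (W ++ b) := by
  refine ⟨hW.bridge.append hb, ?_, ?_⟩
  · intro i
    rcases Nat.le_total i W.length with hi | hi
    · rw [pt_append_left _ _ hi]
      exact hW.hgt i
    · obtain ⟨j, rfl⟩ := Nat.exists_eq_add_of_le hi
      rw [pt_append_right, Prod.snd_add]
      have h1 := abs_add_le (en W).2 (pt b j).2
      have h2 := pt_snd_le b j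
      rw [hl] at h2
      have h3 := hW.fin
      linarith
  · rw [en_append, Prod.snd_add]
    exact h

theorem conf_step {m : ℕ} {W b : List (Fin 4)} (hW : Conf m W) (hb : Bridge b) (hl : b.length = m) :
    (|(en W).2 + (en b).2| ≤ (m : ℤ) → Conf m (W ++ b)) ∧ (¬ |(en W).2 + (en b).2| ≤ (m : ℤ) → Conf m (W ++ ry b)) := by
  refine ⟨C1_app hW hb hl, fun h => ?_⟩
  refine C1_app hW hb.ry (by rw [length_ry, hl]) ?_
  rw [en_ry]
  have h1 := hW.fin
  have h2 := pt_snd_le b b.length
  rw [pt_length, hl] at h2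
  rw [abs_le] at h h1 h2 ⊢
  constructor
  · by_contra hc
    apply h
    constructor <;> omega
  · by_contra hc
    apply h
    constructor <;> omega

private theorem C1_two (m k : ℕ) : {W : List (Fin 4) | W.length = k * m ∧ Conf m W}.ncard * bs m ≤
    2 * {W : List (Fin 4) | W.length = (k + 1) * m ∧ Conf m W}.ncard := by
  classical
  have hA := fin_len (k * m) (Conf m)
  have hB := fin_len m Bridge
  have hC := fin_len ((k + 1) * m) (Conf m)
  unfold bs
  rw [Set.ncard_eq_toFinset_card _ hA, Set.ncard_eq_toFinset_card _ hB,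
    Set.ncard_eq_toFinset_card _ hC, ← Finset.card_product]
  let f : List (Fin 4) × List (Fin 4) → List (Fin 4) := fun z =>
    z.1 ++ (if |(en z.1).2 + (en z.2).2| ≤ (m : ℤ) then z.2 else ry z.2)
  refine Finset.card_le_mul_card_image_of_maps_to (f := f) ?_ 2 ?_
  · rintro ⟨W, b⟩ hz
    rw [Finset.mem_product, Set.Finite.mem_toFinset, Set.Finite.mem_toFinset] at hz
    obtain ⟨⟨h1, h2⟩, h3, h4⟩ := hz
    rw [Set.Finite.mem_toFinset]
    have hst := conf_step h2 h4 h3
    show (W ++ (if |(en W).2 + (en b).2| ≤ (m : ℤ) then b else ry b)).length = (k + 1) * m ∧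
      Conf m (W ++ (if |(en W).2 + (en b).2| ≤ (m : ℤ) then b else ry b))
    split_ifs with hc
    · refine ⟨?_, hst.1 hc⟩
      rw [List.length_append, h1, h3]
      ring
    · refine ⟨?_, hst.2 hc⟩
      rw [List.length_append, length_ry, h1, h3]
      ring
  · intro Z _
    have hsub : (((hA.toFinset ×ˢ hB.toFinset).filter fun a => f a = Z)) ⊆
        {(Z.take (k * m), Z.drop (k * m)), (Z.take (k * m), ry (Z.drop (k * m)))} := by
      rintro ⟨W, b⟩ hz
      rw [Finset.mem_filter, Finset.mem_product, Set.Finite.mem_toFinset,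
        Set.Finite.mem_toFinset] at hz
      obtain ⟨⟨⟨h1, h2⟩, h3, h4⟩, rfl⟩ := hz
      have h5 : (f (W, b)).take (k * m) = W := List.take_left' h1
      have h6 : (f (W, b)).drop (k * m) =
          (if |(en W).2 + (en b).2| ≤ (m : ℤ) then b else ry b) := List.drop_left' h1
      rw [h5, h6, Finset.mem_insert, Finset.mem_singleton]
      split_ifs with hc
      · exact Or.inl rfl
      · right
        rw [ry_ry]
    exact (Finset.card_le_card hsub).trans Finset.card_le_two

theorem conf_count (m k : ℕ) : bs m ^ k ≤ 2 ^ k * {W : List (Fin 4) | W.length = k * m ∧ Conf m W}.ncard := by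
  induction k with
  | zero =>
    rw [pow_zero, pow_zero, one_mul]
    have h1 : ([] : List (Fin 4)) ∈ {W : List (Fin 4) | W.length = 0 * m ∧ Conf m W} :=
      ⟨by simp, conf_nil m⟩
    exact (Set.ncard_pos (fin_len _ _)).2 ⟨_, h1⟩
  | succ k ih =>
    have h1 := C1_two m k
    calc bs m ^ (k + 1) = bs m ^ k * bs m := pow_succ _ _
      _ ≤ 2 ^ k * {W : List (Fin 4) | W.length = k * m ∧ Conf m W}.ncard * bs m :=
          Nat.mul_le_mul_right _ ih
      _ = 2 ^ k * ({W : List (Fin 4) | W.length = k * m ∧ Conf m W}.ncard * bs m) := by ring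
      _ ≤ 2 ^ k * (2 * {W : List (Fin 4) | W.length = (k + 1) * m ∧ Conf m W}.ncard) :=
          Nat.mul_le_mul_left _ h1
      _ = _ := by rw [pow_succ]; ring

end Pool.Agent.PT
end

section

/-!
# TASK F1: the partner of a boundary edge

`S` has the boundary ring `γ, δ`; `t = m.cell '' S` is a copy which contains the right side of the edge `i` and not its left side.
(`exists_label`) `BE t (γ i) (δ i)`. `γ i = m.pnt p`, `δ i = m.dir d` (`pnt_surj`, `dir_surj`), so `BE S p d` (`BE_cell`) and `PE γ δ p d` (`hR.bd`):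
Case 1: `p = γ j`, `d = δ j`. Then `m.pnt (γ (j + 1)) = γ (i + 1)` (`pnt_vec`). `γ j + co (δ j) ∈ S` (`left`), so `γ i + co (m.quad (δ j)) ∈ t`
(`cell_co`). If `m.s = false` then `m.quad (δ j) = m.dir (δ j) = δ i`, so the left side of the edge `i` is in `t`, a contradiction. So `m.s = true` and
`δ i = m.r - δ j`.
Case 2: `p = γ (j + 1)`, `d = δ j + 2`. Then `γ j = p + vec d` (`vec_back`), so `m.pnt (γ j) = γ i + vec (δ i) = γ (i + 1)`. `γ j + co (δ j) = γ (j + 1) + co (δ j + 1) ∈ S`
(`vec_co_left`), so `γ i + co (m.quad (δ j + 1)) ∈ t`. If `m.s = true` then `m.quad (δ j + 1) = m.r - 1 - (δ j + 1) = m.r - (δ j + 2) = δ i`, a contradiction. So `m.s = false` and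
`δ i = δ j + 2 + m.r`.
(`Lb.next`) `Lb m i j`, `Lb m (i + 1) j'`: injectivity of `m.pnt` and `γ`.
-/

set_option autoImplicit false

namespace Pool.Agent.PT

variable {L : ℕ} {γ : ZMod L → V} {δ : ZMod L → Fin 4} {S : Set V}

/-- the motion `m` maps the edge `j` to the edge `i`, keeping the direction (reflections) or reversing it (rotations) -/
def Lb (γ : ZMod L → V) (δ : ZMod L → Fin 4) (m : Mot) (i j : ZMod L) : Prop :=
  (m.s = true ∧ m.pnt (γ j) = γ i ∧ m.pnt (γ (j + 1)) = γ (i + 1) ∧ δ i = m.r - δ j) ∨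
    (m.s = false ∧ m.pnt (γ (j + 1)) = γ i ∧ m.pnt (γ j) = γ (i + 1) ∧ δ i = δ j + (m.r + 2))

theorem exists_label (hR : Ring S L γ δ) (m : Mot) (i : ZMod L) (h1 : γ i + co (δ i + 3) ∈ m.cell '' S)
    (h2 : γ i + co (δ i) ∉ m.cell '' S) : ∃ j, Lb γ δ m i j := by
  obtain ⟨p, hp⟩ := pnt_surj m (γ i)
  obtain ⟨d, hd⟩ := dir_surj m (δ i)
  have hB : BE (m.cell '' S) (γ i) (δ i) := fun h => h2 (h.2 h1)
  have hB' : BE S p d := by
    rw [← hp, ← hd] at hB
    exact (BE_cell m S p d).1 hB
  obtain ⟨j, ⟨h3, h4⟩ | ⟨h3, h4⟩⟩ := (hR.bd p d).1 hB'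
  · -- same direction
    refine ⟨j, Or.inl ?_⟩
    have h5 : m.pnt (γ j) = γ i := by rw [h3, hp]
    have h6 : m.pnt (γ (j + 1)) = γ (i + 1) := by
      rw [hR.pgn.step j, hR.pgn.step i, pnt_vec, h5, h4, hd]
    have h7 : γ i + co (m.quad (δ j)) ∈ m.cell '' S := by
      rw [← h5, ← cell_co]
      exact ⟨_, hR.left j, rfl⟩
    have hs : m.s = true := by
      by_contra hs
      rw [Bool.not_eq_true] at hs
      apply h2
      have h8 : m.quad (δ j) = δ i := by
        rw [← hd, ← h4]
        simp [Mot.quad, Mot.dir, hs]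
      rwa [h8] at h7
    refine ⟨hs, h5, h6, ?_⟩
    rw [← hd, ← h4]
    simp [Mot.dir, hs]
  · refine ⟨j, Or.inr ?_⟩
    have h5 : m.pnt (γ (j + 1)) = γ i := by rw [h3, hp]
    have h9 : γ j = p + vec d := by
      rw [← h3, ← h4, hR.pgn.step j, add_assoc, vec_back, add_zero]
    have h6 : m.pnt (γ j) = γ (i + 1) := by
      rw [h9, hR.pgn.step i, pnt_vec, hp, hd]
    have h7 : γ i + co (m.quad (δ j + 1)) ∈ m.cell '' S := by
      rw [← h5, ← cell_co, hR.pgn.step j, add_assoc, vec_co_left]
      exact ⟨_, hR.left j, rfl⟩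
    have hs : m.s = false := by
      by_contra hs
      rw [Bool.not_eq_false] at hs
      apply h2
      have h8 : m.quad (δ j + 1) = δ i := by
        rw [← hd, ← h4]
        simp only [Mot.quad, Mot.dir, hs, if_true]
        generalize m.r = r
        generalize δ j = e
        revert r e
        decide
      rwa [h8] at h7
    refine ⟨hs, h5, h6, ?_⟩
    rw [← hd, ← h4]
    simp only [Mot.dir, hs]
    generalize m.r = r
    generalize δ j = e
    revert r e
    decide

theorem Lb.next (hR : Ring S L γ δ) {m : Mot} {i j j' : ZMod L} (h : Lb γ δ m i j) (h' : Lb γ δ m (i + 1) j') :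
    j' = if m.s then j + 1 else j - 1 := by
  rcases h with ⟨hs, h1, h2, -⟩ | ⟨hs, h1, h2, -⟩
  · rcases h' with ⟨-, h3, -⟩ | ⟨hs', -⟩
    · rw [hs, if_pos rfl]
      exact hR.pgn.inj (pnt_inj m (h3.trans h2.symm))
    · rw [hs] at hs'
      exact absurd hs' (by decide)
  · rcases h' with ⟨hs', -⟩ | ⟨-, h3, -⟩
    · rw [hs] at hs'
      exact absurd hs' (by decide)
    · have h4 : j' + 1 = j := hR.pgn.inj (pnt_inj m (h3.trans h2.symm))
      rw [hs, ← h4]
      simp

end Pool.Agent.PT
end
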