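import Pool.Agent.Lib.MP_ed987a_lc.Mg.G006

section

/-!
# TASK PT C3: the edges of a walk

(`WE_append`) the indices `i < u.length` and `i = u.length + j`, `j < v.length`: `pt_append_left` (also for `i + 1 ≤ u.length`), `pt_append_right`
(`u.length + j + 1 = u.length + (j + 1)`), `List.getD_append`, `List.getD_append_right`. (`WE_nil`) no index.
(`WE_rv`) the index `i` of `rv w` corresponds to the index `w.length - 1 - i` of `w`: `pt_rv` for `i` and `i + 1`, and
`(rv w).getD i 0 = w.getD (w.length - 1 - i) 0 + 2` (`List.getElem_map`, `List.getElem_reverse`), the two cases are interchanged (`d22`).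
(Alternative: induction on `w` with `rv (d :: w) = rv w ++ [d + 2]`, `WE_append`, `WE_single`.)
(`WE_rep1`) `pt (replicate h 1) i = (0, i)` for `i ≤ h` (induction), `(replicate h 1).getD i 0 = 1`; `d = 1`: `p = (0, i)`, `0 ≤ i < h`; `d = 3`: `p = (0, i + 1)`.
(`WE_rep3`) the same, `pt (replicate h 3) i = (0, -i)`; `d = 3`: `p = (0, -i)`; `d = 1`: `p = (0, -i - 1)`.
(`WE_cw`) `WE_append` three times; `en (rv B) = - en B` (`pt_rv` at `i = B.length`, `pt_length`); `p - en A - (0, h) + en B = p - (0, h)`.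
-/

set_option autoImplicit false

namespace Pool.Agent.PT

theorem WE_nil (p : V) (d : Fin 4) : ¬ WE [] p d := by
  rintro ⟨i, hi, _⟩
  simp at hi

theorem WE_append (u v : List (Fin 4)) (p : V) (d : Fin 4) : WE (u ++ v) p d ↔ WE u p d ∨ WE v (p - en u) d := by
  constructor
  · rintro ⟨i, hi, h⟩
    by_cases hu : i < u.length
    · left
      refine ⟨i, hu, ?_⟩
      rw [pt_append_left u v (by omega), pt_append_left u v (by omega), List.getD_append _ _ _ _ hu] at h
      exact h
    · right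
      obtain ⟨j, rfl⟩ : ∃ j, i = u.length + j := ⟨i - u.length, by omega⟩
      rw [List.length_append] at hi
      refine ⟨j, by omega, ?_⟩
      rw [pt_append_right, show u.length + j + 1 = u.length + (j + 1) by ring, pt_append_right,
        List.getD_append_right _ _ _ _ (by omega), Nat.add_sub_cancel_left] at h
      rcases h with ⟨h1, h2⟩ | ⟨h1, h2⟩
      · exact Or.inl ⟨by rw [← h1, add_sub_cancel_left], h2⟩
      · exact Or.inr ⟨by rw [← h1, add_sub_cancel_left], h2⟩
  · rintro (⟨i, hi, h⟩ | ⟨j, hj, h⟩)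
    · refine ⟨i, by rw [List.length_append]; omega, ?_⟩
      rw [pt_append_left u v (by omega), pt_append_left u v (by omega), List.getD_append _ _ _ _ hi]
      exact h
    · refine ⟨u.length + j, by rw [List.length_append]; omega, ?_⟩
      rw [pt_append_right, show u.length + j + 1 = u.length + (j + 1) by ring, pt_append_right,
        List.getD_append_right _ _ _ _ (by omega), Nat.add_sub_cancel_left]
      rcases h with ⟨h1, h2⟩ | ⟨h1, h2⟩
      · exact Or.inl ⟨by rw [h1, add_sub_cancel], h2⟩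
      · exact Or.inr ⟨by rw [h1, add_sub_cancel], h2⟩

private theorem C3_rvD (w : List (Fin 4)) {i j : ℕ} (h : i + j + 1 = w.length) :
    (rv w).getD i 0 = w.getD j 0 + 2 := by
  have h2 : j < w.length := by omega
  have h1 : i < (w.reverse.map fun d => d + 2).length := by
    rw [List.length_map, List.length_reverse]
    omega
  have h3 : w.length - 1 - i = j := by omega
  have h4 : rv w = w.reverse.map fun d => d + 2 := rfl
  rw [h4, List.getD_eq_getElem _ _ h1, List.getD_eq_getElem _ _ h2, List.getElem_map, List.getElem_reverse]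
  simp only [h3]

theorem WE_rv (w : List (Fin 4)) (p : V) (d : Fin 4) : WE (rv w) p d ↔ WE w (p + en w) d := by
  constructor
  · rintro ⟨i, hi, h⟩
    rw [length_rv] at hi
    refine ⟨w.length - 1 - i, by omega, ?_⟩
    rw [pt_rv w (by omega), pt_rv w (by omega), C3_rvD w (i := i) (j := w.length - 1 - i) (by omega)] at h
    have e1 : w.length - i = w.length - 1 - i + 1 := by omega
    have e2 : w.length - (i + 1) = w.length - 1 - i := by omega
    rw [e1, e2, d22] at h
    rcases h with ⟨h1, h2⟩ | ⟨h1, h2⟩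
    · exact Or.inr ⟨by rw [← h1, sub_add_cancel], h2⟩
    · exact Or.inl ⟨by rw [← h1, sub_add_cancel], h2⟩
  · rintro ⟨j, hj, h⟩
    refine ⟨w.length - 1 - j, by rw [length_rv]; omega, ?_⟩
    rw [pt_rv w (by omega), pt_rv w (by omega), C3_rvD w (i := w.length - 1 - j) (j := j) (by omega)]
    have e1 : w.length - (w.length - 1 - j) = j + 1 := by omega
    have e2 : w.length - (w.length - 1 - j + 1) = j := by omega
    rw [e1, e2, d22]
    rcases h with ⟨h1, h2⟩ | ⟨h1, h2⟩
    · exact Or.inr ⟨by rw [h1, add_sub_cancel_right], h2⟩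
    · exact Or.inl ⟨by rw [h1, add_sub_cancel_right], h2⟩

private theorem C3_getD (h i : ℕ) (hi : i < h) (c : Fin 4) : (List.replicate h c).getD i 0 = c :=
  List.getD_replicate _ hi

theorem pt_rep1 (h : ℕ) {i : ℕ} (hi : i ≤ h) : pt (List.replicate h 1) i = (0, (i : ℤ)) := by
  induction i with
  | zero => rw [pt_zero]; rfl
  | succ i ih =>
    rw [pt_getD _ (by rw [List.length_replicate]; omega), ih (by omega), C3_getD h i (by omega)]
    simp [vec]

theorem pt_rep3 (h : ℕ) {i : ℕ} (hi : i ≤ h) : pt (List.replicate h 3) i = (0, -(i : ℤ)) := by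
  induction i with
  | zero => rw [pt_zero]; rfl
  | succ i ih =>
    rw [pt_getD _ (by rw [List.length_replicate]; omega), ih (by omega), C3_getD h i (by omega)]
    simp [vec]
    ring

theorem en_rep1 (h : ℕ) : en (List.replicate h 1) = (0, (h : ℤ)) := by
  rw [← pt_length, List.length_replicate, pt_rep1 h le_rfl]

theorem en_rep3 (h : ℕ) : en (List.replicate h 3) = (0, -(h : ℤ)) := by
  rw [← pt_length, List.length_replicate, pt_rep3 h le_rfl]

theorem en_rv (w : List (Fin 4)) : en (rv w) = -en w := by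
  rw [← pt_length, length_rv, pt_rv w le_rfl, Nat.sub_self, pt_zero, zero_sub]

theorem WE_rep1 (h : ℕ) (p : V) (d : Fin 4) : WE (List.replicate h 1) p d ↔ VE h p d := by
  unfold WE VE
  rw [List.length_replicate]
  constructor
  · rintro ⟨i, hi, hh⟩
    rw [pt_rep1 h hi.le, pt_rep1 h hi, C3_getD h i hi] at hh
    rcases hh with ⟨rfl, rfl⟩ | ⟨rfl, rfl⟩
    · refine ⟨rfl, Or.inl ⟨rfl, ?_, ?_⟩⟩ <;> simp only <;> omega
    · refine ⟨rfl, Or.inr ⟨rfl, ?_, ?_⟩⟩ <;> simp only <;> push_cast <;> omega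
  · obtain ⟨x, y⟩ := p
    rintro ⟨h0, ⟨rfl, h1, h2⟩ | ⟨rfl, h1, h2⟩⟩
    · simp only at h0 h1 h2
      obtain ⟨i, rfl⟩ := Int.eq_ofNat_of_zero_le h1
      have hi : i < h := by omega
      refine ⟨i, hi, Or.inl ⟨?_, C3_getD h i hi _⟩⟩
      rw [pt_rep1 h hi.le, h0]
    · simp only at h0 h1 h2
      obtain ⟨i, hi1⟩ := Int.eq_ofNat_of_zero_le (show 0 ≤ y - 1 by omega)
      have hi : i < h := by omega
      refine ⟨i, hi, Or.inr ⟨?_, ?_⟩⟩
      · rw [pt_rep1 h hi, h0]
        push_cast
        rw [← hi1]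
        simp
      · rw [C3_getD h i hi]
        rfl

theorem WE_rep3 (h : ℕ) (p : V) (d : Fin 4) : WE (List.replicate h 3) p d ↔ VE h (p + (0, (h : ℤ))) d := by
  unfold WE VE
  rw [List.length_replicate]
  constructor
  · rintro ⟨i, hi, hh⟩
    rw [pt_rep3 h hi.le, pt_rep3 h hi, C3_getD h i hi] at hh
    rcases hh with ⟨rfl, rfl⟩ | ⟨rfl, rfl⟩
    · refine ⟨rfl, Or.inr ⟨rfl, ?_, ?_⟩⟩ <;> simp only [Prod.snd_add] <;> omega
    · refine ⟨rfl, Or.inl ⟨rfl, ?_, ?_⟩⟩ <;> simp only [Prod.snd_add] <;> push_cast <;> omega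
  · obtain ⟨x, y⟩ := p
    rintro ⟨h0, ⟨rfl, h1, h2⟩ | ⟨rfl, h1, h2⟩⟩
    · simp only [Prod.fst_add, Prod.snd_add, add_zero] at h0 h1 h2
      obtain ⟨i, hi1⟩ := Int.eq_ofNat_of_zero_le (show 0 ≤ -y - 1 by omega)
      have hi : i < h := by omega
      refine ⟨i, hi, Or.inr ⟨?_, ?_⟩⟩
      · rw [pt_rep3 h hi, h0]
        have h3 : (i : ℤ) = -y - 1 := hi1.symm
        push_cast
        rw [h3]
        simp
      · rw [C3_getD h i hi]
        rfl
    · simp only [Prod.fst_add, Prod.snd_add, add_zero] at h0 h1 h2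
      obtain ⟨i, hi1⟩ := Int.eq_ofNat_of_zero_le (show 0 ≤ -y by omega)
      have hi : i < h := by omega
      refine ⟨i, hi, Or.inl ⟨?_, C3_getD h i hi _⟩⟩
      rw [pt_rep3 h hi.le, h0]
      have h3 : (i : ℤ) = -y := hi1.symm
      rw [h3]
      simp

theorem WE_cw {A B : List (Fin 4)} (he : en A = en B) (h : ℕ) (p : V) (d : Fin 4) :
    WE (cw A B h) p d ↔ WE A p d ∨ WE B (p - (0, (h : ℤ))) d ∨ VE h p d ∨ VE h (p - en A) d := by
  unfold cw
  rw [WE_append, WE_append, WE_append, WE_rep1, WE_rv, WE_rep3, en_rep1, en_rv]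
  have e1 : p - en A - (0, (h : ℤ)) + en B = p - (0, (h : ℤ)) := by
    rw [he]
    abel
  have e2 : p - en A - (0, (h : ℤ)) - -en B + (0, (h : ℤ)) = p := by
    rw [he]
    abel
  rw [e1, e2]
  tauto

theorem WE_sym (w : List (Fin 4)) (p : V) (d : Fin 4) : WE w (p + vec d) (d + 2) ↔ WE w p d := by
  constructor
  · rintro ⟨i, hi, ⟨h1, h2⟩ | ⟨h1, h2⟩⟩
    · refine ⟨i, hi, Or.inr ⟨?_, ?_⟩⟩
      · rw [pt_getD w hi, h1, h2, add_assoc, vec_back, add_zero]
      · rw [h2, d22]
    · have h3 : w.getD i 0 = d := add_right_cancel h2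
      refine ⟨i, hi, Or.inl ⟨?_, h3⟩⟩
      rw [pt_getD w hi, h3] at h1
      exact add_right_cancel h1
  · rintro ⟨i, hi, ⟨h1, h2⟩ | ⟨h1, h2⟩⟩
    · refine ⟨i, hi, Or.inr ⟨?_, ?_⟩⟩
      · rw [pt_getD w hi, h1, h2]
      · rw [h2]
    · refine ⟨i, hi, Or.inl ⟨?_, ?_⟩⟩
      · rw [← h1, ← h2, pt_getD w hi, add_assoc, vec_back, add_zero]
      · rw [← h2, d22]

end Pool.Agent.PT
end

section

/-!
# TASK PT C2: paths in a strip

(`pth_of_conf`) `w = W ++ [0]`, `en w = en W + (1, 0)` (`en_append`, `en_cons`, `vec 0 = (1, 0)`). `Bridge W`: `0 < x ≤ (en W).1` for the points with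
`0 < i ≤ W.length`; `Bridge.en_nonneg`. For `i ≤ W.length`, `pt w i = pt W i` (`pt_append_left`), the last point is `en w`, its first coordinate is greater than all others, so `Saw w`.
Heights: the last one is `(en W).2`, `|(en W).2| ≤ m ≤ 2 m`; `pt_min` for the large `i`.
(`Pth.x_eq_zero`) from `str` and `pos` (`pt w w.length = en w`). (`Pth.first`) `w ≠ []` because `0 < (en w).1`, and `(pt w 1).1 > 0`
(`str` if `1 < w.length`, otherwise `pt w 1 = en w`), `pt w 1 = vec (w.getD 0 0)` (`pt_getD`, `pt_zero`), so `w.getD 0 0 = 0` (four cases).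
(`Pth.M_nonneg`) `|(pt w 0).2| = 0 ≤ M`.
-/

set_option autoImplicit false

namespace Pool.Agent.PT

private theorem C2_en (W : List (Fin 4)) : en (W ++ [0]) = en W + (1, 0) := by
  rw [en_append, en_cons, en_nil, add_zero]
  rfl

theorem pth_of_conf {m : ℕ} {W : List (Fin 4)} (h : Conf m W) : Pth (2 * (m : ℤ)) (W ++ [0]) := by
  have hen := C2_en W
  have hlen : (W ++ [0]).length = W.length + 1 := by simp
  have hnn := h.bridge.en_nonneg
  have hle : ∀ i ≤ W.length, (pt W i).1 ≤ (en W).1 := by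
    intro i hi
    rcases Nat.eq_zero_or_pos i with h0 | h0
    · rw [h0, pt_zero]
      exact hnn
    · exact (h.bridge.2 i h0 hi).2
  have hpt : ∀ i ≤ W.length, pt (W ++ [0]) i = pt W i := fun i hi => pt_append_left W [0] hi
  have hpt' : ∀ i, W.length + 1 ≤ i → pt (W ++ [0]) i = en W + (1, 0) := by
    intro i hi
    rw [pt_of_le (by rw [hlen]; exact hi), hen]
  have hx : (en W + (1, 0) : V).1 = (en W).1 + 1 := rfl
  have hy : (en W + (1, 0) : V).2 = (en W).2 := by
    show (en W).2 + 0 = (en W).2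
    ring
  constructor
  · intro i hi j hj hij
    rw [hlen] at hi hj
    rcases Nat.lt_or_ge W.length i with h1 | h1 <;> rcases Nat.lt_or_ge W.length j with h2 | h2
    · omega
    · rw [hpt' i h1, hpt j h2] at hij
      have h3 := congrArg Prod.fst hij
      rw [hx] at h3
      have := hle j h2
      omega
    · rw [hpt i h1, hpt' j h2] at hij
      have h3 := congrArg Prod.fst hij
      rw [hx] at h3
      have := hle i h1
      omega
    · rw [hpt i h1, hpt j h2] at hij
      exact h.bridge.1 i h1 j h2 hij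
  · rw [hen, hx]
    omega
  · intro i h0 h1
    rw [hlen] at h1
    rw [hpt i (by omega), hen, hx]
    have h2 := h.bridge.2 i h0 (by omega)
    exact ⟨h2.1, by omega⟩
  · intro i
    rcases Nat.lt_or_ge W.length i with h1 | h1
    · rw [hpt' i h1, hy]
      have := h.fin
      have h3 : (0 : ℤ) ≤ (m : ℤ) := Int.natCast_nonneg m
      omega
    · rw [hpt i h1]
      exact h.hgt i

variable {M : ℤ} {w : List (Fin 4)}

theorem Pth.M_nonneg (h : Pth M w) : 0 ≤ M := (abs_nonneg _).trans (h.hgt 0)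

theorem Pth.length_pos (h : Pth M w) : 0 < w.length := by
  rcases Nat.eq_zero_or_pos w.length with h0 | h0
  · have h1 := h.pos
    rw [List.length_eq_zero_iff.1 h0, en_nil] at h1
    exact absurd h1 (lt_irrefl _)
  · exact h0

/-- only the first point is on the left side of the strip -/
theorem Pth.x_pos (h : Pth M w) {i : ℕ} (hi : 0 < i) (hi' : i ≤ w.length) : 0 < (pt w i).1 := by
  rcases hi'.eq_or_lt with h1 | h1
  · rw [h1, pt_length]
    exact h.pos
  · exact (h.str i hi h1).1

/-- only the last point is on the right side of the strip -/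
theorem Pth.x_lt (h : Pth M w) {i : ℕ} (hi : i < w.length) : (pt w i).1 < (en w).1 := by
  rcases Nat.eq_zero_or_pos i with h0 | h0
  · rw [h0, pt_zero]
    exact h.pos
  · exact (h.str i h0 hi).2

theorem Pth.x_nonneg (h : Pth M w) {i : ℕ} (hi : i ≤ w.length) : 0 ≤ (pt w i).1 := by
  rcases Nat.eq_zero_or_pos i with h0 | h0
  · rw [h0, pt_zero]
    exact le_rfl
  · exact (h.x_pos h0 hi).le

theorem Pth.x_le (h : Pth M w) {i : ℕ} (hi : i ≤ w.length) : (pt w i).1 ≤ (en w).1 := by
  rcases hi.eq_or_lt with h1 | h1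
  · rw [h1, pt_length]
  · exact (h.x_lt h1).le

theorem Pth.first (h : Pth M w) : w.getD 0 0 = 0 := by
  have h0 := h.length_pos
  have h1 := h.x_pos (i := 1) one_pos h0
  rw [show (1 : ℕ) = 0 + 1 from rfl, pt_getD w h0, pt_zero, zero_add] at h1
  generalize w.getD 0 0 = d at h1
  revert d
  decide

end Pool.Agent.PT
end
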