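import Pool.Agent.Lib.MP_ed987a_lc.Mg.G006
import Pool.Agent.Lib.MP_ed987a_lc.Mg.G010

section

/-!
# TASK PT C4: crossings mod 2

`on P : ZMod 2` is `1` if `P`, otherwise `0`. (`tele`) induction on `n`, `f i + f i = 0` in `ZMod 2` (`CharTwo.add_self_eq_zero`).
(`ind_eq`) `Saw w`: at most one index `i < w.length` has the property (call it `Q i`): if `pt w i = p`, `w_i = d` and `pt w j = p` then `i = j`. If
`pt w i = p`, `w_i = d`, `pt w (j + 1) = p`, `w_j + 2 = d` then `j + 1 = i`, and `pt w (i + 1) = p + vec d = pt w j` (`pt_getD`, `vec_back`), so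
`i + 1 = j`, contradiction. Two of the second kind: `i + 1 = j + 1`. So the sum has at most one nonzero term (`Finset.sum_eq_single`).
(`cr_vert`) for one edge with start `p = (a, b)` and direction `e`: `on (Over p e x y) + on (Over p e x (y - 1)) = on ((p = (x, y) ∧ e = 0) ∨ (p + vec e = (x, y) ∧ e + 2 = 0))`
(four cases for `e`; `pt w (i + 1) = pt w i + vec e` by `pt_getD`); then `Finset.sum_add_distrib`, `Finset.sum_congr`.
(`cr_hor`) for one edge: `on (Over p e (x - 1) y) + on (Over p e x y) + on ((p = (x, y) ∧ e = 1) ∨ (p + vec e = (x, y) ∧ e + 2 = 1)) = g p + g (p + vec e)` where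
`g q = on (q.1 = x ∧ q.2 ≤ y)` (four cases for `e`; unfold `on`, `split_ifs`, `omega` / `decide`); then `tele`.
(`cr_total`) if `b ≤ y`: `on (Over p e x y) = f p + f (p + vec e)`, `f q = on (q.1 ≤ x)`; then `tele`.
(`cr_low`) every term is `0`.
-/

set_option autoImplicit false

namespace Pool.Agent.PT

theorem tele (f : ℕ → ZMod 2) (n : ℕ) : ∑ i ∈ Finset.range n, (f i + f (i + 1)) = f 0 + f n := by
  induction n with
  | zero =>
    rw [Finset.range_zero, Finset.sum_empty, CharTwo.add_self_eq_zero]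
  | succ n ih =>
    rw [Finset.sum_range_succ, ih]
    have h := CharTwo.add_self_eq_zero (f n)
    linear_combination h

theorem ind_eq {w : List (Fin 4)} (hw : Saw w) (p : V) (d : Fin 4) : ind w p d = on (WE w p d) := by
  classical
  have huniq : ∀ i < w.length, ∀ j < w.length,
      ((pt w i = p ∧ w.getD i 0 = d) ∨ (pt w (i + 1) = p ∧ w.getD i 0 + 2 = d)) →
      ((pt w j = p ∧ w.getD j 0 = d) ∨ (pt w (j + 1) = p ∧ w.getD j 0 + 2 = d)) → i = j := by
    have key : ∀ i < w.length, ∀ j < w.length, pt w i = p → w.getD i 0 = d → pt w (j + 1) = p →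
        w.getD j 0 + 2 = d → False := by
      intro i hi j hj h1 h2 h3 h4
      have e1 : j + 1 = i := hw (j + 1) (by omega) i (by omega) (h3.trans h1.symm)
      have e2 : pt w (i + 1) = pt w j := by
        rw [pt_getD w hi, h1, h2, ← h3, pt_getD w hj, ← h4, add_assoc, vec_back, add_zero]
      have e3 : i + 1 = j := hw (i + 1) (by omega) j (by omega) e2
      omega
    rintro i hi j hj (⟨h1, h2⟩ | ⟨h1, h2⟩) (⟨h3, h4⟩ | ⟨h3, h4⟩)
    · exact hw i (by omega) j (by omega) (h1.trans h3.symm)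
    · exact (key i hi j hj h1 h2 h3 h4).elim
    · exact (key j hj i hi h3 h4 h1 h2).elim
    · have := hw (i + 1) (by omega) (j + 1) (by omega) (h1.trans h3.symm)
      omega
  by_cases h : WE w p d
  · obtain ⟨i, hi, hq⟩ := h
    have hWE : WE w p d := ⟨i, hi, hq⟩
    unfold ind
    rw [Finset.sum_eq_single i]
    · unfold on
      rw [if_pos hq, if_pos hWE]
    · intro j hj hne
      rw [Finset.mem_range] at hj
      unfold on
      rw [if_neg]
      intro hq'
      exact hne (huniq j hj i hi hq' hq)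
    · intro h'
      exact absurd (Finset.mem_range.mpr hi) h'
  · unfold ind
    rw [Finset.sum_eq_zero]
    · unfold on
      rw [if_neg h]
    · intro i hi
      unfold on
      rw [if_neg]
      intro hq
      exact h ⟨i, Finset.mem_range.mp hi, hq⟩

private theorem c4on {P Q : Prop} (h : P ↔ Q) : on P = on Q := by
  rw [propext h]

private theorem c4fin (e : Fin 4) : e = 0 ∨ e = 1 ∨ e = 2 ∨ e = 3 := by
  revert e
  decide

private theorem c4over0 (a b x y : ℤ) : Over (a, b) 0 x y ↔ a = x ∧ b ≤ y := by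
  simp [Over]

private theorem c4over1 (a b x y : ℤ) : Over (a, b) 1 x y ↔ False := by
  simp [Over]

private theorem c4over2 (a b x y : ℤ) : Over (a, b) 2 x y ↔ a = x + 1 ∧ b ≤ y := by
  simp [Over]

private theorem c4over3 (a b x y : ℤ) : Over (a, b) 3 x y ↔ False := by
  simp [Over]

private theorem c4v0 (a b : ℤ) : ((a, b) : V) + vec 0 = (a + 1, b) := by
  ext <;> simp [vec]

private theorem c4v1 (a b : ℤ) : ((a, b) : V) + vec 1 = (a, b + 1) := by
  ext <;> simp [vec]

private theorem c4v2 (a b : ℤ) : ((a, b) : V) + vec 2 = (a - 1, b) := by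
  ext <;> simp [vec, sub_eq_add_neg]

private theorem c4v3 (a b : ℤ) : ((a, b) : V) + vec 3 = (a, b - 1) := by
  ext <;> simp [vec, sub_eq_add_neg]

private theorem c4vert (p : V) (e : Fin 4) (x y : ℤ) : on (Over p e x y) + on (Over p e x (y - 1)) =
    on ((p = (x, y) ∧ e = 0) ∨ (p + vec e = (x, y) ∧ e + 2 = 0)) := by
  obtain ⟨a, b⟩ := p
  rcases c4fin e with rfl | rfl | rfl | rfl
  · have h : (((a, b) : V) = (x, y) ∧ (0 : Fin 4) = 0) ∨ (((a, b) : V) + vec 0 = (x, y) ∧ (0 : Fin 4) + 2 = 0) ↔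
        a = x ∧ b = y := by
      simp [Prod.ext_iff]
    rw [c4on (c4over0 a b x y), c4on (c4over0 a b x (y - 1)), c4on h]
    unfold on
    split_ifs <;> first | rfl | (exfalso; omega)
  · have h : (((a, b) : V) = (x, y) ∧ (1 : Fin 4) = 0) ∨ (((a, b) : V) + vec 1 = (x, y) ∧ (1 : Fin 4) + 2 = 0) ↔
        False := by
      have h1 : ¬ ((1 : Fin 4) = 0) := by decide
      have h2 : ¬ ((1 : Fin 4) + 2 = 0) := by decide
      tauto
    rw [c4on (c4over1 a b x y), c4on (c4over1 a b x (y - 1)), c4on h]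
    unfold on
    split_ifs <;> first | rfl | (exfalso; omega)
  · have h : (((a, b) : V) = (x, y) ∧ (2 : Fin 4) = 0) ∨ (((a, b) : V) + vec 2 = (x, y) ∧ (2 : Fin 4) + 2 = 0) ↔
        a = x + 1 ∧ b = y := by
      have h1 : ¬ ((2 : Fin 4) = 0) := by decide
      have h2 : ((2 : Fin 4) + 2 = 0) := by decide
      rw [c4v2]
      constructor
      · rintro (h | h)
        · exact absurd h.2 h1
        · have h3 := congrArg Prod.fst h.1
          have h4 := congrArg Prod.snd h.1
          simp only at h3 h4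
          exact ⟨by omega, h4⟩
      · rintro ⟨rfl, rfl⟩
        exact Or.inr ⟨Prod.ext (by simp) rfl, h2⟩
    rw [c4on (c4over2 a b x y), c4on (c4over2 a b x (y - 1)), c4on h]
    unfold on
    split_ifs <;> first | rfl | (exfalso; omega)
  · have h : (((a, b) : V) = (x, y) ∧ (3 : Fin 4) = 0) ∨ (((a, b) : V) + vec 3 = (x, y) ∧ (3 : Fin 4) + 2 = 0) ↔
        False := by
      have h1 : ¬ ((3 : Fin 4) = 0) := by decide
      have h2 : ¬ ((3 : Fin 4) + 2 = 0) := by decide
      tauto
    rw [c4on (c4over3 a b x y), c4on (c4over3 a b x (y - 1)), c4on h]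
    unfold on
    split_ifs <;> first | rfl | (exfalso; omega)

private theorem c4hor (p : V) (e : Fin 4) (x y : ℤ) : on (Over p e (x - 1) y) + on (Over p e x y) +
    on ((p = (x, y) ∧ e = 1) ∨ (p + vec e = (x, y) ∧ e + 2 = 1)) =
    on (p.1 = x ∧ p.2 ≤ y) + on ((p + vec e).1 = x ∧ (p + vec e).2 ≤ y) := by
  obtain ⟨a, b⟩ := p
  rcases c4fin e with rfl | rfl | rfl | rfl
  · have h : (((a, b) : V) = (x, y) ∧ (0 : Fin 4) = 1) ∨ (((a, b) : V) + vec 0 = (x, y) ∧ (0 : Fin 4) + 2 = 1) ↔
        False := by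
      have h1 : ¬ ((0 : Fin 4) = 1) := by decide
      have h2 : ¬ ((0 : Fin 4) + 2 = 1) := by decide
      tauto
    rw [c4on (c4over0 a b x y), c4on (c4over0 a b (x - 1) y), c4on h, c4v0]
    simp only
    unfold on
    split_ifs <;> first | rfl | (exfalso; omega)
  · have h : (((a, b) : V) = (x, y) ∧ (1 : Fin 4) = 1) ∨ (((a, b) : V) + vec 1 = (x, y) ∧ (1 : Fin 4) + 2 = 1) ↔
        a = x ∧ b = y := by
      have h2 : ¬ ((1 : Fin 4) + 2 = 1) := by decide
      rw [Prod.ext_iff]
      simp only [h2, and_false, or_false, and_true]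
    rw [c4on (c4over1 a b x y), c4on (c4over1 a b (x - 1) y), c4on h, c4v1]
    simp only
    unfold on
    split_ifs <;> first | rfl | (exfalso; omega)
  · have h : (((a, b) : V) = (x, y) ∧ (2 : Fin 4) = 1) ∨ (((a, b) : V) + vec 2 = (x, y) ∧ (2 : Fin 4) + 2 = 1) ↔
        False := by
      have h1 : ¬ ((2 : Fin 4) = 1) := by decide
      have h2 : ¬ ((2 : Fin 4) + 2 = 1) := by decide
      tauto
    rw [c4on (c4over2 a b x y), c4on (c4over2 a b (x - 1) y), c4on h, c4v2]
    simp only
    unfold on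
    split_ifs <;> first | rfl | (exfalso; omega)
  · have h : (((a, b) : V) = (x, y) ∧ (3 : Fin 4) = 1) ∨ (((a, b) : V) + vec 3 = (x, y) ∧ (3 : Fin 4) + 2 = 1) ↔
        a = x ∧ b = y + 1 := by
      have h1 : ¬ ((3 : Fin 4) = 1) := by decide
      have h2 : ((3 : Fin 4) + 2 = 1) := by decide
      rw [c4v3, Prod.ext_iff, Prod.ext_iff]
      simp only [h1, h2, and_false, false_or, and_true]
      constructor
      · rintro ⟨h3, h4⟩
        exact ⟨h3, by omega⟩
      · rintro ⟨h3, h4⟩
        exact ⟨h3, by omega⟩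
    rw [c4on (c4over3 a b x y), c4on (c4over3 a b (x - 1) y), c4on h, c4v3]
    simp only
    unfold on
    split_ifs <;> first | rfl | (exfalso; omega)

private theorem c4tot (p : V) (e : Fin 4) (x y : ℤ) (h : p.2 ≤ y) :
    on (Over p e x y) = on (p.1 ≤ x) + on ((p + vec e).1 ≤ x) := by
  obtain ⟨a, b⟩ := p
  simp only at h
  rcases c4fin e with rfl | rfl | rfl | rfl
  · rw [c4on (c4over0 a b x y), c4v0]
    simp only
    unfold on
    split_ifs <;> first | rfl | (exfalso; omega)
  · rw [c4on (c4over1 a b x y), c4v1]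
    simp only
    unfold on
    split_ifs <;> first | rfl | (exfalso; omega)
  · rw [c4on (c4over2 a b x y), c4v2]
    simp only
    unfold on
    split_ifs <;> first | rfl | (exfalso; omega)
  · rw [c4on (c4over3 a b x y), c4v3]
    simp only
    unfold on
    split_ifs <;> first | rfl | (exfalso; omega)

theorem cr_vert (w : List (Fin 4)) (x y : ℤ) : cr w x y + cr w x (y - 1) = ind w (x, y) 0 := by
  unfold cr ind
  rw [← Finset.sum_add_distrib]
  refine Finset.sum_congr rfl ?_
  intro i hi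
  rw [pt_getD w (Finset.mem_range.mp hi)]
  exact c4vert _ _ x y

theorem cr_hor (w : List (Fin 4)) (x y : ℤ) : cr w (x - 1) y + cr w x y + ind w (x, y) 1 =
    on (0 = x ∧ 0 ≤ y) + on ((en w).1 = x ∧ (en w).2 ≤ y) := by
  have h := tele (fun i => on ((pt w i).1 = x ∧ (pt w i).2 ≤ y)) w.length
  simp only [pt_zero, pt_length, Prod.fst_zero, Prod.snd_zero] at h
  rw [← h]
  unfold cr ind
  rw [← Finset.sum_add_distrib, ← Finset.sum_add_distrib]
  refine Finset.sum_congr rfl ?_
  intro i hi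
  rw [pt_getD w (Finset.mem_range.mp hi)]
  exact c4hor _ _ x y

theorem cr_total (w : List (Fin 4)) (x y : ℤ) (h : ∀ i < w.length, (pt w i).2 ≤ y) :
    cr w x y = on (0 ≤ x) + on ((en w).1 ≤ x) := by
  have h2 := tele (fun i => on ((pt w i).1 ≤ x)) w.length
  simp only [pt_zero, pt_length, Prod.fst_zero] at h2
  rw [← h2]
  unfold cr
  refine Finset.sum_congr rfl ?_
  intro i hi
  rw [pt_getD w (Finset.mem_range.mp hi)]
  exact c4tot _ _ x y (h i (Finset.mem_range.mp hi))

theorem cr_low (w : List (Fin 4)) (x y : ℤ) (h : ∀ i < w.length, y < (pt w i).2) : cr w x y = 0 := by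
  unfold cr
  refine Finset.sum_eq_zero ?_
  intro i hi
  unfold on
  rw [if_neg]
  intro h2
  have h3 := h i (Finset.mem_range.mp hi)
  have h4 := h2.2
  omega

end Pool.Agent.PT
end

section

/-!
# TASK PT C5: crossings of a path in a strip

`h : Pth M w`, `W = (en w).1`. (`Pth.cr_high`) `M ≤ y`: all heights are `≤ M ≤ y` (`hgt`), `cr_total`: `on (0 ≤ x) + on (W ≤ x) = 1 + 0`.
(`Pth.cr_low`) all heights are `≥ -M > y`, `cr_low`. (`Pth.WE_mem`) from the definition of `WE`: `p = pt w i` or `p = pt w (i + 1)`, and `p + vec d` is the other end (`pt_getD`, `vec_back`).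
(`Pth.WE_hgt`) from `WE_mem`, `hgt`. (`Pth.WE_zero_range`) `WE w (x, y) 0`: both `(x, y)` and `(x + 1, y)` are points of `w`, so `0 ≤ x` and `x + 1 ≤ W`.
(`Pth.WE_one_range`) `WE w (x, y) 1`: the two points `(x, y)`, `(x, y + 1)` are points `pt w i`, `pt w j` with `i ≠ j`; if `x = 0` then `i = j = 0` (`x_pos`), if `x = W` then `i = j = w.length` (`x_lt`), so `0 < x < W`.
(`Pth.cr_in`) `0 < x < W`: `cr_hor`, both terms on the right are `0` (`0 ≠ x`, `W ≠ x`), `ind_eq`.
(`Pth.cr_left`) `cr_hor` at `x = 0`: `cr w (-1) y = 0`, because no edge is over the column `-1` (`Over`: `p.1 = -1`, or `e = 2` and `p.1 = 0`, then the next point has first coordinate `-1`;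
`x_nonneg`), `ind = 0` by `ind_eq` and `WE_one_range`, `on (W = 0 ∧ ..) = 0`. (`Pth.cr_right`) `cr_hor` at `x = W`: `cr w W y = 0` (`Over`: `p.1 = W`, `e = 0`: the next point is beyond `W`; or `p.1 = W + 1`), `ind = 0`,
`on (0 = W ∧ ..) = 0`.
-/

set_option autoImplicit false

namespace Pool.Agent.PT

variable {M : ℤ} {w : List (Fin 4)}

private theorem on_t {P : Prop} (h : P) : on P = 1 := by
  unfold on
  exact if_pos h

private theorem on_f {P : Prop} (h : ¬ P) : on P = 0 := by
  unfold on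
  exact if_neg h

private theorem on_c {P Q : Prop} (h : P ↔ Q) : on P = on Q := by
  rw [propext h]

private theorem z2 {a b : ZMod 2} (h : a + b = 0) : a = b := by
  revert a b; decide

theorem Pth.cr_high (h : Pth M w) {x y : ℤ} (h0 : 0 ≤ x) (h1 : x < (en w).1) (hy : M ≤ y) : cr w x y = 1 := by
  rw [cr_total w x y (fun i _ => (le_abs_self _).trans ((h.hgt i).trans hy)), on_t h0, on_f (by omega), add_zero]

theorem Pth.cr_low (h : Pth M w) {x y : ℤ} (hy : y < -M) : cr w x y = 0 := by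
  apply PT.cr_low
  intro i _
  have h1 := (abs_le.1 (h.hgt i)).1
  omega

/-- the end points of an edge of a walk -/
theorem WE_mem {w : List (Fin 4)} {p : V} {d : Fin 4} (h : WE w p d) :
    ∃ i ≤ w.length, ∃ j ≤ w.length, i ≠ j ∧ pt w i = p ∧ pt w j = p + vec d := by
  obtain ⟨i, hi, ⟨h1, h2⟩ | ⟨h1, h2⟩⟩ := h
  · refine ⟨i, hi.le, i + 1, hi, by omega, h1, ?_⟩
    rw [pt_getD w hi, h1, h2]
  · refine ⟨i + 1, hi, i, hi.le, by omega, h1, ?_⟩
    rw [← h1, ← h2, pt_getD w hi, add_assoc, vec_back, add_zero]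

theorem Pth.WE_hgt (h : Pth M w) {p : V} {d : Fin 4} (hp : WE w p d) : |p.2| ≤ M := by
  obtain ⟨i, -, -, -, -, h1, -⟩ := WE_mem hp
  rw [← h1]
  exact h.hgt i

theorem Pth.WE_zero_range (h : Pth M w) {x y : ℤ} (hp : WE w (x, y) 0) : 0 ≤ x ∧ x < (en w).1 := by
  obtain ⟨i, hi, j, hj, -, h1, h2⟩ := WE_mem hp
  have h3 := h.x_nonneg hi
  have h4 := h.x_le hj
  rw [h1] at h3
  rw [h2] at h4
  have h5 : ((x, y) + vec 0 : V).1 = x + 1 := rfl
  rw [h5] at h4
  exact ⟨h3, by omega⟩

theorem Pth.WE_one_range (h : Pth M w) {x y : ℤ} (hp : WE w (x, y) 1) : 0 < x ∧ x < (en w).1 := by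
  obtain ⟨i, hi, j, hj, hij, h1, h2⟩ := WE_mem hp
  have h5 : ((x, y) + vec 1 : V).1 = x := by
    show x + 0 = x
    rw [add_zero]
  have e1 : (pt w i).1 = x := by rw [h1]
  have e2 : (pt w j).1 = x := by rw [h2, h5]
  constructor
  · by_contra hx
    have hi0 : i = 0 := by
      by_contra h0
      have := h.x_pos (Nat.pos_of_ne_zero h0) hi
      omega
    have hj0 : j = 0 := by
      by_contra h0
      have := h.x_pos (Nat.pos_of_ne_zero h0) hj
      omega
    omega
  · by_contra hx
    have hi0 : ¬ i < w.length := by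
      intro h0
      have := h.x_lt h0
      omega
    have hj0 : ¬ j < w.length := by
      intro h0
      have := h.x_lt h0
      omega
    omega

theorem Pth.cr_in (h : Pth M w) {x y : ℤ} (h0 : 0 < x) (h1 : x < (en w).1) :
    cr w (x - 1) y + cr w x y = on (WE w (x, y) 1) := by
  have h2 := cr_hor w x y
  rw [on_f (show ¬ (0 = x ∧ 0 ≤ y) by omega), on_f (show ¬ ((en w).1 = x ∧ (en w).2 ≤ y) by omega), add_zero,
    ind_eq h.saw] at h2
  exact z2 h2

theorem Pth.cr_left (h : Pth M w) (y : ℤ) : cr w 0 y = on (0 ≤ y) := by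
  have h2 := cr_hor w 0 y
  have hW := h.pos
  have h3 : cr w (0 - 1) y = 0 := by
    unfold cr
    apply Finset.sum_eq_zero
    intro i hi
    rw [Finset.mem_range] at hi
    apply on_f
    rintro ⟨⟨h5, h6⟩ | ⟨h5, h6⟩, -⟩
    · have := h.x_nonneg hi.le
      omega
    · have h7 := h.x_nonneg (show i + 1 ≤ w.length from hi)
      rw [pt_getD w hi, h5] at h7
      have h8 : (pt w i + vec 2 : V).1 = (pt w i).1 - 1 := rfl
      rw [h8] at h7
      omega
  rw [h3, ind_eq h.saw, on_f (fun h4 => (lt_irrefl _ (h.WE_one_range h4).1)),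
    on_f (show ¬ ((en w).1 = 0 ∧ (en w).2 ≤ y) by omega), zero_add, add_zero, add_zero] at h2
  rw [h2]
  apply on_c
  simp

theorem Pth.cr_right (h : Pth M w) (y : ℤ) : cr w ((en w).1 - 1) y = on ((en w).2 ≤ y) := by
  have h2 := cr_hor w (en w).1 y
  have hW := h.pos
  have h3 : cr w (en w).1 y = 0 := by
    unfold cr
    apply Finset.sum_eq_zero
    intro i hi
    rw [Finset.mem_range] at hi
    apply on_f
    rintro ⟨⟨h5, h6⟩ | ⟨h5, h6⟩, -⟩
    · have h7 := h.x_le (show i + 1 ≤ w.length from hi)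
      rw [pt_getD w hi, h5] at h7
      have h8 : (pt w i + vec 0 : V).1 = (pt w i).1 + 1 := rfl
      rw [h8] at h7
      omega
    · have h7 := h.x_le hi.le
      omega
  rw [h3, ind_eq h.saw, on_f (fun h4 => (lt_irrefl _ (h.WE_one_range h4).2)),
    on_f (show ¬ (0 = (en w).1 ∧ 0 ≤ y) by omega), zero_add, add_zero, add_zero] at h2
  rw [h2]
  apply on_c
  simp

end Pool.Agent.PT
end
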