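import Pool.Agent.Lib.MP_ed987a_lc.Mg.G010
import Pool.Agent.Lib.MP_ed987a_lc.Mg.G011

section

/-!
# TASK PT C6: the boundary of the region between two paths

`hA : Pth M A`, `hB : Pth M B`, `he : en A = en B`, `hH : 2 * M < H`, `W = (en A).1`. (`on_iff`) cases.
(`on_reg`) a cell `(x, y)` with `0 ≤ x < W`: `on ((x, y) ∈ reg A B H) = cr A x y + cr B x (y - H)`: elements of `ZMod 2` are `0` or `1`; the only critical case is `cr A x y = 0`,
`cr B x (y - H) = 1`: then `¬ y - H < -M` (`Pth.cr_low`), so `M ≤ y` and `cr A x y = 1` (`Pth.cr_high`).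
(`BE_iff_on`) `BE S p d ↔ on (p + co d ∈ S) + on (p + co (d + 3) ∈ S) = 1` (four cases).
(`BE_reg0`) `p = (x, y)`, `co 0 = (0, 0)`, `co 3 = (0, -1)`. If `0 ≤ x < W`: the sum is `(cr A x y + cr A x (y - 1)) + (cr B x (y - H) + cr B x (y - 1 - H)) = on (WE A (x, y) 0) + on (WE B (x, y - H) 0)`
(`cr_vert`, `ind_eq`); not both are true (`Pth.WE_hgt`: `|y| ≤ M` and `|y - H| ≤ M`, `M ≥ 0`). Otherwise both cells are not in `reg`, and both `WE` are false (`Pth.WE_zero_range`). `VE H q 0` is false.
(`BE_reg1`) `co 1 = (-1, 0)`, `co 0 = (0, 0)` (`1 + 3 = 0`). `0 < x < W`: the sum is `on (WE A (x, y) 1) + on (WE B (x, y - H) 1)` (`Pth.cr_in` twice), not both; `VE H (x, y) 1` is false as `x ≠ 0`, `VE H ((x, y) - en A) 1` is false as `x ≠ W`.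
`x = 0`: the left cell is not in `reg`, the right one: `on (0 ≤ y) + on (0 ≤ y - H)` (`Pth.cr_left`), which is `1` iff `0 ≤ y < H` iff `VE H (0, y) 1`; the `WE` are false (`Pth.WE_one_range`).
`x = W`: the right cell is not in `reg`, the left one: `on ((en A).2 ≤ y) + on ((en A).2 ≤ y - H)` (`Pth.cr_right`, `he`), iff `0 ≤ y - (en A).2 < H`. Other `x`: all false.
(`BE_reg`) for `d = 2`, `3` use `BE_rev`, `WE_sym` and `VE_sym` at the other end: `(p, 2)` is the reverse of `(p + vec 2, 0)`.
-/

set_option autoImplicit false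

namespace Pool.Agent.PT

private theorem C6_z2 (a : ZMod 2) : a = 0 ∨ a = 1 := by
  revert a; decide

theorem on_iff (P : Prop) : on P = 1 ↔ P := by
  unfold on
  split_ifs with h
  · simp [h]
  · simp [h]

theorem on_not_iff (P : Prop) : on P = 0 ↔ ¬ P := by
  unfold on
  split_ifs with h
  · simp [h]
  · simp [h]

private theorem C6_on_pos {P : Prop} (h : P) : on P = 1 := (on_iff P).mpr h

private theorem C6_on_neg {P : Prop} (h : ¬ P) : on P = 0 := (on_not_iff P).mpr h

private theorem C6_add (P Q : Prop) : on P + on Q = 1 ↔ ¬ (P ↔ Q) := by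
  have h : (1 : ZMod 2) + 1 = 0 := by decide
  by_cases hP : P <;> by_cases hQ : Q
  · rw [C6_on_pos hP, C6_on_pos hQ, h]
    simp [hP, hQ]
  · rw [C6_on_pos hP, C6_on_neg hQ]
    simp [hP, hQ]
  · rw [C6_on_neg hP, C6_on_pos hQ]
    simp [hP, hQ]
  · rw [C6_on_neg hP, C6_on_neg hQ]
    simp [hP, hQ]

theorem BE_iff_on (S : Set V) (p : V) (d : Fin 4) : BE S p d ↔ on (p + co d ∈ S) + on (p + co (d + 3) ∈ S) = 1 := by
  rw [C6_add]
  rfl

theorem VE_sym (H : ℤ) (q : V) (d : Fin 4) : VE H (q + vec d) (d + 2) ↔ VE H q d := by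
  obtain ⟨x, y⟩ := q
  unfold VE
  have hd : d = 0 ∨ d = 1 ∨ d = 2 ∨ d = 3 := by
    revert d; decide
  rcases hd with rfl | rfl | rfl | rfl
  · simp [vec]
  · simp [vec]
    try omega
  · simp [vec]
  · simp [vec]
    try omega

variable {M H : ℤ} {A B : List (Fin 4)}

theorem on_reg (hA : Pth M A) (hB : Pth M B) (he : en A = en B) (hH : 2 * M < H) {x y : ℤ} (h0 : 0 ≤ x)
    (h1 : x < (en A).1) : on ((x, y) ∈ reg A B H) = cr A x y + cr B x (y - H) := by
  have hm : (x, y) ∈ reg A B H ↔ 0 ≤ x ∧ x < (en A).1 ∧ cr A x y = 1 ∧ cr B x (y - H) = 0 := Iff.rfl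
  rcases C6_z2 (cr A x y) with ha | ha <;> rcases C6_z2 (cr B x (y - H)) with hb | hb
  · rw [ha, hb, C6_on_neg]
    · simp
    · rw [hm, ha]
      simp
  · exfalso
    have h2 : ¬ (y - H < -M) := by
      intro h3
      rw [hB.cr_low h3] at hb
      exact absurd hb (by decide)
    have h3 : M ≤ y := by omega
    rw [hA.cr_high h0 h1 h3] at ha
    exact absurd ha (by decide)
  · rw [ha, hb, C6_on_pos]
    · simp
    · rw [hm]
      exact ⟨h0, h1, ha, hb⟩
  · rw [ha, hb, C6_on_neg]
    · decide
    · rw [hm, hb]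
      simp

private theorem C6_not_mem {x y : ℤ} (h : ¬ (0 ≤ x ∧ x < (en A).1)) : (x, y) ∉ reg A B H := by
  intro hm
  have hm' : 0 ≤ x ∧ x < (en A).1 ∧ cr A x y = 1 ∧ cr B x (y - H) = 0 := hm
  exact h ⟨hm'.1, hm'.2.1⟩

private theorem C6_or {P Q : Prop} (h : ¬ (P ∧ Q)) : on P + on Q = 1 ↔ P ∨ Q := by
  rw [C6_add]
  tauto

private theorem C6_sub (x y H : ℤ) : ((x, y) : V) - (0, H) = (x, y - H) := by
  simp

theorem BE_reg0 (hA : Pth M A) (hB : Pth M B) (he : en A = en B) (hH : 2 * M < H) (x y : ℤ) :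
    BE (reg A B H) (x, y) 0 ↔ WE A (x, y) 0 ∨ WE B ((x, y) - (0, H)) 0 ∨ VE H (x, y) 0 ∨ VE H ((x, y) - en A) 0 := by
  have hV : ∀ q, ¬ VE H q 0 := by
    intro q hq
    rcases hq with ⟨_, ⟨h, _⟩ | ⟨h, _⟩⟩
    · exact absurd h (by decide)
    · exact absurd h (by decide)
  have e1 : ((x, y) : V) + co 0 = (x, y) := by simp [co]
  have e2 : ((x, y) : V) + co (0 + 3) = (x, y - 1) := by
    simp [co, sub_eq_add_neg]
  rw [BE_iff_on, e1, e2, C6_sub]
  by_cases hx : 0 ≤ x ∧ x < (en A).1
  · rw [on_reg hA hB he hH hx.1 hx.2, on_reg hA hB he hH hx.1 hx.2]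
    have e3 : y - 1 - H = y - H - 1 := by ring
    have e4 : cr A x y + cr B x (y - H) + (cr A x (y - 1) + cr B x (y - 1 - H)) =
        on (WE A (x, y) 0) + on (WE B (x, y - H) 0) := by
      rw [← ind_eq hA.saw, ← ind_eq hB.saw, ← cr_vert, ← cr_vert, e3]
      ring
    rw [e4, C6_or]
    · constructor
      · rintro (h | h)
        · exact Or.inl h
        · exact Or.inr (Or.inl h)
      · rintro (h | h | h | h)
        · exact Or.inl h
        · exact Or.inr h
        · exact absurd h (hV _)
        · exact absurd h (hV _)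
    · rintro ⟨h2, h3⟩
      have h4 := hA.WE_hgt h2
      have h5 := hB.WE_hgt h3
      simp only at h4 h5
      rw [abs_le] at h4 h5
      omega
  · rw [C6_on_neg (C6_not_mem hx), C6_on_neg (C6_not_mem hx)]
    constructor
    · intro h
      exact absurd h (by decide)
    · rintro (h | h | h | h)
      · exact absurd (hA.WE_zero_range h) hx
      · have h6 := hB.WE_zero_range h
        rw [← he] at h6
        exact absurd h6 hx
      · exact absurd h (hV _)
      · exact absurd h (hV _)

theorem BE_reg1 (hA : Pth M A) (hB : Pth M B) (he : en A = en B) (hH : 2 * M < H) (x y : ℤ) :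
    BE (reg A B H) (x, y) 1 ↔ WE A (x, y) 1 ∨ WE B ((x, y) - (0, H)) 1 ∨ VE H (x, y) 1 ∨ VE H ((x, y) - en A) 1 := by
  have hM := hA.M_nonneg
  have hW := hA.pos
  have e1 : ((x, y) : V) + co 1 = (x - 1, y) := by simp [co, sub_eq_add_neg]
  have e2 : ((x, y) : V) + co (1 + 3) = (x, y) := by
    have h : co (1 + 3) = (0, 0) := by decide
    rw [h]
    simp
  have hV1 : VE H (x, y) 1 ↔ x = 0 ∧ 0 ≤ y ∧ y < H := by
    unfold VE
    constructor
    · rintro ⟨h1, ⟨_, h2, h3⟩ | ⟨h2, _⟩⟩
      · exact ⟨h1, h2, h3⟩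
      · exact absurd h2 (by decide)
    · rintro ⟨h1, h2, h3⟩
      exact ⟨h1, Or.inl ⟨rfl, h2, h3⟩⟩
  have hV2 : VE H ((x, y) - en A) 1 ↔ x = (en A).1 ∧ (en A).2 ≤ y ∧ y < (en A).2 + H := by
    unfold VE
    simp only [Prod.fst_sub, Prod.snd_sub]
    constructor
    · rintro ⟨h1, ⟨_, h2, h3⟩ | ⟨h2, _⟩⟩
      · exact ⟨by omega, by omega, by omega⟩
      · exact absurd h2 (by decide)
    · rintro ⟨h1, h2, h3⟩
      exact ⟨by omega, Or.inl ⟨trivial, by omega, by omega⟩⟩
  have hWA : WE A (x, y) 1 → 0 < x ∧ x < (en A).1 := fun h => hA.WE_one_range h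
  have hWB : WE B (x, y - H) 1 → 0 < x ∧ x < (en A).1 := by
    intro h
    have h6 := hB.WE_one_range h
    rw [← he] at h6
    exact h6
  rw [BE_iff_on, e1, e2, C6_sub, hV1, hV2]
  by_cases hx : 0 < x ∧ x < (en A).1
  · have h7 : 0 ≤ x - 1 := by omega
    have h8 : x - 1 < (en A).1 := by omega
    rw [on_reg hA hB he hH h7 h8, on_reg hA hB he hH hx.1.le hx.2]
    have hxB : x < (en B).1 := by rw [← he]; exact hx.2
    have e4 : cr A (x - 1) y + cr B (x - 1) (y - H) + (cr A x y + cr B x (y - H)) =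
        on (WE A (x, y) 1) + on (WE B (x, y - H) 1) := by
      rw [← hA.cr_in hx.1 hx.2, ← hB.cr_in hx.1 hxB]
      ring
    rw [e4, C6_or]
    · constructor
      · rintro (h | h)
        · exact Or.inl h
        · exact Or.inr (Or.inl h)
      · rintro (h | h | h | h)
        · exact Or.inl h
        · exact Or.inr h
        · omega
        · omega
    · rintro ⟨h2, h3⟩
      have h4 := hA.WE_hgt h2
      have h5 := hB.WE_hgt h3
      simp only at h4 h5
      rw [abs_le] at h4 h5
      omega
  · rcases lt_trichotomy x 0 with h0 | h0 | h0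
    · have h9 : ¬ (0 ≤ x ∧ x < (en A).1) := by omega
      have h10 : ¬ (0 ≤ x - 1 ∧ x - 1 < (en A).1) := by omega
      rw [C6_on_neg (C6_not_mem h9), C6_on_neg (C6_not_mem h10)]
      constructor
      · intro h
        exact absurd h (by decide)
      · rintro (h | h | h | h)
        · exact absurd (hWA h) hx
        · exact absurd (hWB h) hx
        · omega
        · omega
    · subst h0
      have h10 : ¬ (0 ≤ (0 : ℤ) - 1 ∧ (0 : ℤ) - 1 < (en A).1) := by omega
      rw [C6_on_neg (C6_not_mem h10), on_reg hA hB he hH le_rfl hW, hA.cr_left, hB.cr_left, zero_add, C6_add]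
      constructor
      · intro h
        right; right; left
        refine ⟨rfl, ?_⟩
        by_contra h11
        apply h
        omega
      · rintro (h | h | h | h)
        · exact absurd (hWA h) hx
        · exact absurd (hWB h) hx
        · omega
        · omega
    · rcases lt_trichotomy x (en A).1 with h1 | h1 | h1
      · exact absurd ⟨h0, h1⟩ hx
      · have h9 : ¬ (0 ≤ x ∧ x < (en A).1) := by omega
        have h7 : 0 ≤ x - 1 := by omega
        have h8 : x - 1 < (en A).1 := by omega
        rw [C6_on_neg (C6_not_mem h9), on_reg hA hB he hH h7 h8, add_zero]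
        have e5 : cr A (x - 1) y = on ((en A).2 ≤ y) := by
          rw [h1]
          exact hA.cr_right y
        have e6 : cr B (x - 1) (y - H) = on ((en B).2 ≤ y - H) := by
          rw [h1, he]
          exact hB.cr_right (y - H)
        rw [e5, e6, ← he, C6_add]
        constructor
        · intro h
          right; right; right
          refine ⟨h1, ?_⟩
          by_contra h11
          apply h
          omega
        · rintro (h | h | h | h)
          · exact absurd (hWA h) hx
          · exact absurd (hWB h) hx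
          · omega
          · omega
      · have h9 : ¬ (0 ≤ x ∧ x < (en A).1) := by omega
        have h10 : ¬ (0 ≤ x - 1 ∧ x - 1 < (en A).1) := by omega
        rw [C6_on_neg (C6_not_mem h9), C6_on_neg (C6_not_mem h10)]
        constructor
        · intro h
          exact absurd h (by decide)
        · rintro (h | h | h | h)
          · exact absurd (hWA h) hx
          · exact absurd (hWB h) hx
          · omega
          · omega

private theorem C6_step {q : V} {d : Fin 4} (h : BE (reg A B H) q d ↔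
      WE A q d ∨ WE B (q - (0, H)) d ∨ VE H q d ∨ VE H (q - en A) d) :
    BE (reg A B H) (q + vec d) (d + 2) ↔ WE A (q + vec d) (d + 2) ∨ WE B (q + vec d - (0, H)) (d + 2) ∨
      VE H (q + vec d) (d + 2) ∨ VE H (q + vec d - en A) (d + 2) := by
  have e1 : q + vec d - (0, H) = q - (0, H) + vec d := by abel
  have e2 : q + vec d - en A = q - en A + vec d := by abel
  rw [BE_rev, e1, e2, WE_sym, WE_sym, VE_sym, VE_sym]
  exact h

theorem BE_reg (hA : Pth M A) (hB : Pth M B) (he : en A = en B) (hH : 2 * M < H) (p : V) (d : Fin 4) :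
    BE (reg A B H) p d ↔ WE A p d ∨ WE B (p - (0, H)) d ∨ VE H p d ∨ VE H (p - en A) d := by
  have h0 : ∀ q : V, BE (reg A B H) q 0 ↔ WE A q 0 ∨ WE B (q - (0, H)) 0 ∨ VE H q 0 ∨ VE H (q - en A) 0 :=
    fun q => BE_reg0 hA hB he hH q.1 q.2
  have h1 : ∀ q : V, BE (reg A B H) q 1 ↔ WE A q 1 ∨ WE B (q - (0, H)) 1 ∨ VE H q 1 ∨ VE H (q - en A) 1 :=
    fun q => BE_reg1 hA hB he hH q.1 q.2
  have hd : d = 0 ∨ d = 1 ∨ d = 0 + 2 ∨ d = 1 + 2 := by
    revert d; decide
  rcases hd with rfl | rfl | rfl | rfl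
  · exact h0 p
  · exact h1 p
  · have h2 := C6_step (h0 (p - vec 0))
    rwa [sub_add_cancel] at h2
  · have h2 := C6_step (h1 (p - vec 1))
    rwa [sub_add_cancel] at h2

end Pool.Agent.PT
end

section

/-!
# TASK PT C7: closed words are polygons

(`pgn_of_word`) `L ≠ 0`, so `ZMod.val i < L` (`ZMod.val_lt`, with `NeZero L`). injective: `hi` and `ZMod.val_injective`. step: if `i.val + 1 < L` then `(i + 1).val = i.val + 1` (`ZMod.val_add_one_of_lt` or
`ZMod.val_add`, `ZMod.val_one''`/`Nat.mod_eq_of_lt`), otherwise `i.val + 1 = L` and `(i + 1).val = 0`, `pt w L = en w = 0 = pt w 0`; in both cases `pt w ((i + 1).val) = pt w (i.val + 1)` (`val_step`), and `pt_getD`.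
(`PE_iff_WE`) `i ↦ i.val` is a bijection from `ZMod L` to `{0, ..., L - 1}` (`ZMod.natCast_zmod_val`, `ZMod.val_natCast_of_lt`), `val_step`.
(`inj_append`) every index is `< u.length` or `u.length + j` with `j < v.length`; `pt_append_left`, `pt_append_right`.
(`inj_cw`) `inj_append` three times. `A`: `Saw`. `replicate h 1`: `pt_rep1`. `rv B`: `pt_rv`, `Saw B`. `replicate h 3`: `pt_rep3`. Let `W = (en A).1 > 0`. The points:
1. `pt A i`, `i < A.length`: `x < W` (`x_lt`), `|y| ≤ M`, and `x = 0` only for `i = 0` (`x_pos`), where `pt A 0 = 0`;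
2. `en A + (0, j)`, `j < h`: `x = W`;
3. `en A + (0, h) + pt (rv B) j = (0, h) + pt B (B.length - j)`, `j < B.length`: `0 < x ≤ W` (`x_pos`, `x_le`), `|y - h| ≤ M`; `x = W` only for `j = 0` (`x_lt`), where it is `en A + (0, h)`;
4. `(0, h - j)`, `j < h`: `x = 0`, `0 < y ≤ h`.
1-2: `x < W`. 1-3: `y ≤ M < h - M ≤ y'`. 1-4: `x = 0` implies the point `0`, `y = 0`. 2-3: `x = W` implies `y = (en A).2 + h`. 2-4, 3-4: `x > 0`.
(`cw_length`, `cw_en`) `length_rv`, `List.length_replicate`; `en_append`, `en_rep1`, `en_rv`, `en_rep3`.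
-/

set_option autoImplicit false

namespace Pool.Agent.PT

private theorem C7_case (n : ℕ) {m i : ℕ} (h : i < n + m) : i < n ∨ ∃ j < m, i = n + j := by
  rcases lt_or_ge i n with h1 | h1
  · exact Or.inl h1
  · exact Or.inr ⟨i - n, by omega, by omega⟩

/-- the positions of the last two parts -/
private theorem C7_V2 {B : List (Fin 4)} {h : ℕ} {j : ℕ} (hj : j < B.length + h) :
    (∃ k, 0 < k ∧ k ≤ B.length ∧ pt (rv B ++ List.replicate h 3) j = pt B k - en B) ∨
      ∃ j2 < h, pt (rv B ++ List.replicate h 3) j = -en B + (0, -(j2 : ℤ)) := by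
  rcases C7_case B.length hj with h1 | ⟨j2, h2, rfl⟩
  · left
    refine ⟨B.length - j, by omega, by omega, ?_⟩
    rw [pt_append_left _ _ (by rw [length_rv]; exact h1.le), pt_rv B h1.le]
  · right
    refine ⟨j2, h2, ?_⟩
    have h3 := pt_append_right (rv B) (List.replicate h 3) j2
    rw [length_rv] at h3
    rw [h3, en_rv, pt_rep3 h h2.le]

theorem val_step {w : List (Fin 4)} {L : ℕ} (hL : w.length = L) (h3 : 3 ≤ L) (h0 : en w = 0) (i : ZMod L) :
    pt w ((i + 1).val) = pt w (i.val + 1) := by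
  have hne : NeZero L := ⟨by omega⟩
  have h1 : (i + 1).val = (i.val + 1) % L := by
    rw [ZMod.val_add, ZMod.val_one'' (by omega)]
  have h2 := ZMod.val_lt i
  rcases lt_or_ge (i.val + 1) L with h4 | h4
  · rw [h1, Nat.mod_eq_of_lt h4]
  · have h5 : i.val + 1 = L := by omega
    rw [h1, h5, Nat.mod_self, pt_zero, ← hL, pt_length, h0]

theorem pgn_of_word {w : List (Fin 4)} {L : ℕ} (hL : w.length = L) (h3 : 3 ≤ L) (h0 : en w = 0)
    (hi : ∀ i < L, ∀ j < L, pt w i = pt w j → i = j) :
    Pgn L (fun i : ZMod L => pt w i.val) (fun i : ZMod L => w.getD i.val 0) := by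
  have hne : NeZero L := ⟨by omega⟩
  refine ⟨h3, ?_, ?_⟩
  · intro i j h
    exact ZMod.val_injective L (hi i.val (ZMod.val_lt i) j.val (ZMod.val_lt j) h)
  · intro i
    rw [val_step hL h3 h0 i, pt_getD w (by rw [hL]; exact ZMod.val_lt i)]

theorem PE_iff_WE {w : List (Fin 4)} {L : ℕ} (hL : w.length = L) (h3 : 3 ≤ L) (h0 : en w = 0) (p : V) (d : Fin 4) :
    PE (fun i : ZMod L => pt w i.val) (fun i : ZMod L => w.getD i.val 0) p d ↔ WE w p d := by
  have hne : NeZero L := ⟨by omega⟩
  constructor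
  · rintro ⟨i, h⟩
    refine ⟨i.val, by rw [hL]; exact ZMod.val_lt i, ?_⟩
    rw [← val_step hL h3 h0 i]
    exact h
  · rintro ⟨i, hi, h⟩
    have h1 : ((i : ZMod L)).val = i := ZMod.val_natCast_of_lt (by omega)
    refine ⟨(i : ZMod L), ?_⟩
    change (pt w ((i : ZMod L)).val = p ∧ w.getD ((i : ZMod L)).val 0 = d) ∨
      (pt w ((i : ZMod L) + 1).val = p ∧ w.getD ((i : ZMod L)).val 0 + 2 = d)
    rw [val_step hL h3 h0 (i : ZMod L), h1]
    exact h

theorem inj_append {u v : List (Fin 4)} (hu : ∀ i < u.length, ∀ j < u.length, pt u i = pt u j → i = j)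
    (hv : ∀ i < v.length, ∀ j < v.length, pt v i = pt v j → i = j)
    (huv : ∀ i < u.length, ∀ j < v.length, pt u i ≠ en u + pt v j) :
    ∀ i < (u ++ v).length, ∀ j < (u ++ v).length, pt (u ++ v) i = pt (u ++ v) j → i = j := by
  intro i hi j hj h
  rw [List.length_append] at hi hj
  rcases C7_case u.length hi with h1 | ⟨i', h1, rfl⟩
  · rcases C7_case u.length hj with h2 | ⟨j', h2, rfl⟩
    · rw [pt_append_left _ _ h1.le, pt_append_left _ _ h2.le] at h
      exact hu i h1 j h2 h
    · rw [pt_append_left _ _ h1.le, pt_append_right] at h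
      exact absurd h (huv i h1 j' h2)
  · rcases C7_case u.length hj with h2 | ⟨j', h2, rfl⟩
    · rw [pt_append_left _ _ h2.le, pt_append_right] at h
      exact absurd h.symm (huv j h2 i' h1)
    · rw [pt_append_right, pt_append_right] at h
      rw [hv i' h1 j' h2 (add_left_cancel h)]

theorem cw_length (A B : List (Fin 4)) (h : ℕ) : (cw A B h).length = A.length + B.length + 2 * h := by
  unfold cw
  rw [List.length_append, List.length_append, List.length_append, length_rv, List.length_replicate, List.length_replicate]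
  ring

theorem cw_en {A B : List (Fin 4)} (he : en A = en B) (h : ℕ) : en (cw A B h) = 0 := by
  unfold cw
  rw [en_append, en_append, en_append, en_rep1, en_rv, en_rep3, he]
  ext
  · simp
  · simp

theorem inj_cw {M : ℤ} {A B : List (Fin 4)} {h : ℕ} (hA : Pth M A) (hB : Pth M B) (he : en A = en B)
    (hH : 2 * M < (h : ℤ)) :
    ∀ i < (cw A B h).length, ∀ j < (cw A B h).length, pt (cw A B h) i = pt (cw A B h) j → i = j := by
  have hW := hB.pos
  have hlen : (rv B ++ List.replicate h (3 : Fin 4)).length = B.length + h := by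
    rw [List.length_append, length_rv, List.length_replicate]
  unfold cw
  refine inj_append ?_ (inj_append ?_ (inj_append ?_ ?_ ?_) ?_) ?_
  · intro i hi j hj h1
    exact hA.saw i hi.le j hj.le h1
  · intro i hi j hj h1
    rw [List.length_replicate] at hi hj
    rw [pt_rep1 h hi.le, pt_rep1 h hj.le] at h1
    have h2 := congrArg Prod.snd h1
    have h3 : (i : ℤ) = (j : ℤ) := h2
    omega
  · intro i hi j hj h1
    rw [length_rv] at hi hj
    rw [pt_rv B hi.le, pt_rv B hj.le] at h1
    have h2 := hB.saw (B.length - i) (by omega) (B.length - j) (by omega) (sub_left_injective h1)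
    omega
  · intro i hi j hj h1
    rw [List.length_replicate] at hi hj
    rw [pt_rep3 h hi.le, pt_rep3 h hj.le] at h1
    have h2 := congrArg Prod.snd h1
    have h3 : -(i : ℤ) = -(j : ℤ) := h2
    omega
  · intro i hi j hj h1
    rw [length_rv] at hi
    rw [List.length_replicate] at hj
    rw [pt_rv B hi.le, en_rv, pt_rep3 h hj.le] at h1
    have h2 := congrArg Prod.fst h1
    simp only [Prod.fst_sub, Prod.fst_add, Prod.fst_neg] at h2
    have h3 := hB.x_pos (i := B.length - i) (by omega) (by omega)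
    omega
  · intro i hi j hj h1
    rw [List.length_replicate] at hi
    rw [hlen] at hj
    rw [pt_rep1 h hi.le, en_rep1] at h1
    rcases C7_V2 hj with ⟨k, hk, hk', h2⟩ | ⟨j2, hj2, h2⟩
    · rw [h2] at h1
      have h3 := congrArg Prod.fst h1
      have h4 := congrArg Prod.snd h1
      simp only [Prod.fst_sub, Prod.fst_add, Prod.snd_sub, Prod.snd_add] at h3 h4
      rcases lt_or_eq_of_le hk' with h5 | h5
      · have h6 := hB.x_lt h5
        omega
      · rw [h5, pt_length] at h4
        omega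
    · rw [h2] at h1
      have h3 := congrArg Prod.fst h1
      simp only [Prod.fst_add, Prod.fst_neg] at h3
      omega
  · intro i hi j hj h1
    rw [List.length_append, List.length_replicate, hlen] at hj
    rcases C7_case h hj with h2 | ⟨j1, h2, rfl⟩
    · rw [pt_append_left _ _ (by rw [List.length_replicate]; exact h2.le), pt_rep1 h h2.le] at h1
      have h3 := congrArg Prod.fst h1
      simp only [Prod.fst_add] at h3
      have h4 := hA.x_lt hi
      omega
    · have h3 := pt_append_right (List.replicate h (1 : Fin 4)) (rv B ++ List.replicate h 3) j1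
      rw [List.length_replicate] at h3
      rw [h3, en_rep1, he] at h1
      rcases C7_V2 h2 with ⟨k, hk, hk', h4⟩ | ⟨j2, hj2, h4⟩
      · rw [h4] at h1
        have h5 := congrArg Prod.snd h1
        simp only [Prod.snd_sub, Prod.snd_add] at h5
        have h6 := abs_le.1 (hA.hgt i)
        have h7 := abs_le.1 (hB.hgt k)
        omega
      · rw [h4] at h1
        have h5 := congrArg Prod.fst h1
        have h6 := congrArg Prod.snd h1
        simp only [Prod.fst_add, Prod.fst_neg, Prod.snd_add, Prod.snd_neg] at h5 h6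
        rcases Nat.eq_zero_or_pos i with h7 | h7
        · rw [h7, pt_zero] at h6
          simp only [Prod.snd_zero] at h6
          omega
        · have h8 := hA.x_pos h7 hi.le
          omega

end Pool.Agent.PT
end
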