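import Pool.Agent.Lib.MP_ed987a_lc.Mg.G012
import Pool.Agent.Lib.MP_ed987a_lc.Mg.G011
import Pool.Agent.Lib.MP_ed987a_lc.Mg.G009
import Pool.Agent.Lib.MP_ed987a_lc.Mg.G006

section

/-!
# TASK PT C8: the region between two paths is a polyomino without holes; its ring

(`reg_finite`) a cell of `reg` has `0 ≤ x < (en A).1`, `-M ≤ y` (`Pth.cr_low`: otherwise `cr A x y = 0`) and `y < M + h` (`Pth.cr_high` for `B`, `he`: otherwise `cr B x (y - h) = 1`); `Set.Finite.subset` of
`(Set.Icc 0 (en A).1) ×ˢ (Set.Icc (-M) (M + h))`. (`reg_zero`) `(0, y) ∈ reg A B h ↔ 0 ≤ y ∧ y < h`: `Pth.cr_left` for `A` and `B` (`on_iff`, `on_not_iff`).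
(`ring_reg`) `pgn_of_word` for `cw A B h` (`cw_length`, `cw_en`, `inj_cw`; `L ≥ 3` because `A.length, B.length ≥ 1`, `h ≥ 1`); `hS`: `BE_reg`, `WE_cw`, `PE_iff_WE`; `ring_of_left`: `γ 0 = pt w 0 = 0` (`ZMod.val_zero`, `pt_zero`),
`δ 0 = (cw A B h).getD 0 0 = A.getD 0 0 = 0` (`Pth.first`, `List.getD_append`), `co 0 = (0, 0)`, `reg_zero`.
(`poly_reg`) `Ring.poly`, (`perim_reg`) `Ring.perim`.
-/

set_option autoImplicit false

namespace Pool.Agent.PT

variable {M : ℤ} {A B : List (Fin 4)} {h : ℕ}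

theorem reg_finite (hA : Pth M A) (hB : Pth M B) (he : en A = en B) : (reg A B h).Finite := by
  refine Set.Finite.subset ((Set.finite_Icc 0 (en A).1).prod (Set.finite_Icc (-M) (M + h))) ?_
  rintro ⟨x, y⟩ ⟨h0, h1, h2, h3⟩
  dsimp only at h0 h1 h2 h3
  rw [Set.mem_prod, Set.mem_Icc, Set.mem_Icc]
  refine ⟨⟨h0, h1.le⟩, ?_, ?_⟩
  · by_contra hy
    rw [not_le] at hy
    dsimp only at hy
    rw [hA.cr_low hy] at h2
    exact absurd h2 (by decide)
  · by_contra hy
    rw [not_le] at hy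
    dsimp only at hy
    rw [hB.cr_high h0 (by rw [← he]; exact h1) (by linarith)] at h3
    exact absurd h3 (by decide)

theorem reg_zero (hA : Pth M A) (hB : Pth M B) (y : ℤ) : ((0 : ℤ), y) ∈ reg A B h ↔ 0 ≤ y ∧ y < h := by
  constructor
  · rintro ⟨-, -, h2, h3⟩
    dsimp only at h2 h3
    rw [hA.cr_left, on_iff] at h2
    rw [hB.cr_left, on_not_iff] at h3
    exact ⟨h2, by linarith⟩
  · rintro ⟨h1, h2⟩
    refine ⟨le_rfl, hA.pos, ?_, ?_⟩
    · dsimp only
      rw [hA.cr_left, on_iff]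
      exact h1
    · dsimp only
      rw [hB.cr_left, on_not_iff]
      linarith

theorem reg_nonneg {c : V} (hc : c ∈ reg A B h) : 0 ≤ c.1 := hc.1

theorem ring_reg (hA : Pth M A) (hB : Pth M B) (he : en A = en B) (hH : 2 * M < (h : ℤ)) {L : ℕ}
    (hL : L = A.length + B.length + 2 * h) :
    Ring (reg A B h) L (fun i : ZMod L => pt (cw A B h) i.val) (fun i : ZMod L => (cw A B h).getD i.val 0) := by
  have hh : 0 < h := by
    have := hA.M_nonneg
    omega
  have hlen : (cw A B h).length = L := (cw_length A B h).trans hL.symm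
  have h3 : 3 ≤ L := by
    have h1 := hA.length_pos
    have h2 := hB.length_pos
    omega
  have hP := pgn_of_word hlen h3 (cw_en he h) (fun i hi j hj =>
    inj_cw hA hB he hH i (by rw [hlen]; exact hi) j (by rw [hlen]; exact hj))
  refine ring_of_left hP (fun p d => (BE_reg hA hB he hH p d).trans
    ((WE_cw he h p d).symm.trans (PE_iff_WE hlen h3 (cw_en he h) p d).symm)) ?_
  have hg : (cw A B h).getD 0 0 = 0 := by
    unfold cw
    rw [List.getD_append _ _ _ _ hA.length_pos]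
    exact hA.first
  rw [ZMod.val_zero, pt_zero, hg, zero_add]
  have hc : co 0 = ((0 : ℤ), (0 : ℤ)) := rfl
  rw [hc, reg_zero hA hB]
  exact ⟨le_rfl, by exact_mod_cast hh⟩

theorem poly_reg (hA : Pth M A) (hB : Pth M B) (he : en A = en B) (hH : 2 * M < (h : ℤ)) : Poly (reg A B h) := by
  exact (ring_reg hA hB he hH rfl).poly (reg_finite hA hB he)

theorem perim_reg (hA : Pth M A) (hB : Pth M B) (he : en A = en B) (hH : 2 * M < (h : ℤ)) :
    perim (reg A B h) = A.length + B.length + 2 * h := by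
  exact (ring_reg hA hB he hH rfl).perim

end Pool.Agent.PT
end

section

/-!
# TASK PT C9: the region between `A` and `A + (0, H)` tiles by translations

Let `W = (en A).1 > 0`, `δ = (en A).2`. For `0 ≤ x < W` and `y : ℤ` put `u y := cr A x y = 1`. `M ≤ y → u y` (`Pth.cr_high`), `u y → -M ≤ y` (`Pth.cr_low`), and `¬ u y ↔ cr A x y = 0` (`ZMod 2`).
(`exists_unique_level`) for every `y` there is exactly one `i : ℤ` with `u (y - i * H)` and `¬ u (y - i * H - H)`. Existence: let `i₀ = (y + M) / H`, so `-M ≤ y - i₀ * H < H - M`; then `y - i₀ * H - H < -M`, not `u`. If `u (y - i₀ * H)` take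
`i₀`. Otherwise take `i₀ - 1`: `y - (i₀ - 1) * H ≥ H - M > M`, so `u`. Uniqueness: if `i < j` both have the property then `u (y - j * H)` gives `y - j * H ≥ -M`; if `j = i + 1` then `u (y - j * H)` contradicts `¬ u (y - i * H - H)`; if
`j ≥ i + 2` then `y - i * H - H ≥ y - j * H + H ≥ H - M > M`, so `u`, contradiction.
(`tiles_reg`) `T = {t | ∃ i j : ℤ, t = (fun p => (p.1 + j * W, p.2 + (j * δ + i * H))) '' reg A A H}`. For a cell `p = (X, Y)`: `p` is in the copy `(i, j)` iff `c = (X - j * W, Y - j * δ - i * H) ∈ reg A A H`, which implies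
`0 ≤ X - j * W < W`, so `j = X / W`, and then `i` is the unique level for `x = X - j * W`, `y = Y - j * δ`. So the copy is unique, also as a set.
-/

set_option autoImplicit false

namespace Pool.Agent.PT

variable {M H : ℤ} {A : List (Fin 4)}

theorem exists_unique_level (hA : Pth M A) (hH : 2 * M < H) {x : ℤ} (h0 : 0 ≤ x) (h1 : x < (en A).1) (y : ℤ) :
    ∃! i : ℤ, cr A x (y - i * H) = 1 ∧ cr A x (y - i * H - H) = 0 := by
  have hM : 0 ≤ M := hA.M_nonneg
  have hz : ∀ z : ZMod 2, z = 0 ∨ z = 1 := by decide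
  have hne : (0 : ZMod 2) ≠ 1 := by decide
  have hH0 : 0 < H := by omega
  have hhi : ∀ y', M ≤ y' → cr A x y' = 1 := fun y' h => hA.cr_high h0 h1 h
  have hlo : ∀ y', y' < -M → cr A x y' = 0 := fun y' h => hA.cr_low h
  have huniq : ∀ i j : ℤ, i < j → cr A x (y - i * H - H) = 0 → cr A x (y - j * H) = 1 → False := by
    intro i j hij h2 h3
    have h4 : -M ≤ y - j * H := by
      by_contra h5
      rw [not_le] at h5
      rw [hlo _ h5] at h3
      exact hne h3
    rcases eq_or_lt_of_le (Int.add_one_le_iff.mpr hij) with h6 | h6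
    · have h7 : y - i * H - H = y - j * H := by rw [← h6]; ring
      rw [h7, h3] at h2
      exact hne h2.symm
    · have h7 : 2 * H ≤ (j - i) * H := mul_le_mul_of_nonneg_right (by omega) hH0.le
      have h8 : (j - i) * H = j * H - i * H := by ring
      have h9 : M ≤ y - i * H - H := by omega
      rw [hhi _ h9] at h2
      exact hne h2.symm
  have hex : ∃ i : ℤ, cr A x (y - i * H) = 1 ∧ cr A x (y - i * H - H) = 0 := by
    have h2 := Int.mul_ediv_add_emod (y + M) H
    have h3 := Int.emod_nonneg (y + M) hH0.ne'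
    have h4 := Int.emod_lt_of_pos (y + M) hH0
    obtain ⟨i, hi⟩ : ∃ i, i = (y + M) / H := ⟨_, rfl⟩
    rw [← hi] at h2
    have h5 : H * i = i * H := mul_comm _ _
    rw [h5] at h2
    rcases hz (cr A x (y - i * H)) with h6 | h6
    · refine ⟨i - 1, ?_, ?_⟩
      · apply hhi
        have h7 : (i - 1) * H = i * H - H := by ring
        omega
      · have h7 : y - (i - 1) * H - H = y - i * H := by ring
        rw [h7]
        exact h6
    · refine ⟨i, h6, ?_⟩
      apply hlo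
      omega
  obtain ⟨i, h2, h3⟩ := hex
  refine ⟨i, ⟨h2, h3⟩, ?_⟩
  rintro j ⟨h4, h5⟩
  rcases lt_trichotomy j i with h6 | h6 | h6
  · exact absurd (huniq j i h6 h5 h2) id
  · exact h6
  · exact absurd (huniq i j h6 h3 h4) id

theorem tiles_reg (hA : Pth M A) (hH : 2 * M < H) : TilesTrans (reg A A H) := by
  have hW : 0 < (en A).1 := hA.pos
  obtain ⟨W, hWd⟩ : ∃ W, W = (en A).1 := ⟨_, rfl⟩
  obtain ⟨δ, hδ⟩ : ∃ δ, δ = (en A).2 := ⟨_, rfl⟩
  rw [← hWd] at hW
  refine ⟨{t | ∃ i j : ℤ, t = (fun p : V => (p.1 + j * W, p.2 + (j * δ + i * H))) '' reg A A H}, ?_, ?_⟩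
  · rintro t ⟨i, j, rfl⟩
    exact ⟨j * W, j * δ + i * H, rfl⟩
  · rintro ⟨X, Y⟩
    have hx0 : 0 ≤ X - X / W * W := by
      have h1 := Int.mul_ediv_add_emod X W
      have h2 := Int.emod_nonneg X hW.ne'
      have h3 : W * (X / W) = X / W * W := mul_comm _ _
      omega
    have hx1 : X - X / W * W < W := by
      have h1 := Int.mul_ediv_add_emod X W
      have h2 := Int.emod_lt_of_pos X hW
      have h3 : W * (X / W) = X / W * W := mul_comm _ _
      omega
    obtain ⟨i, ⟨hi1, hi2⟩, hi3⟩ := exists_unique_level hA hH hx0 (hWd ▸ hx1) (Y - X / W * δ)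
    refine ⟨(fun p : V => (p.1 + X / W * W, p.2 + (X / W * δ + i * H))) '' reg A A H, ⟨⟨i, X / W, rfl⟩, ?_⟩, ?_⟩
    · refine ⟨(X - X / W * W, Y - X / W * δ - i * H), ⟨hx0, hWd ▸ hx1, hi1, hi2⟩, ?_⟩
      simp only [Prod.mk.injEq]
      constructor <;> ring
    · rintro t ⟨⟨i', j', rfl⟩, q, ⟨hq0, hq1, hq2, hq3⟩, hq⟩
      simp only [Prod.mk.injEq] at hq
      obtain ⟨hqX, hqY⟩ := hq
      rw [← hWd] at hq1
      have hj : j' = X / W := by
        have h1 : X / W = (q.1 + j' * W) / W := by rw [hqX]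
        rw [Int.add_mul_ediv_right _ _ hW.ne', Int.ediv_eq_zero_of_lt hq0 hq1] at h1
        omega
      have hq1' : q.1 = X - X / W * W := by rw [← hj]; omega
      have hq2' : q.2 = Y - X / W * δ - i' * H := by rw [← hj]; omega
      have hii : i' = i := by
        apply hi3
        rw [hq1', hq2'] at hq2 hq3
        exact ⟨hq2, hq3⟩
      rw [hj, hii]

end Pool.Agent.PT
end

section

/-!
# TASK PT C10: the lower bounds

(`reg_inj`) from `shift t (reg A B h) = reg A' B' h`. First `t = 0`: `(0, 0) ∈ reg A B h` (`reg_zero`, `h > 0`), so `t ∈ reg A' B' h` and `0 ≤ t.1`; `(0, 0) ∈ reg A' B' h`, so `-t ∈ reg A B h` (`mem_shift`) and `0 ≤ -t.1`. So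
`t.1 = 0`, and `reg_zero` gives `0 ≤ t.2`, `0 ≤ -t.2`. So `reg A B h = reg A' B' h` (`shift_zero`). The two rings of `ring_reg` (`L = A.length + B.length + 2 h` the same for both) start at `0`; `Ring.unique` gives
`(cw A B h).getD i.val 0 = (cw A' B' h).getD i.val 0` for all `i : ZMod L`, hence for all `i < L`, so `cw A B h = cw A' B' h` (`List.ext_getElem`), and `List.append_inj` (lengths) gives `A = A'` and `rv B = rv B'`, so `B = B'` (`rv_rv`).
(`C_trans`) `X = {W | W.length = k * m ∧ Conf m W}`, `F W = reg (W ++ [0]) (W ++ [0]) H`, `Good S = Poly S ∧ perim S = L ∧ TilesTrans S` with `L = 2 * (k * m + 1) + 2 * H`. `le_ncard_normal` with `Poly.shift`, `perim_shift`,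
`TilesTrans.shift`, finiteness from `allS_finite`, `pth_of_conf`, `poly_reg`, `perim_reg`, `tiles_reg`, `reg_finite`, nonempty by `reg_zero`, `reg_inj` (`M = 2 m`, `2 * (2 * m) < H`). Then `conf_count`.
(`C_all`) for `W ∈ X` the end point `en W` has `0 ≤ (en W).1 ≤ k * m` (`Bridge.en_nonneg`; every step changes the first coordinate by at most 1: `pt_fst_le'`) and `|(en W).2| ≤ m`. So `en W` takes at most `(k * m + 1) * (2 * m + 1)` values, and
for some value `e` the set `X_e = {W ∈ X | en W = e}` has `X.ncard ≤ (k * m + 1) * (2 * m + 1) * X_e.ncard` (pigeonhole: `Finset.exists_lt_card_fiber_of_mul_lt_card_of_maps_to` or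
`Finset.card_le_mul_card_image_of_maps_to`, or the sum `Finset.card_eq_sum_card_fiberwise`). The map `(W, W') ↦ reg (W ++ [0]) (W' ++ [0]) H` on `X_e ×ˢ X_e` with `Good S = Poly S ∧ perim S = L` gives
`X_e.ncard ^ 2 ≤ cntAll L` (`le_ncard_normal`, `Set.ncard_prod`). So `(bs m ^ k) ^ 2 ≤ (2 ^ k * X.ncard) ^ 2 ≤ (2 ^ k * ((k * m + 2) * (2 * m + 1))) ^ 2 * X_e.ncard ^ 2`.
-/

set_option autoImplicit false

namespace Pool.Agent.PT

theorem reg_inj {M : ℤ} {A B A' B' : List (Fin 4)} {h : ℕ} (hA : Pth M A) (hB : Pth M B) (he : en A = en B)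
    (hA' : Pth M A') (hB' : Pth M B') (he' : en A' = en B') (hl : A.length = A'.length) (hl' : B.length = B'.length)
    (hH : 2 * M < (h : ℤ)) (t : V) (ht : shift t (reg A B h) = reg A' B' h) : A = A' ∧ B = B' := by
  have hM := hA.M_nonneg
  have hh : (0 : ℤ) < h := by omega
  have z1 : ((0 : ℤ), (0 : ℤ)) ∈ reg A B h := (reg_zero hA hB 0).2 ⟨le_rfl, hh⟩
  have z2 : ((0 : ℤ), (0 : ℤ)) ∈ reg A' B' h := (reg_zero hA' hB' 0).2 ⟨le_rfl, hh⟩
  have a1 : t ∈ reg A' B' h := by
    rw [← ht, mem_shift, sub_self]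
    exact z1
  have a2 : -t ∈ reg A B h := by
    rw [← ht, mem_shift] at z2
    have e : ((0 : ℤ), (0 : ℤ)) - t = -t := zero_sub t
    rwa [e] at z2
  have b1 : 0 ≤ t.1 := a1.1
  have b2 : 0 ≤ -t.1 := a2.1
  have b3 : t.1 = 0 := by omega
  have c1 : t = ((0 : ℤ), t.2) := Prod.ext b3 rfl
  have c2 : -t = ((0 : ℤ), -t.2) := Prod.ext (by change -t.1 = 0; omega) rfl
  rw [c1] at a1
  rw [c2] at a2
  have d1 := ((reg_zero hA' hB' _).1 a1).1
  have d2 := ((reg_zero hA hB _).1 a2).1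
  have d3 : t = 0 := Prod.ext b3 (by change t.2 = 0; omega)
  rw [d3, shift_zero] at ht
  have r1 := ring_reg hA hB he hH (L := A.length + B.length + 2 * h) rfl
  have r2 := ring_reg hA' hB' he' hH (L := A.length + B.length + 2 * h) (by rw [hl, hl'])
  rw [← ht] at r2
  have hδ := (r1.unique r2 (by simp only [ZMod.val_zero, pt_zero])).2
  have hlen : (cw A B h).length = (cw A' B' h).length := by
    rw [cw_length, cw_length, hl, hl']
  have hcw : cw A B h = cw A' B' h := by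
    refine List.ext_getElem hlen fun i h1 h2 => ?_
    have h3 : i < A.length + B.length + 2 * h := by rw [← cw_length]; exact h1
    have h4 := congrFun hδ (i : ZMod (A.length + B.length + 2 * h))
    simp only [ZMod.val_natCast_of_lt h3] at h4
    rwa [List.getD_eq_getElem _ _ h1, List.getD_eq_getElem _ _ h2] at h4
  unfold cw at hcw
  obtain ⟨e1, e2⟩ := List.append_inj hcw hl
  obtain ⟨-, e3⟩ := List.append_inj e2 rfl
  obtain ⟨e4, -⟩ := List.append_inj e3 (by rw [length_rv, length_rv, hl'])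
  exact ⟨e1, by rw [← rv_rv B, e4, rv_rv]⟩

private theorem C10_len {k m : ℕ} {W : List (Fin 4)} (h : W.length = k * m) : (W ++ [(0 : Fin 4)]).length = k * m + 1 := by
  rw [List.length_append, h]
  rfl

theorem C_trans {m k H : ℕ} (hm : 1 ≤ m) (hH : 4 * m < H) :
    bs m ^ k ≤ 2 ^ k * cntTrans (2 * (k * m + 1) + 2 * H) := by
  have hH' : 2 * (2 * (m : ℤ)) < (H : ℤ) := by exact_mod_cast (by omega : 2 * (2 * m) < H)
  have key : {W : List (Fin 4) | W.length = k * m ∧ Conf m W}.ncard ≤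
      {S | (Poly S ∧ perim S = 2 * (k * m + 1) + 2 * H ∧ TilesTrans S) ∧ Normal S}.ncard := by
    refine le_ncard_normal (fun S => Poly S ∧ perim S = 2 * (k * m + 1) + 2 * H ∧ TilesTrans S) ?_ ?_
      {W : List (Fin 4) | W.length = k * m ∧ Conf m W} (fun W => reg (W ++ [0]) (W ++ [0]) H) ?_ ?_
    · rintro t S ⟨h1, h2, h3⟩
      exact ⟨h1.shift t, by rw [perim_shift, h2], h3.shift t⟩
    · exact (allS_finite (2 * (k * m + 1) + 2 * H)).subset fun S hS => ⟨hS.1.1, hS.2, hS.1.2.1⟩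
    · rintro W ⟨hl, hc⟩
      have hP := pth_of_conf hc
      refine ⟨⟨poly_reg hP hP rfl hH', ?_, tiles_reg hP hH'⟩, reg_finite hP hP rfl, ?_⟩
      · rw [perim_reg hP hP rfl hH', C10_len hl]
        ring
      · exact ⟨(0, 0), (reg_zero hP hP 0).2 ⟨le_rfl, by omega⟩⟩
    · rintro W ⟨hl, hc⟩ W' ⟨hl', hc'⟩ t ht
      have hP := pth_of_conf hc
      have hP' := pth_of_conf hc'
      have h := (reg_inj hP hP rfl hP' hP' rfl (by rw [C10_len hl, C10_len hl'])
        (by rw [C10_len hl, C10_len hl']) hH' t ht).1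
      exact List.append_cancel_right h
  have e : {S | (Poly S ∧ perim S = 2 * (k * m + 1) + 2 * H ∧ TilesTrans S) ∧ Normal S} =
      {S | Poly S ∧ Normal S ∧ perim S = 2 * (k * m + 1) + 2 * H ∧ TilesTrans S} := by
    ext S
    constructor
    · rintro ⟨⟨h1, h2, h3⟩, h4⟩
      exact ⟨h1, h4, h2, h3⟩
    · rintro ⟨h1, h4, h2, h3⟩
      exact ⟨⟨h1, h2, h3⟩, h4⟩
  rw [e] at key
  exact (conf_count m k).trans (Nat.mul_le_mul_left _ key)

theorem pt_fst_le' (w : List (Fin 4)) (i : ℕ) : |(pt w i).1| ≤ (w.length : ℤ) := by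
  have h1 : ∀ w : List (Fin 4), |(en w).1| ≤ (w.length : ℤ) := by
    intro w
    induction w with
    | nil => simp [en_nil]
    | cons d w ih =>
      rw [en_cons, List.length_cons]
      have h2 : ∀ d : Fin 4, |(vec d).1| ≤ 1 := by decide
      have h3 : (vec d + en w).1 = (vec d).1 + (en w).1 := rfl
      rw [h3]
      push_cast
      have := abs_add_le (vec d).1 (en w).1
      have := h2 d
      omega
  have h2 := h1 (w.take i)
  rw [en_take] at h2
  refine h2.trans ?_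
  rw [List.length_take]
  exact_mod_cast min_le_right _ _

theorem C_all {m k H : ℕ} (hm : 1 ≤ m) (hH : 4 * m < H) :
    (bs m ^ k) ^ 2 ≤ (2 ^ k * ((k * m + 2) * (2 * m + 1))) ^ 2 * cntAll (2 * (k * m + 1) + 2 * H) := by
  classical
  have hH' : 2 * (2 * (m : ℤ)) < (H : ℤ) := by exact_mod_cast (by omega : 2 * (2 * m) < H)
  have hX : {W : List (Fin 4) | W.length = k * m ∧ Conf m W}.Finite := fin_len (k * m) (Conf m)
  set s : Finset (List (Fin 4)) := hX.toFinset with hs
  set T : Finset V := Finset.Icc 0 ((k * m : ℕ) : ℤ) ×ˢ Finset.Icc (-(m : ℤ)) (m : ℤ) with hT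
  have hcard : T.card = (k * m + 1) * (2 * m + 1) := by
    have e1 : (((k * m : ℕ) : ℤ) + 1 - 0).toNat = k * m + 1 := by omega
    have e2 : ((m : ℤ) + 1 - -(m : ℤ)).toNat = 2 * m + 1 := by omega
    rw [hT, Finset.card_product, Int.card_Icc, Int.card_Icc, e1, e2]
  have hmaps : ∀ W ∈ s, en W ∈ T := by
    intro W hW
    rw [hs, Set.Finite.mem_toFinset] at hW
    obtain ⟨hl, hc⟩ := hW
    rw [hT, Finset.mem_product, Finset.mem_Icc, Finset.mem_Icc]
    have h1 := hc.bridge.en_nonneg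
    have h2 := pt_fst_le' W W.length
    rw [pt_length, hl] at h2
    have h3 := abs_le.1 hc.fin
    exact ⟨⟨h1, (le_abs_self _).trans h2⟩, h3⟩
  have hne : T.Nonempty := ⟨(0, 0), by
    rw [hT, Finset.mem_product, Finset.mem_Icc, Finset.mem_Icc]
    refine ⟨⟨le_rfl, by positivity⟩, by simp, by simp⟩⟩
  obtain ⟨e, -, hmax⟩ := Finset.exists_max_image T (fun e => (s.filter fun W => en W = e).card) hne
  have h1 : s.card ≤ (s.filter fun W => en W = e).card * T.card :=
    Finset.card_le_mul_card_image_of_maps_to hmaps _ hmax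
  set Y : Set (List (Fin 4)) := {W | (W.length = k * m ∧ Conf m W) ∧ en W = e} with hY
  have hYc : Y.ncard = (s.filter fun W => en W = e).card := by
    rw [← Set.ncard_coe_finset]
    congr 1
    ext W
    rw [Finset.coe_filter, hs]
    constructor
    · rintro ⟨hW, h2⟩
      exact ⟨(Set.Finite.mem_toFinset hX).2 hW, h2⟩
    · rintro ⟨hW, h2⟩
      exact ⟨(Set.Finite.mem_toFinset hX).1 hW, h2⟩
  have key : (Y ×ˢ Y).ncard ≤ {S | (Poly S ∧ perim S = 2 * (k * m + 1) + 2 * H) ∧ Normal S}.ncard := by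
    refine le_ncard_normal (fun S => Poly S ∧ perim S = 2 * (k * m + 1) + 2 * H) ?_ ?_
      (Y ×ˢ Y) (fun p => reg (p.1 ++ [0]) (p.2 ++ [0]) H) ?_ ?_
    · rintro t S ⟨h1, h2⟩
      exact ⟨h1.shift t, by rw [perim_shift, h2]⟩
    · exact (allS_finite (2 * (k * m + 1) + 2 * H)).subset fun S hS => ⟨hS.1.1, hS.2, hS.1.2⟩
    · rintro ⟨W, W'⟩ ⟨⟨⟨hl, hc⟩, h2⟩, ⟨⟨hl', hc'⟩, h2'⟩⟩
      simp only at hl hc h2 hl' hc' h2'
      have hP := pth_of_conf hc
      have hP' := pth_of_conf hc'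
      have he : en (W ++ [0]) = en (W' ++ [0]) := by rw [en_append, en_append, h2, h2']
      refine ⟨⟨poly_reg hP hP' he hH', ?_⟩, reg_finite hP hP' he, ?_⟩
      · rw [perim_reg hP hP' he hH', C10_len hl, C10_len hl']
        ring
      · exact ⟨(0, 0), (reg_zero hP hP' 0).2 ⟨le_rfl, by omega⟩⟩
    · rintro ⟨W, W'⟩ ⟨⟨⟨hl, hc⟩, h2⟩, ⟨⟨hl', hc'⟩, h2'⟩⟩ ⟨U, U'⟩ ⟨⟨⟨ul, uc⟩, u2⟩, ⟨⟨ul', uc'⟩, u2'⟩⟩ t ht
      simp only at hl hc h2 hl' hc' h2' ul uc u2 ul' uc' u2' ht
      have he : en (W ++ [0]) = en (W' ++ [0]) := by rw [en_append, en_append, h2, h2']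
      have he' : en (U ++ [0]) = en (U' ++ [0]) := by rw [en_append, en_append, u2, u2']
      obtain ⟨g1, g2⟩ := reg_inj (pth_of_conf hc) (pth_of_conf hc') he (pth_of_conf uc) (pth_of_conf uc') he'
        (by rw [C10_len hl, C10_len ul]) (by rw [C10_len hl', C10_len ul']) hH' t ht
      rw [List.append_cancel_right g1, List.append_cancel_right g2]
  have e2 : {S | (Poly S ∧ perim S = 2 * (k * m + 1) + 2 * H) ∧ Normal S} =
      allS (2 * (k * m + 1) + 2 * H) := by
    ext S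
    constructor
    · rintro ⟨⟨h1, h2⟩, h4⟩
      exact ⟨h1, h4, h2⟩
    · rintro ⟨h1, h4, h2⟩
      exact ⟨⟨h1, h2⟩, h4⟩
  rw [e2, Set.ncard_prod] at key
  have h2 : {W : List (Fin 4) | W.length = k * m ∧ Conf m W}.ncard = s.card :=
    Set.ncard_eq_toFinset_card _ hX
  have h3 : bs m ^ k ≤ 2 ^ k * ((k * m + 2) * (2 * m + 1)) * Y.ncard := by
    refine (conf_count m k).trans ?_
    rw [h2, mul_assoc]
    refine Nat.mul_le_mul_left _ (h1.trans ?_)
    rw [hYc, hcard, mul_comm]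
    exact Nat.mul_le_mul_right _ (Nat.mul_le_mul_right _ (by omega))
  calc (bs m ^ k) ^ 2 ≤ (2 ^ k * ((k * m + 2) * (2 * m + 1)) * Y.ncard) ^ 2 := Nat.pow_le_pow_left h3 2
    _ = (2 ^ k * ((k * m + 2) * (2 * m + 1))) ^ 2 * (Y.ncard * Y.ncard) := by ring
    _ ≤ (2 ^ k * ((k * m + 2) * (2 * m + 1))) ^ 2 * cntAll (2 * (k * m + 1) + 2 * H) :=
        Nat.mul_le_mul_left _ key

end Pool.Agent.PT
end
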