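import Pool.Agent.Lib.MP_ed987a_lc.Mg.G006
import Pool.Agent.Lib.MP_ed987a_lc.PT.MDefs

section

/-!
# TASK F2: if `γ (i + 1)` is not a junction then the edges `i` and `i + 1` have the same neighbour tile

Let `v = γ (i + 1)`, `b = δ i + 2`, `e = δ (i + 1)`; `b ≠ e` (`Pgn.back`). `Sep T v b` and `Sep T v e`: one side of the edge is in the tile `S`, the other one is not in
`S` (`hR.bd`), and two cells of the same tile are both in `S` or both not (`S ∈ T`, uniqueness). `kT T v ≤ 2`, so no other direction at `v` is separating. The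
cell `v + co b` is `γ i + co (δ i + 3)` (`vec_co_right`). For the directions `b + 1, ..., e - 1` there is no separation, so the cells `v + co b`, ..., `v + co (e + 3)` are in the
same tile (`Same` is transitive; cases `e = b + 1`, `b + 2`, `b + 3`).
(`same_trans`, `same_symm`) uniqueness of the tile of a cell. (`jn_ring`) `v = γ (i + 1)` is a corner of the cell `v + co (δ (i + 1)) ∈ S`. (`card_jn_le`) injectivity of `γ`.
-/

set_option autoImplicit false

namespace Pool.Agent.PT

variable {L : ℕ} {γ : ZMod L → V} {δ : ZMod L → Fin 4} {S : Set V} {T : Set (Set V)}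

theorem same_symm {c c' : V} (h : Same T c c') : Same T c' c := by
  obtain ⟨t, ht, h1, h2⟩ := h
  exact ⟨t, ht, h2, h1⟩

theorem same_trans (hT : Til S T) {a b c : V} (h : Same T a b) (h' : Same T b c) : Same T a c := by
  obtain ⟨t, ht, h1, h2⟩ := h
  obtain ⟨t', ht', h3, h4⟩ := h'
  have he : t = t' := (hT.uni b).unique ⟨ht, h2⟩ ⟨ht', h3⟩
  rw [← he] at h4
  exact ⟨t, ht, h1, h4⟩

private theorem F2_refl (hT : Til S T) (c : V) : Same T c c := by
  obtain ⟨t, ⟨h1, h2⟩, -⟩ := hT.uni c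
  exact ⟨t, h1, h2, h2⟩

private theorem F2_sep (hT : Til S T) (hST : S ∈ T) {v : V} {d : Fin 4} (h : BE S v d) : Sep T v d := by
  rintro ⟨t, ht, h1, h2⟩
  apply h
  constructor
  · intro h3
    have he : t = S := (hT.uni _).unique ⟨ht, h1⟩ ⟨hST, h3⟩
    rw [← he]
    exact h2
  · intro h3
    have he : t = S := (hT.uni _).unique ⟨ht, h2⟩ ⟨hST, h3⟩
    rw [← he]
    exact h1

private theorem F2_nosep {v : V} {b e : Fin 4} (hb : Sep T v b) (he : Sep T v e) (hbe : b ≠ e)
    (h : ¬ 3 ≤ kT T v) {d : Fin 4} (h1 : d ≠ b) (h2 : d ≠ e) : Same T (v + co d) (v + co (d + 3)) := by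
  classical
  by_contra hcon
  apply h
  have hd : Sep T v d := hcon
  have hs : ({b, e, d} : Finset (Fin 4)) ⊆ Finset.univ.filter fun d => Sep T v d := by
    intro x hx
    rw [Finset.mem_insert, Finset.mem_insert, Finset.mem_singleton] at hx
    rw [Finset.mem_filter]
    refine ⟨Finset.mem_univ x, ?_⟩
    rcases hx with rfl | rfl | rfl
    · exact hb
    · exact he
    · exact hd
  have hc := Finset.card_le_card hs
  rw [Finset.card_eq_three.2 ⟨b, e, d, hbe, fun h => h1 h.symm, fun h => h2 h.symm, rfl⟩] at hc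
  unfold kT
  convert hc

theorem same_of_not_junction (hR : Ring S L γ δ) (hT : Til S T) (hST : S ∈ T) (i : ZMod L)
    (h : ¬ 3 ≤ kT T (γ (i + 1))) : Same T (γ i + co (δ i + 3)) (γ (i + 1) + co (δ (i + 1) + 3)) := by
  have hP := hR.pgn
  have hbe : δ i + 2 ≠ δ (i + 1) := fun h => hP.back i h.symm
  have hb : Sep T (γ (i + 1)) (δ i + 2) := by
    refine F2_sep hT hST ((hR.bd _ _).2 ((PE_at hP (i + 1) _).2 (Or.inr ?_)))
    rw [add_sub_cancel_right]
  have he : Sep T (γ (i + 1)) (δ (i + 1)) :=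
    F2_sep hT hST ((hR.bd _ _).2 ((PE_at hP (i + 1) _).2 (Or.inl rfl)))
  have hcell : γ i + co (δ i + 3) = γ (i + 1) + co (δ i + 2) := by
    rw [hP.step i, add_assoc, vec_co_right]
  rw [hcell]
  have hno : ∀ d, d ≠ δ i + 2 → d ≠ δ (i + 1) → Same T (γ (i + 1) + co d) (γ (i + 1) + co (d + 3)) :=
    fun d h1 h2 => F2_nosep hb he hbe h h1 h2
  generalize δ i + 2 = b at hbe hno
  generalize δ (i + 1) = e at hbe hno
  generalize γ (i + 1) = v at hno
  have hcases : ∀ b e : Fin 4, b ≠ e → e = b + 1 ∨ e = b + 2 ∨ e = b + 3 := by decide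
  have e1 : ∀ b : Fin 4, b + 1 + 3 = b := by decide
  have e2 : ∀ b : Fin 4, b + 2 + 3 = b + 1 := by decide
  have e3 : ∀ b : Fin 4, b + 3 + 3 = b + 2 := by decide
  have n1 : ∀ b : Fin 4, b + 1 ≠ b := by decide
  have n2 : ∀ b : Fin 4, b + 2 ≠ b := by decide
  have n12 : ∀ b : Fin 4, b + 1 ≠ b + 2 := by decide
  have n13 : ∀ b : Fin 4, b + 1 ≠ b + 3 := by decide
  have n23 : ∀ b : Fin 4, b + 2 ≠ b + 3 := by decide
  rcases hcases b e hbe with rfl | rfl | rfl
  · rw [e1]
    exact F2_refl hT _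
  · rw [e2]
    have h1 := hno (b + 1) (n1 b) (n12 b)
    rw [e1] at h1
    exact same_symm h1
  · rw [e3]
    have h1 := hno (b + 1) (n1 b) (n13 b)
    have h2 := hno (b + 2) (n2 b) (n23 b)
    rw [e1] at h1
    rw [e2] at h2
    exact same_trans hT (same_symm h1) (same_symm h2)

theorem card_jn_le (hR : Ring S L γ δ) (hf : (Jn T S).Finite) (J : Finset (ZMod L))
    (hJ : ∀ i ∈ J, 3 ≤ kT T (γ (i + 1))) : J.card ≤ (Jn T S).ncard := by
  classical
  have hinj : Function.Injective fun i : ZMod L => γ (i + 1) := fun i j hij =>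
    add_right_cancel (hR.pgn.inj hij)
  rw [← Finset.card_image_of_injective J hinj, ← Set.ncard_coe_finset]
  refine Set.ncard_le_ncard ?_ hf
  intro v hv
  rw [Finset.mem_coe, Finset.mem_image] at hv
  obtain ⟨i, hi, rfl⟩ := hv
  exact ⟨hJ i hi, δ (i + 1), hR.left (i + 1)⟩

end Pool.Agent.PT
end

section

/-!
# TASK F4: the set of cuts

`L ≥ 3`, `J` the junctions (at most 6), `s i`, `f i` constant resp. linear outside of `J`. For `b : ℕ`, `0 < b < L` (casts to `ZMod L`):
`JC` = `{b | (b - 1) ∈ J}` (junction cuts), `XC` = `{b | b - 1 ∉ J}` and (`s b = true` and `f b = 0`, or `s b = false` and `f b = -1`, or `s b = true`, `f b = b` and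
(`b = 1` or `b - 2 ∈ J`)); `cuts = JC ∪ XC`.
`JC.card ≤ 6` (`b ↦ b - 1` is injective on `0 < b < L`). `XC.card ≤ 7`: map `b ∈ XC` to the largest element `g b` of `{0} ∪ JC` which is `≤ b` (it is `< b`, as `b ∉ JC`).
`g` is injective on `XC`: if `b < b'` and `g b = g b'` then no junction cut is in `(g b, b']`, so `s` is constant on `[g b, b']` and `f (b') = f b + (b' - b)` (`s` true) or
`f b - (b' - b)` (`s` false), also from `g b` on. Both are wraps (first two kinds, same `s`): `b' - b = 0` in `ZMod L`, impossible. One is of the third kind: then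
`s = true` and `f i = i` on `[g b, b']`, so neither of them is a wrap (`i = 0` in `ZMod L` is impossible for `0 < i < L`); both of the third kind: `b - 1` and `b' - 1` are both
starts of arcs (`0` or in `JC`), so `g b' ≥ b' - 1 ≥ b > g b`, a contradiction.
(`linear_of_no_cut`) `a ≤ i < e ≤ L`, no junction cut in `(a, e)`: induction on `i`.
(`val_of_no_cut`) no cut in `(a, e)`: by induction `(f i).val = (f a).val + (i - a)` (`s` true: if `(f i).val + 1 = L` then `f (i + 1) = 0`, a wrap at `i + 1`) resp.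
`(f i).val + (i - a) = (f a).val` (`s` false: if `f i = 0` then `f (i + 1) = -1`, a wrap at `i + 1`).
-/

set_option autoImplicit false

namespace Pool.Agent.PT

/-- the assumptions on the labels of the edges -/
structure Labs (L : ℕ) (J : Finset (ZMod L)) (s : ZMod L → Bool) (r : ZMod L → Fin 4) (f : ZMod L → ZMod L) : Prop where
  three : 3 ≤ L
  card : J.card ≤ 6
  s_eq : ∀ i ∉ J, s (i + 1) = s i
  r_eq : ∀ i ∉ J, r (i + 1) = r i
  f_eq : ∀ i ∉ J, f (i + 1) = if s i then f i + 1 else f i - 1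

open Classical in
/-- the cuts at junctions -/
noncomputable def JC (L : ℕ) (J : Finset (ZMod L)) : Finset ℕ :=
  (Finset.range L).filter fun b => 0 < b ∧ ((b : ZMod L) - 1) ∈ J

open Classical in
/-- the other cuts -/
noncomputable def XC (L : ℕ) (J : Finset (ZMod L)) (s : ZMod L → Bool) (f : ZMod L → ZMod L) : Finset ℕ :=
  (Finset.range L).filter fun b => 0 < b ∧ ((b : ZMod L) - 1) ∉ J ∧
    ((s b = true ∧ f b = 0) ∨ (s b = false ∧ f b = -1) ∨
      (s b = true ∧ f b = b ∧ (b = 1 ∨ ((b : ZMod L) - 2) ∈ J)))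

variable {L : ℕ} {J : Finset (ZMod L)} {s : ZMod L → Bool} {r : ZMod L → Fin 4} {f : ZMod L → ZMod L}

private theorem F4_sub (i : ℕ) : (((i + 1 : ℕ) : ZMod L) - 1) = (i : ZMod L) := by
  push_cast
  ring

private theorem F4_notJ {i : ℕ} (hi : i + 1 < L) (hJ : i + 1 ∉ JC L J) : (i : ZMod L) ∉ J := by
  intro hm
  refine hJ ?_
  unfold JC
  rw [Finset.mem_filter, Finset.mem_range, F4_sub]
  exact ⟨hi, Nat.succ_pos i, hm⟩

/-- without junction cuts the labels are linear -/
theorem linear_of_no_cut (h : Labs L J s r f) {a e : ℕ} (he : e ≤ L) (hJ : ∀ c ∈ JC L J, ¬ (a < c ∧ c < e)) :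
    ∀ i, a ≤ i → i < e → s (i : ZMod L) = s (a : ZMod L) ∧ r (i : ZMod L) = r (a : ZMod L) ∧
      f (i : ZMod L) = if s (a : ZMod L) then f (a : ZMod L) + ((i - a : ℕ) : ZMod L) else f (a : ZMod L) - ((i - a : ℕ) : ZMod L) := by
  intro i hai
  induction i, hai using Nat.le_induction with
  | base =>
    intro _
    refine ⟨rfl, rfl, ?_⟩
    rw [Nat.sub_self, Nat.cast_zero, add_zero, sub_zero, ite_self]
  | succ i hai ih =>
    intro hie
    obtain ⟨h1, h2, h3⟩ := ih (by omega)
    have hn : (i : ZMod L) ∉ J := F4_notJ (by omega) (fun hm => hJ _ hm ⟨by omega, hie⟩)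
    have e1 : ((i + 1 : ℕ) : ZMod L) = (i : ZMod L) + 1 := by push_cast; rfl
    have e2 : ((i + 1 - a : ℕ) : ZMod L) = ((i - a : ℕ) : ZMod L) + 1 := by
      have e3 : i + 1 - a = (i - a) + 1 := by omega
      rw [e3]
      push_cast
      rfl
    rw [e1, e2, h.s_eq _ hn, h.r_eq _ hn, h.f_eq _ hn, h1, h2, h3]
    refine ⟨rfl, rfl, ?_⟩
    by_cases hs : s (a : ZMod L) = true
    · rw [if_pos hs, if_pos hs, if_pos hs, add_assoc]
    · rw [if_neg hs, if_neg hs, if_neg hs, sub_sub]

private theorem F4_natInj {b b' : ℕ} (hb : b < L) (hb' : b' < L)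
    (h : (b : ZMod L) = (b' : ZMod L)) : b = b' := by
  have h1 : NeZero L := ⟨by omega⟩
  have h2 := congrArg ZMod.val h
  rwa [ZMod.val_natCast_of_lt hb, ZMod.val_natCast_of_lt hb'] at h2

private theorem F4_ne {b : ℕ} (hb : 0 < b) (hb' : b < L) : (b : ZMod L) ≠ 0 := by
  intro h
  have h1 : (b : ZMod L) = ((0 : ℕ) : ZMod L) := by rw [h, Nat.cast_zero]
  have h2 := F4_natInj hb' (by omega) h1
  omega

private theorem F4_JC (h : Labs L J s r f) : (JC L J).card ≤ 6 := by
  refine le_trans ?_ h.card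
  refine Finset.card_le_card_of_injOn (fun b : ℕ => (b : ZMod L) - 1) ?_ ?_
  · intro b hb
    have hb' := Finset.mem_coe.1 hb
    unfold JC at hb'
    rw [Finset.mem_filter] at hb'
    exact hb'.2.2
  · intro b hb b' hb' he
    have hb1 := Finset.mem_coe.1 hb
    have hb2 := Finset.mem_coe.1 hb'
    unfold JC at hb1 hb2
    rw [Finset.mem_filter, Finset.mem_range] at hb1 hb2
    exact F4_natInj hb1.1 hb2.1 (sub_left_injective he)

/-- the last start of an arc before `b` -/
private noncomputable def F4_g (L : ℕ) (J : Finset (ZMod L)) (b : ℕ) : ℕ :=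
  ((insert 0 (JC L J)).filter fun c => c ≤ b).sup id

private theorem F4_g_mem (b : ℕ) : F4_g L J b ∈ insert 0 (JC L J) ∧ F4_g L J b ≤ b := by
  have hne : ((insert 0 (JC L J)).filter fun c => c ≤ b).Nonempty :=
    ⟨0, Finset.mem_filter.2 ⟨Finset.mem_insert_self _ _, Nat.zero_le b⟩⟩
  obtain ⟨c, hc, he⟩ := Finset.exists_mem_eq_sup _ hne id
  have h1 : F4_g L J b = c := he
  rw [h1]
  exact Finset.mem_filter.1 hc

private theorem F4_le_g {b c : ℕ} (hc : c ∈ JC L J) (hcb : c ≤ b) : c ≤ F4_g L J b :=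
  Finset.le_sup (f := id) (Finset.mem_filter.2 ⟨Finset.mem_insert_of_mem hc, hcb⟩)

private theorem F4_inj (h : Labs L J s r f) {b b' : ℕ} (hb : b ∈ XC L J s f)
    (hb' : b' ∈ XC L J s f) (hg : F4_g L J b = F4_g L J b') (hlt : b < b') : False := by
  unfold XC at hb hb'
  rw [Finset.mem_filter, Finset.mem_range] at hb hb'
  obtain ⟨hbL, hb0, hbJ, hk⟩ := hb
  obtain ⟨hbL', hb0', hbJ', hk'⟩ := hb'
  obtain ⟨ha1, ha2⟩ := F4_g_mem (L := L) (J := J) b
  obtain ⟨a, haeq⟩ : ∃ a, a = F4_g L J b := ⟨_, rfl⟩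
  rw [← haeq] at ha1 ha2
  have hJ : ∀ c ∈ JC L J, ¬ (a < c ∧ c < b' + 1) := by
    rintro c hc ⟨h1, h2⟩
    have h3 : c ≤ F4_g L J b' := F4_le_g hc (by omega)
    rw [← hg, ← haeq] at h3
    omega
  have hl := linear_of_no_cut h (show b' + 1 ≤ L by omega) hJ
  obtain ⟨s1, -, f1⟩ := hl b ha2 (by omega)
  obtain ⟨s2, -, f2⟩ := hl b' (by omega) (by omega)
  have hcast : ((b' - a : ℕ) : ZMod L) = ((b - a : ℕ) : ZMod L) + ((b' - b : ℕ) : ZMod L) := by
    rw [← Nat.cast_add]
    congr 1
    omega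
  have hcb : (b' : ZMod L) = (b : ZMod L) + ((b' - b : ℕ) : ZMod L) := by
    rw [← Nat.cast_add]
    congr 1
    omega
  have hd : ((b' - b : ℕ) : ZMod L) ≠ 0 := F4_ne (by omega) (by omega)
  rcases hk with ⟨hs, hf⟩ | ⟨hs, hf⟩ | ⟨hs, hf, hw⟩
  · rw [s1] at hs
    rw [if_pos hs] at f1 f2
    have hff : f (b' : ZMod L) = f (b : ZMod L) + ((b' - b : ℕ) : ZMod L) := by
      rw [f1, f2, hcast, add_assoc]
    rcases hk' with ⟨hs', hf'⟩ | ⟨hs', hf'⟩ | ⟨hs', hf', hw'⟩
    · rw [hf, hf', zero_add] at hff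
      exact hd hff.symm
    · rw [s2, hs] at hs'
      exact Bool.noConfusion hs'
    · rw [hf, hf', zero_add, hcb] at hff
      exact F4_ne hb0 hbL (add_eq_right.1 hff)
  · rw [s1] at hs
    have hs0 : ¬ s (a : ZMod L) = true := by
      rw [hs]
      exact Bool.false_ne_true
    rw [if_neg hs0] at f1 f2
    have hff : f (b' : ZMod L) = f (b : ZMod L) - ((b' - b : ℕ) : ZMod L) := by
      rw [f1, f2, hcast, sub_sub]
    rcases hk' with ⟨hs', hf'⟩ | ⟨hs', hf'⟩ | ⟨hs', hf', hw'⟩
    · rw [s2] at hs'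
      exact hs0 hs'
    · rw [hf, hf'] at hff
      exact hd (sub_eq_self.1 hff.symm)
    · rw [s2] at hs'
      exact hs0 hs'
  · rw [s1] at hs
    rw [if_pos hs] at f1 f2
    have hff : f (b' : ZMod L) = f (b : ZMod L) + ((b' - b : ℕ) : ZMod L) := by
      rw [f1, f2, hcast, add_assoc]
    rcases hk' with ⟨hs', hf'⟩ | ⟨hs', hf'⟩ | ⟨hs', hf', hw'⟩
    · rw [hf, hf', ← hcb] at hff
      exact F4_ne hb0' hbL' hff.symm
    · rw [s2, hs] at hs'
      exact Bool.noConfusion hs'
    · rcases hw' with hw' | hw'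
      · omega
      · have hc : b' - 1 ∈ JC L J := by
          unfold JC
          rw [Finset.mem_filter, Finset.mem_range]
          refine ⟨by omega, by omega, ?_⟩
          have e1 : ((b' - 1 : ℕ) : ZMod L) - 1 = (b' : ZMod L) - 2 := by
            rw [Nat.cast_sub (by omega)]
            push_cast
            ring
          rw [e1]
          exact hw'
        have h3 : b' - 1 ≤ F4_g L J b' := F4_le_g hc (by omega)
        rw [← hg, ← haeq] at h3
        have hab : a = b := by omega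
        rcases Finset.mem_insert.1 ha1 with h4 | h4
        · omega
        · unfold JC at h4
          rw [Finset.mem_filter, hab] at h4
          exact hbJ h4.2.2

theorem cuts_card (h : Labs L J s r f) : (JC L J ∪ XC L J s f).card ≤ 13 := by
  have h1 := F4_JC h
  have h2 : (XC L J s f).card ≤ (insert 0 (JC L J)).card := by
    refine Finset.card_le_card_of_injOn (F4_g L J) (fun b _ => (F4_g_mem b).1) ?_
    intro b hb b' hb' he
    rcases lt_trichotomy b b' with hlt | heq | hlt
    · exact (F4_inj h (Finset.mem_coe.1 hb) (Finset.mem_coe.1 hb') he hlt).elim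
    · exact heq
    · exact (F4_inj h (Finset.mem_coe.1 hb') (Finset.mem_coe.1 hb) he.symm hlt).elim
  have h3 := Finset.card_insert_le 0 (JC L J)
  have h4 := Finset.card_union_le (JC L J) (XC L J s f)
  omega

/-- without cuts there is no wrap -/
theorem val_of_no_cut (h : Labs L J s r f) {a e : ℕ} (he : e ≤ L) (hJ : ∀ c ∈ JC L J ∪ XC L J s f, ¬ (a < c ∧ c < e)) :
    ∀ i, a ≤ i → i < e → if s (a : ZMod L) then (f (i : ZMod L)).val = (f (a : ZMod L)).val + (i - a)
      else (f (i : ZMod L)).val + (i - a) = (f (a : ZMod L)).val := by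
  have hL3 := h.three
  have hne : NeZero L := ⟨by omega⟩
  have hl := linear_of_no_cut h he (fun c hc => hJ c (Finset.mem_union_left _ hc))
  intro i hai
  induction i, hai using Nat.le_induction with
  | base =>
    intro _
    rw [Nat.sub_self, add_zero, ite_self]
  | succ i hai ih =>
    intro hie
    have ih' := ih (by omega)
    have hnJC : i + 1 ∉ JC L J := fun hm =>
      hJ _ (Finset.mem_union_left _ hm) ⟨by omega, hie⟩
    have hnXC : i + 1 ∉ XC L J s f := fun hm =>
      hJ _ (Finset.mem_union_right _ hm) ⟨by omega, hie⟩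
    have hn : (i : ZMod L) ∉ J := F4_notJ (by omega) hnJC
    have e1 : ((i + 1 : ℕ) : ZMod L) = (i : ZMod L) + 1 := by push_cast; rfl
    have hsi := (hl i hai (by omega)).1
    have hsi1 := (hl (i + 1) (by omega) hie).1
    have hfi : f ((i + 1 : ℕ) : ZMod L) = if s (a : ZMod L) then f (i : ZMod L) + 1
        else f (i : ZMod L) - 1 := by
      rw [e1, h.f_eq _ hn, hsi]
    have hval := ZMod.val_lt (f (i : ZMod L))
    have hcast : (((f (i : ZMod L)).val : ℕ) : ZMod L) = f (i : ZMod L) := ZMod.natCast_zmod_val _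
    by_cases hs : s (a : ZMod L) = true
    · rw [if_pos hs] at ih' hfi ⊢
      have hf1 : f ((i + 1 : ℕ) : ZMod L) = (((f (i : ZMod L)).val + 1 : ℕ) : ZMod L) := by
        rw [hfi]
        push_cast
        rw [hcast]
      by_cases hw : (f (i : ZMod L)).val + 1 < L
      · rw [hf1, ZMod.val_natCast_of_lt hw, ih']
        omega
      · exfalso
        have hw' : (f (i : ZMod L)).val + 1 = L := by omega
        rw [hw', ZMod.natCast_self] at hf1
        refine hnXC ?_
        unfold XC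
        rw [Finset.mem_filter, Finset.mem_range, F4_sub]
        exact ⟨by omega, Nat.succ_pos i, hn, Or.inl ⟨by rw [hsi1, hs], hf1⟩⟩
    · rw [if_neg hs] at ih' hfi ⊢
      have hs' : s (a : ZMod L) = false := Bool.eq_false_iff.2 hs
      by_cases hw : (f (i : ZMod L)).val = 0
      · exfalso
        rw [hw, Nat.cast_zero] at hcast
        rw [← hcast, zero_sub] at hfi
        refine hnXC ?_
        unfold XC
        rw [Finset.mem_filter, Finset.mem_range, F4_sub]
        exact ⟨by omega, Nat.succ_pos i, hn, Or.inr (Or.inl ⟨by rw [hsi1, hs'], hfi⟩)⟩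
      · have hf1 : f ((i + 1 : ℕ) : ZMod L) = (((f (i : ZMod L)).val - 1 : ℕ) : ZMod L) := by
          rw [hfi, Nat.cast_sub (by omega), hcast, Nat.cast_one]
        rw [hf1, ZMod.val_natCast_of_lt (by omega), ← ih']
        omega

end Pool.Agent.PT
end
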