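import Pool.Agent.Lib.MP_ed987a_lc.Mg.G005
import Pool.Agent.Lib.MP_ed987a_lc.PT.T4
import Pool.Agent.Lib.MP_ed987a_lc.Mg.G008

section

/-!
# TASK T6: some tile has at most six junctions

(`jn_finite`) the junctions on `t` are corners of cells of `t`.
(`exists_few`) Suppose all tiles have at least 7 junctions. Let `D` be as in `exists_diam`, `n = S.ncard`, `R` large, `F` the family of `exists_family`, `X` the finset of the points
`v` with `|v.1|, |v.2| ≤ R + D + 1`. For `t ∈ F` all corners of `t` are in `X`, so `∑ v ∈ X, wt T t v = 6 * 4 * chi t - 4 * (Jn T t).ncard ≤ 24 - 28 = -4` (`sum_loc`,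
`chi_le_one`, `Til.con`, `cn_of_con`). So `∑ v ∈ X, ∑ t ∈ F, wt T t v ≤ -4 * F.card`. For `v` with `|v.1|, |v.2| ≤ R - 1` the four cells `v + co j` are in the box `[-R, R]^2`, so
the inner sum is `≥ 0` (`wt_sum_nonneg`). There are `(2 (R + D + 1) + 1)^2 - (2 (R - 1) + 1)^2 = (2 D + 4) (4 R + 2 D + 2)` other points of `X`, each has inner sum `≥ -64`. Hence
`4 * F.card ≤ 64 * (2 D + 4) * (4 R + 2 D + 2)`, and with `(2 R + 1)^2 ≤ n * F.card` this is a contradiction for large `R`.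
-/

set_option autoImplicit false

namespace Pool.Agent.PT

variable {S : Set V} {T : Set (Set V)}

theorem jn_finite (hT : Til S T) (hf : S.Finite) {t : Set V} (ht : t ∈ T) : (Jn T t).Finite := by
  have h1 : Jn T t ⊆ ⋃ j : Fin 4, (fun c => c - co j) '' t := by
    rintro v ⟨_, j, hj⟩
    exact Set.mem_iUnion.2 ⟨j, ⟨v + co j, hj, add_sub_cancel_right _ _⟩⟩
  exact (Set.finite_iUnion fun j => ((hT.finite hf ht).1.image _)).subset h1

private noncomputable def T6_box (k : ℕ) : Finset V := Finset.Icc ((-(k : ℤ), -(k : ℤ)) : V) ((k : ℤ), (k : ℤ))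

private theorem T6_mem {k : ℕ} {v : V} : v ∈ T6_box k ↔ |v.1| ≤ k ∧ |v.2| ≤ k := by
  unfold T6_box
  rw [Finset.mem_Icc, Prod.le_def, Prod.le_def, abs_le, abs_le]
  constructor
  · rintro ⟨⟨h1, h2⟩, h3, h4⟩
    exact ⟨⟨h1, h3⟩, h2, h4⟩
  · rintro ⟨⟨h1, h3⟩, h2, h4⟩
    exact ⟨⟨h1, h2⟩, h3, h4⟩

private theorem T6_card (k : ℕ) : (T6_box k).card = (2 * k + 1) ^ 2 := by
  have h : T6_box k = Finset.Icc (-(k : ℤ)) k ×ˢ Finset.Icc (-(k : ℤ)) k := rfl
  rw [h, Finset.card_product, Int.card_Icc]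
  have h2 : ((k : ℤ) + 1 - -(k : ℤ)).toNat = 2 * k + 1 := by omega
  rw [h2]
  ring

private theorem T6_co (j : Fin 4) : |(co j).1| ≤ 1 ∧ |(co j).2| ≤ 1 := by revert j; decide

theorem exists_few (hT : Til S T) (hf : S.Finite) (hc : (gridG.induce S).Connected) :
    ∃ t ∈ T, (Jn T t).ncard ≤ 6 := by
  classical
  by_contra hcon
  push Not at hcon
  obtain ⟨D, hD⟩ := exists_diam hT hf
  set n := S.ncard with hn
  set K := 16 * n * (2 * D + 4) with hK
  set R := K + D + 1 with hR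
  obtain ⟨F, hF1, hF2, hF3⟩ := exists_family hT hf hD R
  set X := T6_box (R + D + 1) with hX
  -- one tile
  have htile : ∀ t ∈ F, ∑ v ∈ X, wt T t v ≤ -4 := by
    intro t ht
    have htT := (hF1 t ht).1
    have hfin := (hT.finite hf htT).1
    have hcor : ∀ v j, v + co j ∈ t → v ∈ X := by
      intro v j hv
      have h1 := (hF1 t ht).2 _ hv
      have h2 := T6_co j
      rw [hX, T6_mem]
      simp only [Prod.fst_add, Prod.snd_add] at h1
      push_cast
      rw [abs_le] at *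
      rw [abs_le] at *
      omega
    have h1 : ∑ v ∈ X, loc t v = 4 * chi hfin.toFinset := by
      have h2 := sum_loc hfin.toFinset X (fun v j hv => hcor v j (by rwa [Set.Finite.mem_toFinset] at hv))
      rwa [Set.Finite.coe_toFinset] at h2
    have h2 : chi hfin.toFinset ≤ 1 := by
      refine chi_le_one _ (cn_of_con ?_)
      rw [Set.Finite.coe_toFinset]
      exact hT.con hc htT
    have h3 : ∑ v ∈ X, (if v ∈ Jn T t then (1 : ℤ) else 0) = (Jn T t).ncard := by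
      have hj := jn_finite hT hf htT
      rw [Finset.sum_boole, Set.ncard_eq_toFinset_card _ hj]
      congr 2
      ext v
      rw [Finset.mem_filter, Set.Finite.mem_toFinset]
      constructor
      · exact fun h => h.2
      · rintro ⟨h, j, hv⟩
        exact ⟨hcor v j hv, h, j, hv⟩
    have h4 := hcon t htT
    have h5 : ∑ v ∈ X, wt T t v = 6 * ∑ v ∈ X, loc t v - 4 * ∑ v ∈ X, (if v ∈ Jn T t then (1 : ℤ) else 0) := by
      rw [Finset.mul_sum, Finset.mul_sum, ← Finset.sum_sub_distrib]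
      rfl
    rw [h5, h1, h3]
    have h6 : (7 : ℤ) ≤ (Jn T t).ncard := by exact_mod_cast h4
    linarith
  have h1 : ∑ v ∈ X, ∑ t ∈ F, wt T t v ≤ -4 * (F.card : ℤ) := by
    rw [Finset.sum_comm]
    calc ∑ t ∈ F, ∑ v ∈ X, wt T t v ≤ ∑ _t ∈ F, (-4 : ℤ) := Finset.sum_le_sum htile
      _ = -4 * (F.card : ℤ) := by rw [Finset.sum_const, nsmul_eq_mul]; ring
  -- the inner box
  set I := T6_box (R - 1) with hI
  have hIX : I ⊆ X := by
    intro v hv
    rw [hI, T6_mem] at hv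
    rw [hX, T6_mem]
    have : ((R - 1 : ℕ) : ℤ) ≤ ((R + D + 1 : ℕ) : ℤ) := by omega
    exact ⟨hv.1.trans this, hv.2.trans this⟩
  have hin : ∀ v ∈ I, 0 ≤ ∑ t ∈ F, wt T t v := by
    intro v hv
    rw [hI, T6_mem] at hv
    refine wt_sum_nonneg hT F (fun t ht => (hF1 t ht).1) v fun j => ?_
    have h2 := T6_co j
    have h3 : ((R - 1 : ℕ) : ℤ) = (R : ℤ) - 1 := by omega
    rw [h3] at hv
    refine hF2 _ ?_ ?_
    · rw [Prod.fst_add]
      have := hv.1
      have := h2.1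
      rw [abs_le] at *
      omega
    · rw [Prod.snd_add]
      have := hv.2
      have := h2.2
      rw [abs_le] at *
      omega
  have h2 : -64 * ((X.card : ℤ) - I.card) ≤ ∑ v ∈ X, ∑ t ∈ F, wt T t v := by
    rw [← Finset.sum_sdiff hIX]
    have h3 : ∑ v ∈ X \ I, (-64 : ℤ) ≤ ∑ v ∈ X \ I, ∑ t ∈ F, wt T t v :=
      Finset.sum_le_sum fun v _ => wt_sum_ge hT F (fun t ht => (hF1 t ht).1) v
    have h4 : 0 ≤ ∑ v ∈ I, ∑ t ∈ F, wt T t v := Finset.sum_nonneg hin
    rw [Finset.sum_const, nsmul_eq_mul, Finset.card_sdiff_of_subset hIX] at h3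
    have h5 : I.card ≤ X.card := Finset.card_le_card hIX
    rw [Nat.cast_sub h5] at h3
    linarith
  rw [hX, hI, T6_card, T6_card] at h2
  have h3 : 4 * (F.card : ℤ) ≤ 64 * ((2 * (D : ℤ) + 4) * (4 * R + 2 * D + 2)) := by
    have h4 : ((2 * (R - 1) + 1 : ℕ) : ℤ) = 2 * (R : ℤ) - 1 := by omega
    rw [Nat.cast_pow, Nat.cast_pow, h4] at h2
    push_cast at h2
    nlinarith
  have h4 : (2 * (R : ℤ) + 1) ^ 2 ≤ (n : ℤ) * F.card := by exact_mod_cast hF3
  have h5 : (n : ℤ) * (4 * F.card) ≤ n * (64 * ((2 * (D : ℤ) + 4) * (4 * R + 2 * D + 2))) :=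
    mul_le_mul_of_nonneg_left h3 (Int.natCast_nonneg n)
  have hRz : (R : ℤ) = K + D + 1 := by rw [hR]; push_cast; ring
  have hKz : (K : ℤ) = 16 * n * (2 * D + 4) := by rw [hK]; push_cast; ring
  have h6 : (2 * (R : ℤ) + 1) ^ 2 ≤ K * (4 * R + 2 * D + 2) := by
    rw [hKz]
    linarith
  have hK0 : (0 : ℤ) ≤ K := Int.natCast_nonneg K
  have hD0 : (0 : ℤ) ≤ D := Int.natCast_nonneg D
  have hR0 : (0 : ℤ) ≤ R := Int.natCast_nonneg R
  have h7 : (K : ℤ) * (2 * D + 2) ≤ R * (2 * D + 2) := mul_le_mul_of_nonneg_right (by linarith) (by linarith)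
  have h8 : (R : ℤ) * (4 * R) = R * (4 * (K + D + 1)) := by rw [← hRz]
  nlinarith

end Pool.Agent.PT
end

section

/-!
# TASK T7: we may assume that `S` itself is a tile with at most six junctions

`T₀` a tiling (`Tiles.til`), `t = m.cell '' S` a tile with at most six junctions (`exists_few`), `m'` the inverse of `m` (`exists_inv`).
`T = {m'.cell '' s | s ∈ T₀}` is a tiling (`exists_comp` for `img`), it contains `m'.cell '' t = S`. `Same T (m'.cell c) (m'.cell c') ↔ Same T₀ c c'`,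
so `Sep T (m'.pnt v) (m'.dir d) ↔ Sep T₀ v d` (`cell_co`; for reflections the two sides are interchanged and `Same` is symmetric), `kT T (m'.pnt v) = kT T₀ v`
(`dir_inj`, `dir_surj`), and `Jn T S = m'.pnt '' Jn T₀ t`.
-/

set_option autoImplicit false

namespace Pool.Agent.PT

private theorem T7_side (m : Mot) (v : V) (d : Fin 4) :
    (m.pnt v + co (m.dir d) = m.cell (v + co d) ∧ m.pnt v + co (m.dir d + 3) = m.cell (v + co (d + 3))) ∨
    (m.pnt v + co (m.dir d) = m.cell (v + co (d + 3)) ∧ m.pnt v + co (m.dir d + 3) = m.cell (v + co d)) := by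
  rw [cell_co, cell_co]
  obtain ⟨s, r, t⟩ := m
  cases s
  · left
    have h : ∀ d r : Fin 4, d + r + 3 = d + 3 + r := by decide
    refine ⟨rfl, ?_⟩
    unfold Mot.dir Mot.quad
    simp only [Bool.false_eq_true, if_false]
    rw [h]
  · right
    have h1 : ∀ d r : Fin 4, r - 1 - (d + 3) = r - d := by decide
    have h2 : ∀ d r : Fin 4, r - 1 - d = r - d + 3 := by decide
    unfold Mot.dir Mot.quad
    simp only [if_true]
    rw [h1, h2]
    exact ⟨rfl, rfl⟩

theorem exists_til_few {S : Set V} (h : Tiles S) (hS : Poly S) :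
    ∃ T, Til S T ∧ S ∈ T ∧ (Jn T S).Finite ∧ (Jn T S).ncard ≤ 6 := by
  obtain ⟨T₀, hT₀⟩ := h.til
  obtain ⟨t, ht, hJ⟩ := exists_few hT₀ hS.fin hS.con
  obtain ⟨m, hm⟩ := hT₀.img t ht
  obtain ⟨m', h1, h2, h3, h4⟩ := exists_inv m
  have hSt : m'.cell '' t = S := by
    rw [hm, Set.image_image]
    simp only [h1, Set.image_id']
  have hsame : ∀ c c', Same ((fun s => m'.cell '' s) '' T₀) (m'.cell c) (m'.cell c') ↔ Same T₀ c c' := by
    intro c c'
    constructor
    · rintro ⟨_, ⟨s, hs, rfl⟩, hc, hc'⟩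
      refine ⟨s, hs, ?_, ?_⟩
      · exact (cell_inj m').mem_set_image.mp hc
      · exact (cell_inj m').mem_set_image.mp hc'
    · rintro ⟨s, hs, hc, hc'⟩
      exact ⟨_, ⟨s, hs, rfl⟩, Set.mem_image_of_mem _ hc, Set.mem_image_of_mem _ hc'⟩
  have hsymm : ∀ c c', Same T₀ c c' → Same T₀ c' c := by
    rintro c c' ⟨s, hs, hc, hc'⟩
    exact ⟨s, hs, hc', hc⟩
  have hsep : ∀ v d, Sep ((fun s => m'.cell '' s) '' T₀) (m'.pnt v) (m'.dir d) → Sep T₀ v d := by
    intro v d hs hs'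
    apply hs
    rcases T7_side m' v d with ⟨e1, e2⟩ | ⟨e1, e2⟩
    · rw [e1, e2, hsame]
      exact hs'
    · rw [e1, e2, hsame]
      exact hsymm _ _ hs'
  have hk : ∀ v, kT ((fun s => m'.cell '' s) '' T₀) (m'.pnt v) ≤ kT T₀ v := by
    classical
    intro v
    unfold kT
    have hsub : (Finset.univ.filter fun d => Sep ((fun s => m'.cell '' s) '' T₀) (m'.pnt v) d) ⊆
        (Finset.univ.filter fun d => Sep T₀ v d).image m'.dir := by
      intro e he
      rw [Finset.mem_filter] at he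
      obtain ⟨d, rfl⟩ := dir_surj m' e
      rw [Finset.mem_image]
      exact ⟨d, Finset.mem_filter.mpr ⟨Finset.mem_univ _, hsep v d he.2⟩, rfl⟩
    exact (Finset.card_le_card hsub).trans Finset.card_image_le
  have hsubJ : Jn ((fun s => m'.cell '' s) '' T₀) S ⊆ m'.pnt '' Jn T₀ t := by
    rintro w ⟨hw1, j, hj⟩
    obtain ⟨v, rfl⟩ := pnt_surj m' w
    obtain ⟨j', rfl⟩ := quad_surj m' j
    refine ⟨v, ⟨hw1.trans (hk v), j', ?_⟩, rfl⟩
    rw [← cell_co] at hj
    rw [hm, ← h2 (v + co j')]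
    exact Set.mem_image_of_mem _ hj
  have hfin : (Jn T₀ t).Finite := jn_finite hT₀ hS.fin ht
  refine ⟨(fun s => m'.cell '' s) '' T₀, ⟨?_, ?_⟩, ⟨t, ht, hSt⟩, (hfin.image _).subset hsubJ, ?_⟩
  · rintro _ ⟨s, hs, rfl⟩
    obtain ⟨m₁, hm₁⟩ := hT₀.img s hs
    obtain ⟨m₂, hm₂⟩ := exists_comp m' m₁
    refine ⟨m₂, ?_⟩
    have h5 : m₂.cell = fun c => m'.cell (m₁.cell c) := funext hm₂
    change m'.cell '' s = m₂.cell '' S
    rw [hm₁, Set.image_image, h5]
  · intro p
    obtain ⟨s, ⟨hs, hps⟩, hu⟩ := hT₀.uni (m.cell p)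
    refine ⟨m'.cell '' s, ⟨⟨s, hs, rfl⟩, ?_⟩, ?_⟩
    · rw [← h1 p]
      exact Set.mem_image_of_mem _ hps
    · rintro _ ⟨⟨s', hs', rfl⟩, hp⟩
      obtain ⟨c, hc, hcp⟩ := hp
      have h6 : s' = s := by
        apply hu s' ⟨hs', ?_⟩
        rw [← hcp, h2]
        exact hc
      rw [h6]
  · exact (Set.ncard_le_ncard hsubJ (hfin.image _)).trans ((Set.ncard_image_le hfin).trans hJ)

end Pool.Agent.PT
end
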