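import Pool.Agent.Lib.MP_ed987a_lc.PT.F3
import Pool.Agent.Lib.MP_ed987a_lc.Mg.G014
import Pool.Agent.Lib.MP_ed987a_lc.Mg.G009
import Pool.Agent.Lib.MP_ed987a_lc.Mg.G016

section

/-!
# TASK F5: the word of the boundary is a concatenation of 14 pieces

`six_of_cuts` for `w = wordOf δ` (`wordOf_length`, `wordOf_getD`) and the cuts `JC ∪ XC`. Let `a ≤ e ≤ L` be without cuts in between. If `e = a`: the empty piece, any label with `α = 0`.
Let `a < e`, so `a < L`. By `linear_of_no_cut`, `val_of_no_cut`, for `a ≤ i < e`:
`s a = false`: label `(false, (f a).val + a, false, r a)`: `pos = (f a).val + a - i = (f i).val < L`, `δ i = δ (f i) + r a`.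
`s a = true`, `(f a).val ≠ a`: label `(true, (f a).val + L - a, true, r a)`: `pos = (f a).val + (i - a) = (f i).val`, `α ≠ L`, `δ i = r a - δ (f i)`.
`s a = true`, `(f a).val = a`: `f i = i` for `a ≤ i < e`. If `e = a + 1`: the same label (`α = L`, `e ≤ a + 1`). If `e ≥ a + 2`: `a + 1` is not a cut, so `a + 1` is not in `JC`
(`a ∉ J`), and not of the third kind: `a ≥ 1` and `a - 1 ∉ J`. So `s (a - 1) = true`, `r (a - 1) = r a`, `f (a - 1) = a - 1`, and `δ i = r a - δ i` for `a - 1 ≤ i < e`. So
`2 δ (i - 1) = 2 δ i`, and `δ i ≠ δ (i - 1) + 2` (`hb`), hence `δ i = δ (i - 1)` for `a ≤ i < e`: the label `(true, L - 1, false, 0)`, `pos = i - 1`, `dir d = d`.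
-/

set_option autoImplicit false

namespace Pool.Agent.PT

private theorem F5_dec : ∀ x y q : Fin 4, x = q - x → y = q - y → y ≠ x + 2 → y = x := by decide

theorem six_of_labels {L : ℕ} {J : Finset (ZMod L)} {s : ZMod L → Bool} {r : ZMod L → Fin 4} {f : ZMod L → ZMod L}
    (h : Labs L J s r f) (δ : ZMod L → Fin 4) (hb : ∀ i, δ (i + 1) ≠ δ i + 2)
    (hlaw : ∀ i, δ i = if s i then r i - δ (f i) else δ (f i) + r i) : Six (wordOf δ) := by
  have h3 := h.three
  have : NeZero L := ⟨by omega⟩
  have hw := wordOf_length δ
  have hget : ∀ {i : ℕ}, i < L → (wordOf δ).getD i 0 = δ (i : ZMod L) := fun hi => wordOf_getD δ hi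
  have hgetv : ∀ x : ZMod L, (wordOf δ).getD x.val 0 = δ x := fun x => by
    rw [wordOf_getD δ (ZMod.val_lt x), ZMod.natCast_zmod_val]
  refine six_of_cuts (wordOf δ) (JC L J ∪ XC L J s f) (cuts_card h) ?_ ?_
  · intro c hc
    rw [hw]
    rw [Finset.mem_union] at hc
    rcases hc with hc | hc
    · unfold JC at hc
      rw [Finset.mem_filter, Finset.mem_range] at hc
      exact ⟨hc.2.1, hc.1⟩
    · unfold XC at hc
      rw [Finset.mem_filter, Finset.mem_range] at hc
      exact ⟨hc.2.1, hc.1⟩
  · intro a e hae he hJ
    rw [hw] at he
    rcases Nat.eq_or_lt_of_le hae with rfl | hlt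
    · refine ⟨(false, 0, false, 0), Nat.zero_le _, fun i h1 h2 => absurd h2 (not_lt.2 h1), fun h1 => ?_⟩
      exact absurd h1 (by simp)
    · have haL : a < L := by omega
      have hl := linear_of_no_cut h he (fun c hc => hJ c (Finset.mem_union_left _ hc))
      have hv := val_of_no_cut h he hJ
      have hfa := ZMod.val_lt (f (a : ZMod L))
      by_cases hs : s (a : ZMod L) = true
      · -- increasing
        have hv' : ∀ i, a ≤ i → i < e → (f (i : ZMod L)).val = (f (a : ZMod L)).val + (i - a) := by
          intro i h1 h2
          have h4 := hv i h1 h2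
          rwa [if_pos hs] at h4
        have hδ : ∀ i, a ≤ i → i < e → δ (i : ZMod L) = r (a : ZMod L) - δ (f (i : ZMod L)) := by
          intro i h1 h2
          obtain ⟨h4, h5, -⟩ := hl i h1 h2
          have h6 := hlaw (i : ZMod L)
          rw [h4, if_pos hs, h5] at h6
          exact h6
        have main : ((f (a : ZMod L)).val ≠ a ∨ e = a + 1) → Piece (wordOf δ) a e := by
          intro hor
          refine ⟨(true, (f (a : ZMod L)).val + L - a, true, r (a : ZMod L)), ?_, ?_, ?_⟩
          · rw [hw]
            show (f (a : ZMod L)).val + L - a ≤ 2 * L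
            omega
          · intro i h1 h2
            have h4 := hv' i h1 h2
            have h5 := ZMod.val_lt (f (i : ZMod L))
            rw [hw]
            constructor
            · show L ≤ (f (a : ZMod L)).val + L - a + i ∧ (f (a : ZMod L)).val + L - a + i < 2 * L
              omega
            · have h6 : Lab.pos (true, (f (a : ZMod L)).val + L - a, true, r (a : ZMod L)) L i =
                  (f (i : ZMod L)).val := by
                show (f (a : ZMod L)).val + L - a + i - L = (f (i : ZMod L)).val
                omega
              rw [h6, hget (by omega), hgetv]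
              exact hδ i h1 h2
          · intro _ h4
            rw [hw] at h4
            have h5 : (f (a : ZMod L)).val + L - a = L := h4
            rcases hor with h6 | h6
            · exact absurd (by omega) h6
            · omega
        by_cases hfaa : (f (a : ZMod L)).val = a
        · rcases Nat.lt_or_ge (a + 1) e with hae1 | hae1
          · -- the reflected arc
            have hfi : ∀ i, a ≤ i → i < e → f (i : ZMod L) = (i : ZMod L) := by
              intro i h1 h2
              have h4 := hv' i h1 h2
              have h5 : (f (i : ZMod L)).val = i := by omega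
              rw [← ZMod.natCast_zmod_val (f (i : ZMod L)), h5]
            have hcut := hJ (a + 1)
            have hc1 : a + 1 ∉ JC L J ∪ XC L J s f := fun hc => hcut hc ⟨by omega, hae1⟩
            rw [Finset.mem_union, not_or] at hc1
            obtain ⟨hc1, hc2⟩ := hc1
            have hcast : ((a + 1 : ℕ) : ZMod L) - 1 = (a : ZMod L) := by
              push_cast
              ring
            have hcast2 : ((a + 1 : ℕ) : ZMod L) - 2 = (a : ZMod L) - 1 := by
              push_cast
              ring
            have haJ : (a : ZMod L) ∉ J := by
              intro h4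
              apply hc1
              unfold JC
              rw [Finset.mem_filter, Finset.mem_range]
              refine ⟨by omega, by omega, ?_⟩
              rw [hcast]
              exact h4
            have hs1 : s ((a + 1 : ℕ) : ZMod L) = true := by
              rw [(hl (a + 1) (by omega) hae1).1]
              exact hs
            have hthird : ¬ (a + 1 = 1 ∨ (a : ZMod L) - 1 ∈ J) := by
              intro h4
              apply hc2
              unfold XC
              rw [Finset.mem_filter, Finset.mem_range]
              refine ⟨by omega, by omega, ?_, Or.inr (Or.inr ⟨hs1, hfi (a + 1) (by omega) hae1, ?_⟩)⟩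
              · rw [hcast]
                exact haJ
              · rw [hcast2]
                exact h4
            rw [not_or] at hthird
            obtain ⟨ha0, haJ'⟩ := hthird
            have ha1 : 1 ≤ a := by omega
            have hcast3 : ((a - 1 : ℕ) : ZMod L) = (a : ZMod L) - 1 := by
              rw [Nat.cast_sub ha1, Nat.cast_one]
            have hsub : (a : ZMod L) - 1 + 1 = (a : ZMod L) := by ring
            have hs2 : s ((a : ZMod L) - 1) = true := by
              have := h.s_eq _ haJ'
              rw [hsub] at this
              rw [← this]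
              exact hs
            have hr2 : r ((a : ZMod L) - 1) = r (a : ZMod L) := by
              have := h.r_eq _ haJ'
              rw [hsub] at this
              exact this.symm
            have hf2 : f ((a : ZMod L) - 1) = (a : ZMod L) - 1 := by
              have h4 := h.f_eq _ haJ'
              rw [hsub, if_pos hs2, hfi a le_rfl hlt] at h4
              exact eq_sub_of_add_eq h4.symm
            have hδ2 : ∀ i, a - 1 ≤ i → i < e → δ (i : ZMod L) = r (a : ZMod L) - δ (i : ZMod L) := by
              intro i h1 h2
              rcases Nat.lt_or_ge i a with h4 | h4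
              · have h5 : i = a - 1 := by omega
                subst h5
                rw [hcast3]
                have h6 := hlaw ((a : ZMod L) - 1)
                rw [if_pos hs2, hr2, hf2] at h6
                exact h6
              · have h5 := hδ i h4 h2
                rw [hfi i h4 h2] at h5
                exact h5
            refine ⟨(true, L - 1, false, 0), ?_, ?_, ?_⟩
            · rw [hw]
              show L - 1 ≤ 2 * L
              omega
            · intro i h1 h2
              rw [hw]
              constructor
              · show L ≤ L - 1 + i ∧ L - 1 + i < 2 * L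
                omega
              · have h6 : Lab.pos (true, L - 1, false, (0 : Fin 4)) L i = i - 1 := by
                  show L - 1 + i - L = i - 1
                  omega
                rw [h6, hget (by omega), hget (by omega)]
                show δ (i : ZMod L) = δ ((i - 1 : ℕ) : ZMod L) + 0
                rw [add_zero]
                refine F5_dec _ _ _ (hδ2 (i - 1) (by omega) (by omega)) (hδ2 i (by omega) h2) ?_
                have h7 : ((i - 1 : ℕ) : ZMod L) + 1 = (i : ZMod L) := by
                  rw [Nat.cast_sub (by omega), Nat.cast_one]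
                  ring
                have h8 := hb ((i - 1 : ℕ) : ZMod L)
                rw [h7] at h8
                exact h8
            · intro _ h4
              rw [hw] at h4
              have h5 : L - 1 = L := h4
              omega
          · exact main (Or.inr (by omega))
        · exact main (Or.inl hfaa)
      · -- decreasing
        refine ⟨(false, (f (a : ZMod L)).val + a, false, r (a : ZMod L)), ?_, ?_, ?_⟩
        · rw [hw]
          show (f (a : ZMod L)).val + a ≤ 2 * L
          omega
        · intro i h1 h2
          have h4 := hv i h1 h2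
          rw [if_neg hs] at h4
          have h5 := ZMod.val_lt (f (i : ZMod L))
          rw [hw]
          constructor
          · show i ≤ (f (a : ZMod L)).val + a ∧ (f (a : ZMod L)).val + a < i + L
            omega
          · have h6 : Lab.pos (false, (f (a : ZMod L)).val + a, false, r (a : ZMod L)) L i =
                (f (i : ZMod L)).val := by
              show (f (a : ZMod L)).val + a - i = (f (i : ZMod L)).val
              omega
            rw [h6, hget (by omega), hgetv]
            obtain ⟨h7, h8, -⟩ := hl i h1 h2
            have h9 := hlaw (i : ZMod L)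
            rw [h7, if_neg hs, h8] at h9
            exact h9
        · intro h4
          exact absurd h4 (by simp)

end Pool.Agent.PT
end

section

/-!
# TASK F6: the boundary word of a polyomino which tiles the plane is a concatenation of 14 pieces

`T` from `exists_til_few`: `S ∈ T`, `(Jn T S).ncard ≤ 6`. Choose for every tile `t ∈ T` a motion `M t` with `t = (M t).cell '' S`. For `i : ZMod L` let `t i` be the tile of the cell
`γ i + co (δ i + 3)`; it is not `S` (`Ring.right`), so it does not contain `γ i + co (δ i) ∈ S` (uniqueness of the tile). `exists_label` for `m i = M (t i)` gives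
`f i` with `Lb γ δ (m i) i (f i)`. `J = {i | 3 ≤ kT T (γ (i + 1))}` has at most 6 elements (`card_jn_le`). For `i ∉ J` the tiles `t i`, `t (i + 1)` are equal (`same_of_not_junction`), so
`m (i + 1) = m i` and `Lb.next` applies. `s i = (m i).s`, `r i = if (m i).s then (m i).r else (m i).r + 2`. `six_of_labels` (`Pgn.back`).
-/

set_option autoImplicit false

namespace Pool.Agent.PT

theorem tiles_six {L : ℕ} {γ : ZMod L → V} {δ : ZMod L → Fin 4} {S : Set V} (hS : Poly S) (h : Tiles S)
    (hR : Ring S L γ δ) : Six (wordOf δ) := by
  classical
  have hL := hR.pgn.three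
  have : NeZero L := ⟨by omega⟩
  have : Nonempty Mot := ⟨⟨true, 0, 0⟩⟩
  obtain ⟨T, hT, hST, hfin, h6⟩ := exists_til_few h hS
  choose! M hM using hT.img
  choose t ht using fun i : ZMod L => (hT.uni (γ i + co (δ i + 3))).exists
  have huni : ∀ (c : V) (a b : Set V), a ∈ T → c ∈ a → b ∈ T → c ∈ b → a = b := by
    intro c a b ha hca hb hcb
    exact (hT.uni c).unique ⟨ha, hca⟩ ⟨hb, hcb⟩
  have hlab : ∀ i : ZMod L, ∃ j, Lb γ δ (M (t i)) i j := by
    intro i
    obtain ⟨h1, h2⟩ := ht i
    have h3 := hM (t i) h1
    refine exists_label hR (M (t i)) i (h3 ▸ h2) ?_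
    rw [← h3]
    intro h4
    have h5 : t i = S := huni _ _ _ h1 h4 hST (hR.left i)
    rw [h5] at h2
    exact hR.right i h2
  choose f hf using hlab
  have hsame : ∀ i : ZMod L, ¬ 3 ≤ kT T (γ (i + 1)) → t (i + 1) = t i := by
    intro i hi
    obtain ⟨t', h1, h2, h3⟩ := same_of_not_junction hR hT hST i hi
    rw [huni _ _ _ (ht (i + 1)).1 (ht (i + 1)).2 h1 h3, huni _ _ _ (ht i).1 (ht i).2 h1 h2]
  set J : Finset (ZMod L) := Finset.univ.filter fun i => 3 ≤ kT T (γ (i + 1)) with hJ
  have hJ' : ∀ i, i ∉ J → ¬ 3 ≤ kT T (γ (i + 1)) := by
    intro i hi h1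
    exact hi (Finset.mem_filter.2 ⟨Finset.mem_univ _, h1⟩)
  refine six_of_labels (J := J) (s := fun i => (M (t i)).s)
    (r := fun i => if (M (t i)).s then (M (t i)).r else (M (t i)).r + 2) (f := f) ?_ δ hR.pgn.back ?_
  · refine ⟨hL, ?_, ?_, ?_, ?_⟩
    · exact (card_jn_le hR hfin J fun i hi => (Finset.mem_filter.1 hi).2).trans h6
    · intro i hi
      show (M (t (i + 1))).s = (M (t i)).s
      rw [hsame i (hJ' i hi)]
    · intro i hi
      show (if (M (t (i + 1))).s then (M (t (i + 1))).r else (M (t (i + 1))).r + 2) = _
      rw [hsame i (hJ' i hi)]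
    · intro i hi
      have h1 := hf (i + 1)
      rw [hsame i (hJ' i hi)] at h1
      exact Lb.next hR (hf i) h1
  · intro i
    rcases hf i with ⟨h1, -, -, h2⟩ | ⟨h1, -, -, h2⟩
    · simp only [h1, if_true]
      exact h2
    · simp only [h1, Bool.false_eq_true, if_false]
      exact h2

end Pool.Agent.PT
end
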